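import Pool.Agent.V8H30.ST.CycBlock

namespace Pool.Agent.V8H30.ST

open Classical

variable {G : Type*} [Group G]

theorem exists_gen [Finite G] (hG : IsPGroup 2 G) (hc : IsCyclic (Phi G))
    (h4 : ∃ n ∈ Phi G, n * n ≠ 1) :
    ∃ (g : G) (s : ℕ), (∀ i : ℤ, g ^ i = 1 ↔ 8 * (2 : ℤ) ^ s ∣ i) ∧
      Phi G = Subgroup.zpowers (g * g) := by
  have : Fact (Nat.Prime 2) := ⟨Nat.prime_two⟩
  obtain ⟨⟨p, hp⟩, hgen⟩ := hc.exists_generator
  have hPp : Phi G = Subgroup.zpowers p := by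
    apply le_antisymm
    · intro x hx
      obtain ⟨i, hi⟩ := Subgroup.mem_zpowers_iff.1 (hgen ⟨x, hx⟩)
      exact Subgroup.mem_zpowers_iff.2 ⟨i, congrArg Subtype.val hi⟩
    · rw [Subgroup.zpowers_le]; exact hp
  obtain ⟨t, ht⟩ := (IsPGroup.iff_orderOf (p := 2)).1 hG p
  have hordp : ∀ i : ℤ, p ^ i = 1 ↔ (2 : ℤ) ^ t ∣ i := by
    intro i
    rw [← orderOf_dvd_iff_zpow_eq_one, ht]; push_cast; rfl
  have ht2 : 2 ≤ t := by
    by_contra hcon
    obtain ⟨n, hn, hnn⟩ := h4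
    rw [hPp] at hn
    obtain ⟨i, rfl⟩ := Subgroup.mem_zpowers_iff.1 hn
    apply hnn
    rw [← zpow_add, hordp]
    have : t = 0 ∨ t = 1 := by omega
    rcases this with rfl | rfl
    · simp
    · exact ⟨i, by ring⟩
  obtain ⟨g, hg⟩ : ∃ g : G, g * g ∉ Subgroup.zpowers (p * p) := by
    by_contra hcon
    push Not at hcon
    have hpK : p ∉ Subgroup.zpowers (p * p) := by
      intro h
      obtain ⟨j, hj⟩ := Subgroup.mem_zpowers_iff.1 h
      rw [(Commute.refl p).mul_zpow, ← zpow_add] at hj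
      have h1 : p ^ (j + j - 1) = 1 := by rw [zpow_sub, hj, zpow_one, mul_inv_cancel]
      rw [hordp] at h1
      have h2 : (2 : ℤ) ∣ 2 ^ t := dvd_pow_self 2 (by omega)
      have h3 := h2.trans h1
      omega
    obtain ⟨L, -, -, hpL, hL⟩ := exists_half ⊤ _ p le_top (fun y _ => hcon y) hpK
    have hLi : L.index = 2 := by
      rw [Subgroup.index_eq_two_iff']
      refine ⟨p⁻¹, fun b => ?_⟩
      by_cases hb : b ∈ L
      · right
        refine ⟨hb, fun h => hpL ?_⟩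
        have : p = b * (p⁻¹ * b)⁻¹ := by group
        rw [this]; exact L.mul_mem hb (L.inv_mem h)
      · left; exact ⟨(hL b trivial).resolve_left hb, hb⟩
    exact hpL (Phi_le hLi hp)
  obtain ⟨a, ha⟩ := Subgroup.mem_zpowers_iff.1 (hPp ▸ sq_mem_Phi g : g * g ∈ Subgroup.zpowers p)
  have haodd : Odd a := by
    rw [← Int.not_even_iff_odd]
    rintro ⟨b, hb⟩
    apply hg
    rw [← ha, hb, zpow_add, ← (Commute.refl p).mul_zpow]
    exact Subgroup.zpow_mem _ (Subgroup.mem_zpowers _) _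
  have hco : IsCoprime a ((2 : ℤ) ^ t) := IsCoprime.pow_right (Int.isCoprime_two_right.2 haodd)
  have hgg : ∀ i : ℤ, (g * g) ^ i = 1 ↔ (2 : ℤ) ^ t ∣ i := by
    intro i
    rw [← ha, ← zpow_mul, hordp]
    constructor
    · intro h; exact hco.symm.dvd_of_dvd_mul_left h
    · intro h; exact h.mul_left a
  have hPg : Phi G = Subgroup.zpowers (g * g) := by
    rw [hPp]
    apply le_antisymm
    · rw [Subgroup.zpowers_le]
      obtain ⟨u, v, huv⟩ := hco
      refine Subgroup.mem_zpowers_iff.2 ⟨u, ?_⟩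
      rw [← ha, ← zpow_mul]
      have h1 : p ^ (a * u - 1) = 1 := by
        rw [hordp]; exact ⟨-v, by linear_combination huv⟩
      rw [zpow_sub, zpow_one] at h1
      exact mul_inv_eq_one.1 h1
    · rw [Subgroup.zpowers_le, ← ha]
      exact Subgroup.zpow_mem _ (Subgroup.mem_zpowers p) _
  refine ⟨g, t - 2, ?_, hPg⟩
  have e8 : 8 * (2 : ℤ) ^ (t - 2) = 2 ^ (t + 1) := by
    have : (8 : ℤ) = 2 ^ 3 := by norm_num
    rw [this, ← pow_add]; congr 1; omega
  have e9 : (2 : ℤ) ^ (t + 1) = 2 * 2 ^ t := by rw [pow_succ']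
  intro i
  rw [e8]
  constructor
  · intro h
    have h1 : (g * g) ^ i = 1 := by rw [(Commute.refl g).mul_zpow, h, one_mul]
    -- i is even
    rcases Int.even_or_odd i with ⟨j, hj⟩ | hodd
    · have h2 : (g * g) ^ j = 1 := by
        rw [(Commute.refl g).mul_zpow, ← zpow_add, ← hj]; exact h
      rw [hgg] at h2
      rw [hj, e9, ← two_mul]
      exact mul_dvd_mul_left 2 h2
    · exfalso
      rw [hgg] at h1
      have h2 : (2 : ℤ) ∣ 2 ^ t := dvd_pow_self 2 (by omega)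
      have h3 := h2.trans h1
      obtain ⟨k, hk⟩ := hodd
      omega
  · rintro ⟨q, hq⟩
    have : i = 2 ^ t * q + 2 ^ t * q := by rw [hq, e9]; ring
    rw [this, zpow_add, ← (Commute.refl g).mul_zpow, hgg]
    exact ⟨q, rfl⟩

theorem cyc_group [Finite G] {g : G} {s : ℕ}
    (hord : ∀ i : ℤ, g ^ i = 1 ↔ 8 * (2 : ℤ) ^ s ∣ i)
    (hPhi : Phi G = Subgroup.zpowers (g * g)) (hnc : ¬ IsCyclic G) :
    ∃ D : Set G, Cov D ∧ ∀ x ∈ Subgroup.zpowers (g * g), x * x ≠ 1 → x ∈ D := by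
  obtain ⟨r, hr⟩ : ∃ r : ℤ, r = 2 ^ s := ⟨_, rfl⟩
  rw [← hr] at hord
  have hr1 : 1 ≤ r := by
    rw [hr]; exact_mod_cast Nat.one_le_two_pow
  have hoddco : ∀ ν : ℤ, Odd ν → IsCoprime ν (8 * r) := by
    intro ν hν
    have : 8 * r = 2 ^ (s + 3) := by rw [hr, pow_add]; norm_num; ring
    rw [this]
    exact IsCoprime.pow_right (Int.isCoprime_two_right.2 hν)
  have hgm : g ∈ Subgroup.zpowers g := Subgroup.mem_zpowers g
  have hzm : ∀ i : ℤ, g ^ i ∈ Subgroup.zpowers g := fun i => Subgroup.zpow_mem _ hgm i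
  have hPg : Phi G ≤ Subgroup.zpowers g := by
    rw [hPhi, Subgroup.zpowers_le]; exact Subgroup.mul_mem _ hgm hgm
  have nC : (Subgroup.zpowers g).Normal := normal_of_sq (sq_mem_of_Phi_le hPg)
  have hge : ∀ i j : ℤ, g ^ i = g ^ j ↔ 8 * r ∣ i - j := by
    intro i j
    rw [← hord, zpow_sub, mul_inv_eq_one]
  let z : G := g ^ (4 * r)
  let n : G := g ^ (2 * r)
  have hzz : z * z = 1 := by
    change g ^ (4 * r) * g ^ (4 * r) = 1
    rw [← zpow_add, hord]; exact ⟨1, by ring⟩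
  have hz1 : z ≠ 1 := by
    intro h
    have h1 := (hord _).1 h
    obtain ⟨q, hq⟩ := h1
    have h2 : r * (2 * q - 1) = 0 := by linarith
    rcases mul_eq_zero.1 h2 with h3 | h3 <;> omega
  have hnn : n * n = z := by
    change g ^ (2 * r) * g ^ (2 * r) = g ^ (4 * r)
    rw [← zpow_add]; congr 1; ring
  have hzq : ∀ q : ℤ, z ^ q = 1 ∨ z ^ q = z := by
    intro q
    rcases Int.even_or_odd q with ⟨j, hj⟩ | ⟨j, hj⟩
    · left; rw [hj, zpow_add, ← (Commute.refl z).mul_zpow j, hzz, one_zpow]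
    · right
      rw [hj, zpow_add, two_mul, zpow_add, ← (Commute.refl z).mul_zpow j, hzz, one_zpow]; simp
  have hconj : ∀ y : G, ∃ ν : ℤ, (∀ i : ℤ, y⁻¹ * g ^ i * y = g ^ (ν * i)) ∧ Odd ν := by
    intro y
    have h1 : y⁻¹ * g * y ∈ Subgroup.zpowers g := by
      have := nC.conj_mem _ hgm y⁻¹
      rwa [inv_inv] at this
    obtain ⟨ν, hν⟩ := Subgroup.mem_zpowers_iff.1 h1
    have h2 : ∀ i : ℤ, y⁻¹ * g ^ i * y = g ^ (ν * i) := by
      intro i
      have h3 := conj_zpow (i := i) (a := y⁻¹) (b := g)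
      rw [inv_inv] at h3
      rw [← h3, ← hν, zpow_mul]
    refine ⟨ν, h2, ?_⟩
    rw [← Int.not_even_iff_odd]
    rintro ⟨t, ht⟩
    have h4 : y⁻¹ * z * y = 1 := by
      change y⁻¹ * g ^ (4 * r) * y = 1
      rw [h2, hord]
      exact ⟨t, by rw [ht]; ring⟩
    apply hz1
    calc z = y * (y⁻¹ * z * y) * y⁻¹ := by group
      _ = 1 := by rw [h4]; group
  have hzc : ∀ y, z * y = y * z := by
    intro y
    obtain ⟨ν, h1, t, ht⟩ := hconj y
    have h2 : y⁻¹ * z * y = z := by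
      change y⁻¹ * g ^ (4 * r) * y = g ^ (4 * r)
      rw [h1, hge]
      exact ⟨t, by rw [ht]; ring⟩
    calc z * y = y * (y⁻¹ * z * y) := by group
      _ = y * z := by rw [h2]
  have hn1 : n ≠ 1 := by
    intro h
    apply hz1
    rw [← hnn, h, one_mul]
  have hnz : n ≠ z := by
    intro h
    have h1 : z * z = z := by
      nth_rewrite 1 [← h]; nth_rewrite 1 [← h]; exact hnn
    rw [hzz] at h1
    exact hz1 h1.symm
  have hmul1z : ∀ a b : G, (a = 1 ∨ a = z) → (b = 1 ∨ b = z) → (a * b = 1 ∨ a * b = z) := by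
    rintro a b (rfl | rfl) (rfl | rfl)
    · simp
    · simp
    · simp
    · left; exact hzz
  -- odd exponents
  have hn4 : ∀ (y : G) (ν : ℤ), (∀ i : ℤ, y⁻¹ * g ^ i * y = g ^ (ν * i)) → y⁻¹ * n * y = n →
      ∃ ν' : ℤ, ν + 1 = 2 * ν' ∧ Odd ν' := by
    intro y ν h1 h2
    have h3 : g ^ (ν * (2 * r)) = g ^ (2 * r) := by rw [← h1]; exact h2
    rw [hge] at h3
    obtain ⟨q, hq⟩ := h3
    have h4 : ν - 1 = 4 * q := by
      have h5 : (2 * r) * (ν - 1) = (2 * r) * (4 * q) := by linarith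
      exact mul_left_cancel₀ (by omega) h5
    exact ⟨2 * q + 1, by linarith, q, rfl⟩
  have hinvn : ∀ y : G, y⁻¹ * n * y = n ∨ y⁻¹ * n * y = n⁻¹ := by
    intro y
    obtain ⟨ν, h1, t, ht⟩ := hconj y
    have h2 : y⁻¹ * n * y = g ^ (ν * (2 * r)) := h1 _
    rcases Int.even_or_odd t with ⟨u, hu⟩ | ⟨u, hu⟩
    · left
      rw [h2]
      change g ^ (ν * (2 * r)) = g ^ (2 * r)
      rw [hge]; exact ⟨u, by rw [ht, hu]; ring⟩
    · right
      rw [h2]
      change g ^ (ν * (2 * r)) = (g ^ (2 * r))⁻¹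
      rw [← zpow_neg, hge]; exact ⟨u + 1, by rw [ht, hu]; ring⟩
  -- adjusting the square
  have hadj : ∀ y : G, ∃ i : ℤ, (y * g ^ i) * (y * g ^ i) = 1 ∨ (y * g ^ i) * (y * g ^ i) = z := by
    intro y
    obtain ⟨k, hk⟩ := Subgroup.mem_zpowers_iff.1 (hPhi ▸ sq_mem_Phi y : y * y ∈ Subgroup.zpowers (g * g))
    have hk' : y * y = g ^ (2 * k) := by
      rw [← hk, (Commute.refl g).mul_zpow, ← zpow_add]; congr 1; ring
    obtain ⟨ν, h1, hodd⟩ := hconj y
    have hcomm : 8 * r ∣ ν * (2 * k) - 2 * k := by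
      rw [← hge, ← h1, ← hk']; group
    have hsq : ∀ i : ℤ, (y * g ^ i) * (y * g ^ i) = g ^ (2 * k + ν * i + i) := by
      intro i
      have : (y * g ^ i) * (y * g ^ i) = (y * y) * (y⁻¹ * g ^ i * y) * g ^ i := by group
      rw [this, h1, hk', ← zpow_add, ← zpow_add]
    obtain ⟨t, ht⟩ := hodd
    rcases Int.even_or_odd t with ⟨u, hu⟩ | ⟨u, hu⟩
    · -- ν ≡ 1 mod 4
      obtain ⟨a, b, hab⟩ := hoddco (t + 1) ⟨u, by rw [hu]; ring⟩
      refine ⟨-(k * a), Or.inl ?_⟩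
      rw [hsq, hord]
      exact ⟨2 * k * b, by rw [ht]; linear_combination (-2 * k) * hab⟩
    · -- ν ≡ 3 mod 4
      refine ⟨0, ?_⟩
      rw [hsq, mul_zero, add_zero, add_zero]
      have h3 : 8 * r ∣ t * (4 * k) := by
        have : t * (4 * k) = ν * (2 * k) - 2 * k := by rw [ht]; ring
        rw [this]; exact hcomm
      have h4 : 8 * r ∣ 4 * k := (hoddco t ⟨u, hu⟩).symm.dvd_of_dvd_mul_left h3
      obtain ⟨q, hq⟩ := h4
      have h5 : 2 * k = 4 * r * q := by linarith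
      rw [h5, zpow_mul]
      exact hzq q
  -- commutators with elements of R
  have hcomR : ∀ r₀ : G, r₀⁻¹ * n * r₀ = n → (r₀ * r₀ = 1 ∨ r₀ * r₀ = z) → ∀ w : G,
      ∃ φ, (φ = 1 ∨ φ = z) ∧ w * r₀ * w⁻¹ = r₀ * φ := by
    intro r₀ hr₀n hr₀2 w
    refine ⟨r₀⁻¹ * w * r₀ * w⁻¹, ?_, by group⟩
    have h1 : r₀⁻¹ * w * r₀⁻¹⁻¹ * w⁻¹ ∈ Phi G := comm_mem_of_sq sq_mem_Phi _ _
    rw [inv_inv, hPhi] at h1
    obtain ⟨a, ha⟩ := Subgroup.mem_zpowers_iff.1 h1
    have ha' : r₀⁻¹ * w * r₀ * w⁻¹ = g ^ (2 * a) := by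
      rw [← ha, (Commute.refl g).mul_zpow, ← zpow_add]; congr 1; ring
    rw [ha']
    obtain ⟨ν, hν, -⟩ := hconj r₀
    obtain ⟨ν', hν', hodd⟩ := hn4 r₀ ν hν hr₀n
    have hcen : w * (r₀ * r₀) * w⁻¹ = r₀ * r₀ := by
      rcases hr₀2 with h | h
      · rw [h]; group
      · rw [h, ← hzc w]; group
    have h2 : r₀ * g ^ (2 * a) * (r₀ * g ^ (2 * a)) = r₀ * r₀ := by
      rw [← ha']
      have : r₀ * (r₀⁻¹ * w * r₀ * w⁻¹) * (r₀ * (r₀⁻¹ * w * r₀ * w⁻¹)) = w * (r₀ * r₀) * w⁻¹ := by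
        group
      rw [this, hcen]
    have h3 : r₀ * g ^ (2 * a) * (r₀ * g ^ (2 * a)) =
        (r₀ * r₀) * (r₀⁻¹ * g ^ (2 * a) * r₀ * g ^ (2 * a)) := by group
    rw [h3, hν, ← zpow_add] at h2
    have h4 := mul_eq_left.1 h2
    rw [hord] at h4
    have h5 : 8 * r ∣ ν' * (4 * a) := by
      have : ν' * (4 * a) = ν * (2 * a) + 2 * a := by linear_combination (-2 * a) * hν'
      rw [this]; exact h4
    have h6 : 8 * r ∣ 4 * a := (hoddco ν' hodd).symm.dvd_of_dvd_mul_left h5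
    obtain ⟨q, hq⟩ := h6
    have h7 : 2 * a = 4 * r * q := by linarith
    rw [h7, zpow_mul]
    exact hzq q
  let R : Subgroup G :=
    { carrier := {y | y⁻¹ * n * y = n ∧ (y * y = 1 ∨ y * y = z)}
      mul_mem' := by
        rintro a b ⟨ha1, ha2⟩ ⟨hb1, hb2⟩
        refine ⟨?_, ?_⟩
        · have : (a * b)⁻¹ * n * (a * b) = b⁻¹ * (a⁻¹ * n * a) * b := by group
          rw [this, ha1, hb1]
        · obtain ⟨φ, hφ, hφ2⟩ := hcomR a ha1 ha2 b
          have : a * b * (a * b) = a * (b * a * b⁻¹) * (b * b) := by group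
          rw [this, hφ2]
          have : a * (a * φ) * (b * b) = (a * a) * φ * (b * b) := by group
          rw [this]
          exact hmul1z _ _ (hmul1z _ _ ha2 hφ) hb2
      one_mem' := ⟨by group, Or.inl (one_mul 1)⟩
      inv_mem' := by
        rintro a ⟨ha1, ha2⟩
        refine ⟨?_, ?_⟩
        · calc a⁻¹⁻¹ * n * a⁻¹ = a * (a⁻¹ * n * a) * a⁻¹ := by rw [ha1]; group
            _ = n := by group
        · rw [← mul_inv_rev]
          rcases ha2 with h | h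
          · left; rw [h, inv_one]
          · right; rw [h]; exact inv_eq_of_mul_eq_one_left hzz }
  have hRmem : ∀ y, y ∈ R ↔ y⁻¹ * n * y = n ∧ (y * y = 1 ∨ y * y = z) := fun y => Iff.rfl
  have hnR : n ∈ R := ⟨by group, Or.inr hnn⟩
  have hzR : z ∈ R := by
    rw [← hnn]; exact R.mul_mem hnR hnR
  have hznn : z ∈ Subgroup.zpowers n := by
    rw [← hnn]; exact Subgroup.mul_mem _ (Subgroup.mem_zpowers n) (Subgroup.mem_zpowers n)
  obtain ⟨r₁, hr₁R, hr₁2, hr₁⟩ : ∃ r₁ ∈ R, r₁ * r₁ = 1 ∧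
      (r₁ ∉ Subgroup.zpowers n ∨ (r₁ = 1 ∧ ∀ y ∈ R, y ∈ Subgroup.zpowers n)) := by
    by_cases h : ∀ y ∈ R, y ∈ Subgroup.zpowers n
    · exact ⟨1, R.one_mem, one_mul 1, Or.inr ⟨rfl, h⟩⟩
    · push Not at h
      obtain ⟨y, hy, hyn⟩ := h
      rcases hy.2 with h1 | h1
      · exact ⟨y, hy, h1, Or.inl hyn⟩
      · refine ⟨y * n, R.mul_mem hy hnR, ?_, Or.inl ?_⟩
        · have h2 : n * y = y * n := by
            have := hy.1
            calc n * y = y * (y⁻¹ * n * y) := by group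
              _ = y * n := by rw [this]
          have : y * n * (y * n) = y * (n * y) * n := by group
          rw [this, h2]
          have : y * (y * n) * n = (y * y) * (n * n) := by group
          rw [this, h1, hnn, hzz]
        · intro h2
          apply hyn
          have : y = y * n * n⁻¹ := by group
          rw [this]
          exact Subgroup.mul_mem _ h2 (Subgroup.inv_mem _ (Subgroup.mem_zpowers n))
  have nZ : (Subgroup.zpowers z).Normal := by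
    constructor
    intro x hx y
    obtain ⟨i, rfl⟩ := Subgroup.mem_zpowers_iff.1 hx
    rw [← conj_zpow, ← hzc y]
    have : z * y * y⁻¹ = z := by group
    rw [this]; exact hx
  let K₀ : Subgroup G := Subgroup.zpowers z ⊔ Subgroup.zpowers r₁
  have hzK₀ : z ∈ K₀ := (le_sup_left : Subgroup.zpowers z ≤ K₀) (Subgroup.mem_zpowers z)
  have hr₁K₀ : r₁ ∈ K₀ := (le_sup_right : Subgroup.zpowers r₁ ≤ K₀) (Subgroup.mem_zpowers r₁)
  have hnK₀ : n ∉ K₀ := by
    intro h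
    rw [Subgroup.mem_sup_of_normal_left] at h
    obtain ⟨a, ha, b, hb, hab⟩ := h
    obtain ⟨i, rfl⟩ := Subgroup.mem_zpowers_iff.1 ha
    obtain ⟨j, rfl⟩ := Subgroup.mem_zpowers_iff.1 hb
    have hj : r₁ ^ j = 1 ∨ r₁ ^ j = r₁ := by
      rcases Int.even_or_odd j with ⟨k, hk⟩ | ⟨k, hk⟩
      · left; rw [hk, zpow_add, ← (Commute.refl r₁).mul_zpow k, hr₁2, one_zpow]
      · right
        rw [hk, zpow_add, two_mul, zpow_add, ← (Commute.refl r₁).mul_zpow k, hr₁2, one_zpow]; simp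
    have hno : r₁ ^ j ≠ 1 := by
      intro h
      rw [h, mul_one] at hab
      rcases hzq i with h2 | h2
      · rw [h2] at hab; exact hn1 hab.symm
      · rw [h2] at hab; exact hnz hab.symm
    have hj' := hj.resolve_left hno
    rw [hj'] at hab
    rcases hr₁ with h2 | ⟨h2, -⟩
    · apply h2
      have : r₁ = (z ^ i)⁻¹ * n := by rw [← hab]; group
      rw [this]
      exact Subgroup.mul_mem _ (Subgroup.inv_mem _ (Subgroup.zpow_mem _ hznn _))
        (Subgroup.mem_zpowers n)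
    · apply hno
      rw [hj', h2]
  have hK₀R : K₀ ≤ R := by
    refine sup_le ?_ ?_
    · rw [Subgroup.zpowers_le]; exact hzR
    · rw [Subgroup.zpowers_le]; exact hr₁R
  obtain ⟨L₀, hKL₀, hL₀R, hnL₀, hL₀⟩ := exists_half R K₀ n hK₀R (fun y hy => by
    rcases hy.2 with h | h
    · rw [h]; exact K₀.one_mem
    · rw [h]; exact hzK₀) hnK₀
  have hzL₀ : z ∈ L₀ := hKL₀ hzK₀
  have hL₀C : ∀ i : ℤ, g ^ i ∈ L₀ → 4 * r ∣ i := by
    intro i hi
    rcases (hL₀R hi).2 with h | h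
    · rw [← zpow_add, hord] at h
      obtain ⟨q, hq⟩ := h
      exact ⟨q, by linarith⟩
    · have h' : g ^ (i + i) = g ^ (4 * r) := by rw [zpow_add]; exact h
      rw [hge] at h'
      obtain ⟨q, hq⟩ := h'
      exfalso
      apply hnL₀
      have h2 : n = g ^ i * (z ^ q)⁻¹ := by
        change g ^ (2 * r) = g ^ i * ((g ^ (4 * r)) ^ q)⁻¹
        rw [← zpow_mul, ← zpow_neg, ← zpow_add]
        congr 1
        linarith
      rw [h2]
      exact L₀.mul_mem hi (L₀.inv_mem (L₀.zpow_mem hzL₀ q))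
  -- elements commuting with n
  have hcover : ∀ y : G, y⁻¹ * n * y = n → ∃ i : ℤ, (g ^ i)⁻¹ * y ∈ L₀ := by
    intro y hy
    obtain ⟨i₀, hi₀⟩ := hadj y
    have hxR : y * g ^ i₀ ∈ R := by
      refine ⟨?_, hi₀⟩
      have : (y * g ^ i₀)⁻¹ * n * (y * g ^ i₀) = (g ^ i₀)⁻¹ * (y⁻¹ * n * y) * g ^ i₀ := by group
      rw [this, hy]
      change (g ^ i₀)⁻¹ * g ^ (2 * r) * g ^ i₀ = g ^ (2 * r)
      rw [← zpow_neg, ← zpow_add, ← zpow_add]; congr 1; ring
    have h1 : (y * g ^ i₀) * (g ^ i₀)⁻¹ * (y * g ^ i₀)⁻¹ ∈ Subgroup.zpowers g :=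
      nC.conj_mem _ (Subgroup.inv_mem _ (hzm _)) _
    obtain ⟨j, hj⟩ := Subgroup.mem_zpowers_iff.1 h1
    have h2 : (g ^ j)⁻¹ * y = y * g ^ i₀ := by rw [hj]; group
    rcases hL₀ _ hxR with h | h
    · exact ⟨j, by rw [h2]; exact h⟩
    · refine ⟨j + 2 * r, ?_⟩
      have : (g ^ (j + 2 * r))⁻¹ * y = n⁻¹ * ((g ^ j)⁻¹ * y) := by
        change (g ^ (j + 2 * r))⁻¹ * y = (g ^ (2 * r))⁻¹ * ((g ^ j)⁻¹ * y)
        rw [zpow_add]; group
      rw [this, h2]; exact h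
  -- the exceptional label when `r₁` is proper
  have hspecial : r₁ ∉ Subgroup.zpowers n → ∀ L : Subgroup G, L₀ ≤ L → ∃ v₁ : G,
      v₁ ∉ Subgroup.zpowers g ∧ v₁ * v₁ ≠ 1 ∧ g ^ r * v₁ * g ^ r ∈ L := by
    intro hr₁n L hL
    refine ⟨(g ^ r)⁻¹ * r₁ * (g ^ r)⁻¹, ?_, ?_, ?_⟩
    · intro h
      have h1 : r₁ ∈ Subgroup.zpowers g := by
        have : r₁ = g ^ r * ((g ^ r)⁻¹ * r₁ * (g ^ r)⁻¹) * g ^ r := by group
        rw [this]
        exact Subgroup.mul_mem _ (Subgroup.mul_mem _ (hzm _) h) (hzm _)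
      obtain ⟨i, hi⟩ := Subgroup.mem_zpowers_iff.1 h1
      have h2 := hL₀C i (by rw [hi]; exact hKL₀ hr₁K₀)
      obtain ⟨q, hq⟩ := h2
      apply hr₁n
      rw [← hi, hq, zpow_mul]
      exact Subgroup.zpow_mem _ hznn _
    · intro h
      have h1 : r₁ * (g ^ r * g ^ r)⁻¹ = (g ^ r * g ^ r)⁻¹ * r₁ := by
        have h2 : g ^ r * g ^ r = n := by
          change g ^ r * g ^ r = g ^ (2 * r)
          rw [← zpow_add]; congr 1; ring
        rw [h2]
        have h3 := hr₁R.1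
        have h4 : n * r₁ = r₁ * n := by
          calc n * r₁ = r₁ * (r₁⁻¹ * n * r₁) := by group
            _ = r₁ * n := by rw [h3]
        calc r₁ * n⁻¹ = n⁻¹ * (n * r₁) * n⁻¹ := by group
          _ = n⁻¹ * (r₁ * n) * n⁻¹ := by rw [h4]
          _ = n⁻¹ * r₁ := by group
      have h5 : (g ^ r)⁻¹ * r₁ * (g ^ r)⁻¹ * ((g ^ r)⁻¹ * r₁ * (g ^ r)⁻¹) = z := by
        calc (g ^ r)⁻¹ * r₁ * (g ^ r)⁻¹ * ((g ^ r)⁻¹ * r₁ * (g ^ r)⁻¹)
            = (g ^ r)⁻¹ * (r₁ * (g ^ r * g ^ r)⁻¹) * r₁ * (g ^ r)⁻¹ := by group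
          _ = (g ^ r)⁻¹ * ((g ^ r * g ^ r)⁻¹ * r₁) * r₁ * (g ^ r)⁻¹ := by rw [h1]
          _ = (g ^ r)⁻¹ * (g ^ r * g ^ r)⁻¹ * (r₁ * r₁) * (g ^ r)⁻¹ := by group
          _ = g ^ (-(4 * r)) := by
            rw [hr₁2, mul_one, ← zpow_neg, ← zpow_add, ← zpow_neg, ← zpow_add, ← zpow_add]
            congr 1; ring
          _ = z := by
            change g ^ (-(4 * r)) = g ^ (4 * r)
            rw [hge]; exact ⟨-1, by ring⟩
      rw [h5] at h
      exact hz1 h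
    · have : g ^ r * ((g ^ r)⁻¹ * r₁ * (g ^ r)⁻¹) * g ^ r = r₁ := by group
      rw [this]; exact hL (hKL₀ hr₁K₀)
  have hinvC : ∀ v, v ∉ Subgroup.zpowers g → v⁻¹ ∉ Subgroup.zpowers g := fun v hv h =>
    hv (by simpa using Subgroup.inv_mem _ h)
  by_cases hall : ∀ y : G, y⁻¹ * n * y = n
  · -- everything commutes with n
    have hr₁n : r₁ ∉ Subgroup.zpowers n := by
      rcases hr₁ with h | ⟨-, h⟩
      · exact h
      · exfalso
        apply hnc
        have hng : Subgroup.zpowers n ≤ Subgroup.zpowers g := by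
          rw [Subgroup.zpowers_le]; exact hzm _
        refine ⟨g, fun y => ?_⟩
        obtain ⟨i, hi⟩ := hcover y (hall y)
        have h2 : (g ^ i)⁻¹ * y ∈ Subgroup.zpowers g := hng (h _ (hL₀R hi))
        have : y = g ^ i * ((g ^ i)⁻¹ * y) := by group
        rw [this]
        exact Subgroup.mul_mem _ (hzm _) h2
    obtain ⟨v₁, hv1, hv2, hv3⟩ := hspecial hr₁n L₀ le_rfl
    exact cyc_block hr1 hord L₀ hzL₀ hL₀C (fun y => hcover y (hall y)) v₁ v₁⁻¹ hv1
      (hinvC _ hv1) (Or.inl ⟨rfl, hv2, hv3⟩)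
  · push Not at hall
    obtain ⟨y₀, hy₀⟩ := hall
    obtain ⟨i₀, hi₀⟩ := hadj y₀
    obtain ⟨w, hw⟩ : ∃ w, w = y₀ * g ^ i₀ := ⟨_, rfl⟩
    rw [← hw] at hi₀
    have hwn : w⁻¹ * n * w ≠ n := by
      intro h
      apply hy₀
      have h1 : (y₀ * g ^ i₀)⁻¹ * n * (y₀ * g ^ i₀) = n := by rw [← hw]; exact h
      have h2 : y₀⁻¹ * n * y₀ = g ^ i₀ * ((y₀ * g ^ i₀)⁻¹ * n * (y₀ * g ^ i₀)) * (g ^ i₀)⁻¹ := by
        group
      rw [h2, h1]
      change g ^ i₀ * g ^ (2 * r) * (g ^ i₀)⁻¹ = g ^ (2 * r)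
      rw [← zpow_neg, ← zpow_add, ← zpow_add]; congr 1; ring
    have hwn' : w⁻¹ * n * w = n⁻¹ := (hinvn w).resolve_left hwn
    have hwn2 : w * n * w⁻¹ = n⁻¹ := by
      have : n = w * (w⁻¹ * n * w) * w⁻¹ := by group
      rw [hwn'] at this
      calc w * n * w⁻¹ = (w * n⁻¹ * w⁻¹)⁻¹ := by group
        _ = n⁻¹ := by rw [← this]
    have hww : w * w ∈ L₀ := by
      rcases hi₀ with h | h
      · rw [h]; exact L₀.one_mem
      · rw [h]; exact hzL₀
    have hnorm : ∀ u x, x ∈ L₀ → u * x * u⁻¹ ∈ L₀ := by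
      intro u x hx
      obtain ⟨φ, hφ, hφ2⟩ := hcomR x (hL₀R hx).1 (hL₀R hx).2 u
      rw [hφ2]
      rcases hφ with rfl | rfl
      · rw [mul_one]; exact hx
      · exact L₀.mul_mem hx hzL₀
    let L : Subgroup G :=
      { carrier := {x | x ∈ L₀ ∨ w⁻¹ * x ∈ L₀}
        mul_mem' := by
          rintro a b (ha | ha) (hb | hb)
          · exact Or.inl (L₀.mul_mem ha hb)
          · right
            have : w⁻¹ * (a * b) = (w⁻¹ * a * w⁻¹⁻¹) * (w⁻¹ * b) := by group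
            rw [this]
            exact L₀.mul_mem (hnorm _ _ ha) hb
          · right
            rw [← mul_assoc]
            exact L₀.mul_mem ha hb
          · left
            have : a * b = (w * (w⁻¹ * a) * w⁻¹) * (w * w) * (w⁻¹ * b) := by group
            rw [this]
            exact L₀.mul_mem (L₀.mul_mem (hnorm _ _ ha) hww) hb
        one_mem' := Or.inl L₀.one_mem
        inv_mem' := by
          rintro a (ha | ha)
          · exact Or.inl (L₀.inv_mem ha)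
          · right
            have : w⁻¹ * a⁻¹ = (w⁻¹ * (w⁻¹ * a)⁻¹ * w⁻¹⁻¹) * (w * w)⁻¹ := by group
            rw [this]
            exact L₀.mul_mem (hnorm _ _ (L₀.inv_mem ha)) (L₀.inv_mem hww) }
    have hLmem : ∀ x, x ∈ L ↔ x ∈ L₀ ∨ w⁻¹ * x ∈ L₀ := fun x => Iff.rfl
    have hL₀L : L₀ ≤ L := fun x hx => Or.inl hx
    have hwL : w ∈ L := Or.inr (by rw [inv_mul_cancel]; exact L₀.one_mem)
    have hwC : w ∉ Subgroup.zpowers g := by
      intro h
      obtain ⟨i, hi⟩ := Subgroup.mem_zpowers_iff.1 h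
      apply hwn
      rw [← hi]
      change (g ^ i)⁻¹ * g ^ (2 * r) * g ^ i = g ^ (2 * r)
      rw [← zpow_neg, ← zpow_add, ← zpow_add]; congr 1; ring
    have hgn : ∀ i : ℤ, (g ^ i)⁻¹ * n * g ^ i = n := by
      intro i
      change (g ^ i)⁻¹ * g ^ (2 * r) * g ^ i = g ^ (2 * r)
      rw [← zpow_neg, ← zpow_add, ← zpow_add]; congr 1; ring
    have hLC : ∀ i : ℤ, g ^ i ∈ L → 4 * r ∣ i := by
      intro i hi
      rcases hi with h | h
      · exact hL₀C i h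
      · exfalso
        apply hwn
        have h1 := (hL₀R h).1
        have h3 : w⁻¹ * n * w = (w⁻¹ * g ^ i) * ((g ^ i)⁻¹ * n * g ^ i) * (w⁻¹ * g ^ i)⁻¹ := by
          group
        rw [h3, hgn]
        calc w⁻¹ * g ^ i * n * (w⁻¹ * g ^ i)⁻¹
            = (w⁻¹ * g ^ i) * ((w⁻¹ * g ^ i)⁻¹ * n * (w⁻¹ * g ^ i)) * (w⁻¹ * g ^ i)⁻¹ := by rw [h1]
          _ = n := by group
    have hLs : ∀ y : G, ∃ i : ℤ, (g ^ i)⁻¹ * y ∈ L := by
      intro y
      rcases hinvn y with h | h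
      · obtain ⟨i, hi⟩ := hcover y h
        exact ⟨i, hL₀L hi⟩
      · have h1 : (w⁻¹ * y)⁻¹ * n * (w⁻¹ * y) = n := by
          have : (w⁻¹ * y)⁻¹ * n * (w⁻¹ * y) = y⁻¹ * (w * n * w⁻¹) * y := by group
          rw [this, hwn2]
          calc y⁻¹ * n⁻¹ * y = (y⁻¹ * n * y)⁻¹ := by group
            _ = n := by rw [h, inv_inv]
        obtain ⟨i, hi⟩ := hcover _ h1
        have h2 : w * g ^ i * w⁻¹ ∈ Subgroup.zpowers g := nC.conj_mem _ (hzm i) w
        obtain ⟨j, hj⟩ := Subgroup.mem_zpowers_iff.1 h2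
        refine ⟨j, ?_⟩
        have h3 : (g ^ j)⁻¹ * y = w * ((g ^ i)⁻¹ * (w⁻¹ * y)) := by rw [hj]; group
        rw [h3]
        exact L.mul_mem hwL (hL₀L hi)
    rcases hr₁ with hr₁n | ⟨-, -⟩
    · obtain ⟨v₁, hv1, hv2, hv3⟩ := hspecial hr₁n L hL₀L
      exact cyc_block hr1 hord L (hL₀L hzL₀) hLC hLs v₁ v₁⁻¹ hv1
        (hinvC _ hv1) (Or.inl ⟨rfl, hv2, hv3⟩)
    · rcases hi₀ with hw2 | hw2
      · -- loops
        refine cyc_block hr1 hord L (hL₀L hzL₀) hLC hLs (g ^ r * w * (g ^ r)⁻¹)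
          ((g ^ r)⁻¹ * w * g ^ r) ?_ ?_ (Or.inr ⟨?_, ?_, ?_, ?_, ?_⟩)
        · intro h
          apply hwC
          have : w = (g ^ r)⁻¹ * (g ^ r * w * (g ^ r)⁻¹) * g ^ r := by group
          rw [this]
          exact Subgroup.mul_mem _ (Subgroup.mul_mem _ (Subgroup.inv_mem _ (hzm _)) h) (hzm _)
        · intro h
          apply hwC
          have : w = g ^ r * ((g ^ r)⁻¹ * w * g ^ r) * (g ^ r)⁻¹ := by group
          rw [this]
          exact Subgroup.mul_mem _ (Subgroup.mul_mem _ (hzm _) h) (Subgroup.inv_mem _ (hzm _))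
        · have : g ^ r * w * (g ^ r)⁻¹ * (g ^ r * w * (g ^ r)⁻¹) = g ^ r * (w * w) * (g ^ r)⁻¹ := by
            group
          rw [this, hw2]; group
        · have : (g ^ r)⁻¹ * w * g ^ r * ((g ^ r)⁻¹ * w * g ^ r) = (g ^ r)⁻¹ * (w * w) * g ^ r := by
            group
          rw [this, hw2]; group
        · intro h
          apply hwn
          have h2 : g ^ r * g ^ r = n := by
            change g ^ r * g ^ r = g ^ (2 * r)
            rw [← zpow_add]; congr 1; ring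
          have h3 : n * w = w * n := by
            calc n * w = g ^ r * (g ^ r * w * (g ^ r)⁻¹) * g ^ r := by rw [← h2]; group
              _ = g ^ r * ((g ^ r)⁻¹ * w * g ^ r) * g ^ r := by rw [h]
              _ = w * n := by rw [← h2]; group
          calc w⁻¹ * n * w = w⁻¹ * (n * w) := by group
            _ = n := by rw [h3]; group
        · have : (g ^ r)⁻¹ * (g ^ r * w * (g ^ r)⁻¹) * g ^ r = w := by group
          rw [this]; exact hwL
        · have : g ^ r * ((g ^ r)⁻¹ * w * g ^ r) * (g ^ r)⁻¹ = w := by group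
          rw [this]; exact hwL
      · -- swap
        have hv1 : (g ^ r)⁻¹ * w * (g ^ r)⁻¹ ∉ Subgroup.zpowers g := by
          intro h
          apply hwC
          have : w = g ^ r * ((g ^ r)⁻¹ * w * (g ^ r)⁻¹) * g ^ r := by group
          rw [this]
          exact Subgroup.mul_mem _ (Subgroup.mul_mem _ (hzm _) h) (hzm _)
        refine cyc_block hr1 hord L (hL₀L hzL₀) hLC hLs _ _ hv1
          (hinvC _ hv1) (Or.inl ⟨rfl, ?_, ?_⟩)
        · intro h
          have h2 : g ^ r * g ^ r = n := by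
            change g ^ r * g ^ r = g ^ (2 * r)
            rw [← zpow_add]; congr 1; ring
          have h3 : w * (g ^ r * g ^ r)⁻¹ = n * w := by
            rw [h2]
            calc w * n⁻¹ = (w * n * w⁻¹)⁻¹ * w := by group
              _ = n * w := by rw [hwn2, inv_inv]
          have h5 : (g ^ r)⁻¹ * w * (g ^ r)⁻¹ * ((g ^ r)⁻¹ * w * (g ^ r)⁻¹) = z := by
            calc (g ^ r)⁻¹ * w * (g ^ r)⁻¹ * ((g ^ r)⁻¹ * w * (g ^ r)⁻¹)
                = (g ^ r)⁻¹ * (w * (g ^ r * g ^ r)⁻¹) * w * (g ^ r)⁻¹ := by group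
              _ = (g ^ r)⁻¹ * (n * w) * w * (g ^ r)⁻¹ := by rw [h3]
              _ = (g ^ r)⁻¹ * n * (w * w) * (g ^ r)⁻¹ := by group
              _ = (g ^ r)⁻¹ * n * (z * (g ^ r)⁻¹) := by rw [hw2]; group
              _ = (g ^ r)⁻¹ * n * ((g ^ r)⁻¹ * z) := by rw [hzc]
              _ = z := by rw [← h2]; group
          rw [h5] at h
          exact hz1 h
        · have : g ^ r * ((g ^ r)⁻¹ * w * (g ^ r)⁻¹) * g ^ r = w := by group
          rw [this]; exact hwL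

theorem cyclic_case [Finite G] (hG : IsPGroup 2 G) (hnG : ¬ IsCyclic G)
    (hc : IsCyclic (Phi G)) : ∃ D : Set G, Cov D ∧ ∀ n ∈ Phi G, n * n ≠ 1 → n ∈ D := by
  by_cases h4 : ∃ n ∈ Phi G, n * n ≠ 1
  · obtain ⟨g, s, hord, hPhi⟩ := exists_gen hG hc h4
    obtain ⟨D, h1, h2⟩ := cyc_group hord hPhi hnG
    refine ⟨D, h1, ?_⟩
    rw [hPhi]; exact h2
  · push Not at h4
    exact ⟨∅, Cov.empty, fun n hn hnn => absurd (h4 n hn) hnn⟩

end Pool.Agent.V8H30.ST
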