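import Pool.Agent.V8H30.ST.Def

namespace Pool.Agent.V8H30.ST

open Classical

variable {G : Type*} [Group G]

/-- A labelled block: `lab` assigns to each left coset of `L` a nontrivial group element. -/
def Block (L : Subgroup G) (D : Set G) : Prop :=
  ∃ lab : G ⧸ L → G, Function.Injective lab ∧ (∀ v, lab v ≠ 1) ∧
    (∀ v, lab (lab v • v) = (lab v)⁻¹) ∧ Set.range lab = D

/-- Finite disjoint unions of blocks. -/
inductive Cov : Set G → Prop
  | empty : Cov ∅
  | add (L : Subgroup G) (D D' : Set G) : Block L D → Cov D' → Disjoint D D' → Cov (D ∪ D')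

theorem Cov.union {D D' : Set G} (h : Cov D) (h' : Cov D') (hd : Disjoint D D') :
    Cov (D ∪ D') := by
  induction h with
  | empty => simpa using h'
  | add L A B hA hB hAB ih =>
    rw [Set.union_assoc]
    have h1 : Disjoint B D' := hd.mono_left Set.subset_union_right
    have h2 : Disjoint A D' := hd.mono_left Set.subset_union_left
    exact Cov.add L A _ hA (ih h1) (Set.disjoint_union_right.2 ⟨hAB, h2⟩)

theorem Cov.of_block {L : Subgroup G} {D : Set G} (h : Block L D) : Cov D := by
  have := Cov.add L D ∅ h Cov.empty (Set.disjoint_empty D)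
  simpa using this

theorem Block.inv_mem {L : Subgroup G} {D : Set G} (h : Block L D) {g : G} (hg : g ∈ D) :
    g⁻¹ ∈ D := by
  obtain ⟨lab, -, -, h3, rfl⟩ := h
  obtain ⟨v, rfl⟩ := hg
  exact ⟨lab v • v, h3 v⟩

theorem Cov.inv_mem {D : Set G} (h : Cov D) : ∀ {g : G}, g ∈ D → g⁻¹ ∈ D := by
  induction h with
  | empty => intro g hg; exact absurd hg (by simp)
  | add L A B hA hB hAB ih =>
    intro g hg
    rcases hg with hg | hg
    · exact Or.inl (hA.inv_mem hg)
    · exact Or.inr (ih hg)

theorem Cov.one_notMem {D : Set G} (h : Cov D) : (1 : G) ∉ D := by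
  induction h with
  | empty => simp
  | add L A B hA hB hAB ih =>
    rintro (hg | hg)
    · obtain ⟨lab, -, h2, -, rfl⟩ := hA
      obtain ⟨v, hv⟩ := hg
      exact h2 v hv
    · exact ih hg

/-- an edge is short iff its difference is an involution -/
theorem isShort_iff (e : G × G) (he : e.1 ≠ e.2) :
    IsShort e ↔ (e.1 * e.2⁻¹) * (e.1 * e.2⁻¹) = 1 := by
  obtain ⟨x, y⟩ := e
  simp only at he ⊢
  constructor
  · rintro ⟨g, hg, hf⟩
    unfold Fixes at hf
    simp only [Sym2.eq_iff] at hf
    have hg1 : g ≠ 1 := by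
      rintro rfl
      simp at hg
    rcases hf with ⟨h1, -⟩ | ⟨h1, h2⟩
    · exact absurd (mul_eq_left.1 h1) hg1
    · have : y = x * g := h1.symm
      have hgg : g * g = 1 := by
        have := pow_orderOf_eq_one g
        rwa [hg, pow_two] at this
      have hginv : g⁻¹ = g := inv_eq_of_mul_eq_one_right hgg
      rw [this, mul_inv_rev, hginv]
      have : x * (g * x⁻¹) * (x * (g * x⁻¹)) = x * (g * g) * x⁻¹ := by group
      rw [this, hgg]; group
  · intro h
    refine ⟨x⁻¹ * y, ?_, ?_⟩
    · rw [orderOf_eq_prime_iff]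
      constructor
      · have h2 : x * y⁻¹ = y * x⁻¹ := by
          have := eq_inv_of_mul_eq_one_left h
          rw [this]; group
        have : (x⁻¹ * y) ^ 2 = x⁻¹ * (y * x⁻¹) * y := by rw [pow_two]; group
        rw [this, ← h2]; group
      · intro h1
        apply he
        have := inv_mul_eq_one.1 h1
        exact this
    · unfold Fixes
      simp only [Sym2.eq_iff]
      right
      constructor
      · group
      · have h2 : x * y⁻¹ = y * x⁻¹ := by
          have := eq_inv_of_mul_eq_one_left h
          rw [this]; group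
        calc y * (x⁻¹ * y) = (y * x⁻¹) * y := by group
          _ = (x * y⁻¹) * y := by rw [h2]
          _ = x := by group

/-- the involution fixing a short edge -/
theorem eq_of_fixes (e : G × G) (g : G) (hg : orderOf g = 2) (hf : Fixes g e) :
    g = e.1⁻¹ * e.2 := by
  obtain ⟨x, y⟩ := e
  unfold Fixes at hf
  simp only [Sym2.eq_iff] at hf ⊢
  have hg1 : g ≠ 1 := by
    rintro rfl
    simp at hg
  rcases hf with ⟨h1, -⟩ | ⟨h1, h2⟩
  · exact absurd (mul_eq_left.1 h1) hg1
  · rw [← h1]; group

theorem exists_section {α : Type*} [Fintype α] (σ : α → α) (hσ : ∀ v, σ (σ v) = v) :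
    ∃ R : Finset α, ∀ v, (σ v = v → v ∈ R) ∧ (σ v ≠ v → (v ∈ R ↔ σ v ∉ R)) := by
  obtain ⟨n, ⟨e⟩⟩ := Finite.exists_equiv_fin α
  let f : α → ℕ := fun v => (e v : ℕ)
  have hf : Function.Injective f := fun a b h => e.injective (Fin.ext h)
  refine ⟨Finset.univ.filter (fun v => f v ≤ f (σ v)), fun v => ⟨fun h => ?_, fun h => ?_⟩⟩
  · simp [h]
  · simp only [Finset.mem_filter, Finset.mem_univ, true_and, hσ, not_le]
    constructor
    · intro h1
      rcases lt_or_eq_of_le h1 with h2 | h2
      · exact h2
      · exact absurd (hf h2).symm h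
    · exact fun h1 => h1.le

theorem sum_section {α β : Type*} [Fintype α] [AddCommMonoid β] (σ : α → α)
    [∀ v, Decidable (σ v = v)] (hσ : ∀ v, σ (σ v) = v) (R : Finset α)
    (hR : ∀ v, (σ v = v → v ∈ R) ∧ (σ v ≠ v → (v ∈ R ↔ σ v ∉ R))) (F : α → β) :
    ∑ v ∈ R, (F v + if σ v = v then 0 else F (σ v)) = ∑ v, F v := by
  rw [Finset.sum_add_distrib]
  have h1 : ∑ v ∈ R, (if σ v = v then 0 else F (σ v)) =
      ∑ v ∈ R.filter (fun v => ¬ σ v = v), F (σ v) := by
    rw [Finset.sum_filter]
    refine Finset.sum_congr rfl ?_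
    intro v _
    by_cases h : σ v = v <;> simp [h]
  have h2 : ∑ v ∈ R.filter (fun v => ¬ σ v = v), F (σ v) = ∑ v ∈ Rᶜ, F v := by
    apply Finset.sum_nbij' (i := σ) (j := σ)
    · intro v hv
      simp only [Finset.mem_filter, Finset.mem_compl] at hv ⊢
      exact ((hR v).2 hv.2).1 hv.1
    · intro v hv
      simp only [Finset.mem_filter, Finset.mem_compl] at hv ⊢
      have hne : σ v ≠ v := fun h => hv ((hR v).1 h)
      refine ⟨?_, ?_⟩
      · by_contra h
        exact hv (((hR v).2 hne).2 h)
      · rw [hσ]; exact hne.symm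
    · intro v _; exact hσ v
    · intro v _; exact hσ v
    · intro v _; rfl
  rw [h1, h2, Finset.sum_add_sum_compl]

/-- From a block one gets one member of a starter. -/
theorem Block.toSet [Finite G] {L : Subgroup G} {D : Set G} (h : Block L D) :
    ∃ S : Finset (G × G), (∀ e ∈ S, e.1 ≠ e.2) ∧
      (∀ g, Multiset.count g (∑ e ∈ S, diff e) = if g ∈ D then 1 else 0) ∧
      IsLeftTransversal L (∑ e ∈ S, ends e) ∧
      ∀ e ∈ S, ∀ g : G, orderOf g = 2 → Fixes g e → g ∈ L := by
  obtain ⟨lab, hinj, hne, hlab, rfl⟩ := h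
  have : Fintype (G ⧸ L) := Fintype.ofFinite _
  let σ : G ⧸ L → G ⧸ L := fun v => lab v • v
  have hσ : ∀ v, σ (σ v) = v := by
    intro v
    change lab (lab v • v) • (lab v • v) = v
    rw [hlab, smul_smul]; simp
  obtain ⟨R, hR⟩ := exists_section σ hσ
  let ed : G ⧸ L → G × G := fun v => (lab v * v.out, v.out)
  have hed : Function.Injective ed := by
    intro v w hvw
    have h2 : v.out = w.out := congrArg Prod.snd hvw
    have := congrArg (QuotientGroup.mk : G → G ⧸ L) h2
    simpa using this
  have hmk : ∀ v : G ⧸ L, (QuotientGroup.mk v.out : G ⧸ L) = v := fun v => by simp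
  have hmk2 : ∀ v : G ⧸ L, (QuotientGroup.mk (lab v * v.out) : G ⧸ L) = σ v := by
    intro v
    calc (QuotientGroup.mk (lab v * v.out) : G ⧸ L) = lab v • (QuotientGroup.mk v.out : G ⧸ L) := rfl
      _ = lab v • v := by rw [hmk]
  have hsq : ∀ v, lab v * lab v = 1 ↔ σ v = v := by
    intro v
    constructor
    · intro h
      apply hinj
      change lab (lab v • v) = lab v
      rw [hlab]
      exact inv_eq_of_mul_eq_one_left h
    · intro h
      have h1 : lab (σ v) = (lab v)⁻¹ := hlab v
      rw [h] at h1
      exact eq_inv_iff_mul_eq_one.1 h1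
  have hedne : ∀ v, (ed v).1 ≠ (ed v).2 := by
    intro v h
    exact hne v (mul_eq_right.1 h)
  have hsh : ∀ v, IsShort (ed v) ↔ σ v = v := by
    intro v
    rw [isShort_iff _ (hedne v), ← hsq v]
    simp [ed]
  refine ⟨R.image ed, ?_, ?_, ?_, ?_⟩
  · intro e he
    obtain ⟨v, -, rfl⟩ := Finset.mem_image.1 he
    exact hedne v
  · intro g
    rw [Finset.sum_image (fun a _ b _ h => hed h)]
    have h1 : ∀ v ∈ R, diff (ed v) = ({lab v} : Multiset G) + if σ v = v then 0 else {lab (σ v)} := by
      intro v _
      unfold diff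
      by_cases h : σ v = v
      · rw [if_pos ((hsh v).2 h), if_pos h]
        simp [ed]
      · rw [if_neg (fun hh => h ((hsh v).1 hh)), if_neg h]
        have h2 : lab (σ v) = (lab v)⁻¹ := hlab v
        rw [h2]
        simp only [ed]
        have h3 : lab v * v.out * (v.out)⁻¹ = lab v := by group
        have h4 : v.out * (lab v * v.out)⁻¹ = (lab v)⁻¹ := by group
        rw [h3, h4]; rfl
    rw [Finset.sum_congr rfl h1, sum_section σ hσ R hR (fun v => ({lab v} : Multiset G)),
      Multiset.count_sum']
    by_cases hg : g ∈ Set.range lab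
    · rw [if_pos hg]
      obtain ⟨v, rfl⟩ := hg
      rw [Finset.sum_eq_single v]
      · simp
      · intro w _ hw
        rw [Multiset.count_singleton, if_neg (fun h => hw (hinj h).symm)]
      · simp
    · rw [if_neg hg]
      apply Finset.sum_eq_zero
      intro w _
      rw [Multiset.count_singleton, if_neg (fun h => hg ⟨w, h.symm⟩)]
  · intro g
    rw [Finset.sum_image (fun a _ b _ h => hed h)]
    have key : (∑ v ∈ R, ends (ed v)).map (QuotientGroup.mk : G → G ⧸ L) = ∑ v : G ⧸ L, {v} := by
      rw [← Multiset.coe_mapAddMonoidHom, map_sum]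
      simp only [Multiset.coe_mapAddMonoidHom]
      have h1 : ∀ v ∈ R, (ends (ed v)).map (QuotientGroup.mk : G → G ⧸ L) =
          ({σ v} : Multiset (G ⧸ L)) + if σ v = v then 0 else {σ (σ v)} := by
        intro v _
        unfold ends
        by_cases h : σ v = v
        · rw [if_pos ((hsh v).2 h), if_pos h]
          simp [ed, hmk2]
        · rw [if_neg (fun hh => h ((hsh v).1 hh)), if_neg h, hσ]
          simp [ed, hmk2, hmk]
      rw [Finset.sum_congr rfl h1, sum_section σ hσ R hR (fun v => ({σ v} : Multiset (G ⧸ L)))]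
      have hb : Function.Bijective σ := ⟨fun a b h => by rw [← hσ a, h, hσ], fun a => ⟨σ a, hσ a⟩⟩
      exact (Equiv.ofBijective σ hb).sum_comp (fun v => ({v} : Multiset (G ⧸ L)))
    have h2 : Multiset.card (Multiset.filter (fun t => g⁻¹ * t ∈ L) (∑ v ∈ R, ends (ed v))) =
        Multiset.count (QuotientGroup.mk g : G ⧸ L)
          ((∑ v ∈ R, ends (ed v)).map (QuotientGroup.mk : G → G ⧸ L)) := by
      rw [Multiset.count_map]
      congr 1
      apply Multiset.filter_congr
      intro x _
      rw [← QuotientGroup.eq]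
    rw [h2, key, Multiset.count_sum', Finset.sum_eq_single (QuotientGroup.mk g : G ⧸ L)]
    · simp
    · intro w _ hw
      rw [Multiset.count_singleton, if_neg (fun h => hw h.symm)]
    · simp
  · intro e he g hg hf
    obtain ⟨v, -, rfl⟩ := Finset.mem_image.1 he
    have h1 := eq_of_fixes _ _ hg hf
    have h2 : σ v = v := (hsh v).1 ⟨g, hg, hf⟩
    have h3 := hmk2 v
    rw [h2] at h3
    have h4 : (QuotientGroup.mk (lab v * v.out) : G ⧸ L) = QuotientGroup.mk v.out := by
      rw [h3, hmk]
    rw [QuotientGroup.eq] at h4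
    rw [h1]
    exact h4

/-- A cover of all non-identity elements by blocks gives a starter. -/
theorem hasStarter_of_cov [Finite G] (h : Cov {g : G | g ≠ 1}) : HasStarter G := by
  have key : ∀ D : Set G, Cov D → ∃ F : List (Finset (G × G)),
      (∀ S ∈ F, ∀ e ∈ S, e.1 ≠ e.2) ∧
      (∀ g, Multiset.count g (F.map (fun S => ∑ e ∈ S, diff e)).sum = if g ∈ D then 1 else 0) ∧
      (∀ S ∈ F, ∃ H : Subgroup G, IsLeftTransversal H (∑ e ∈ S, ends e) ∧
        ∀ e ∈ S, ∀ g : G, orderOf g = 2 → Fixes g e → g ∈ H) := by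
    intro D hD
    induction hD with
    | empty => exact ⟨[], by simp, by simp, by simp⟩
    | add L A B hA hB hAB ih =>
      obtain ⟨F, h1, h2, h3⟩ := ih
      obtain ⟨S, k1, k2, k3, k4⟩ := hA.toSet
      refine ⟨S :: F, ?_, ?_, ?_⟩
      · intro T hT
        rcases List.mem_cons.1 hT with rfl | hT
        · exact k1
        · exact h1 T hT
      · intro g
        rw [List.map_cons, List.sum_cons, Multiset.count_add, k2, h2]
        by_cases ha : g ∈ A
        · have hb : g ∉ B := fun hb => Set.disjoint_left.1 hAB ha hb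
          simp [ha, hb]
        · simp [ha]
      · intro T hT
        rcases List.mem_cons.1 hT with rfl | hT
        · exact ⟨L, k3, k4⟩
        · exact h3 T hT
  obtain ⟨F, h1, h2, h3⟩ := key _ h
  refine ⟨F, h1, ?_, h3⟩
  intro g
  rw [h2]
  by_cases hg : g = 1 <;> simp [hg]

/-- an involution is a block -/
theorem block_involution (g : G) (h1 : g ≠ 1) (h2 : g * g = 1) : Block (⊤ : Subgroup G) {g} := by
  refine ⟨fun _ => g, ?_, fun _ => h1, ?_, ?_⟩
  · intro a b _
    have := QuotientGroup.subsingleton_quotient_top (G := G)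
    exact Subsingleton.elim a b
  · intro v; exact (inv_eq_of_mul_eq_one_left h2).symm
  · ext x
    simp [eq_comm]

/-- an element outside a subgroup of index two is in a block with its inverse -/
theorem block_pair (A : Subgroup G) (hA : A.index = 2) (g : G) (hg : g ∉ A) (h2 : g * g ≠ 1) :
    Block A {g, g⁻¹} := by
  have hmem : ∀ v : G ⧸ A, v = (QuotientGroup.mk (1:G) : G ⧸ A) ∨ v = (QuotientGroup.mk g : G ⧸ A) := by
    intro v
    induction v using QuotientGroup.induction_on with
    | H x =>
      by_cases hx : x ∈ A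
      · left; rw [QuotientGroup.eq]; simpa using hx
      · right; rw [QuotientGroup.eq]
        rw [Subgroup.mul_mem_iff_of_index_two hA]
        simp [hx, hg]
  have hne : (QuotientGroup.mk (1:G) : G ⧸ A) ≠ (QuotientGroup.mk g : G ⧸ A) := by
    intro h
    rw [QuotientGroup.eq] at h
    apply hg; simpa using h
  refine ⟨fun v => if v = (QuotientGroup.mk (1:G) : G ⧸ A) then g else g⁻¹, ?_, ?_, ?_, ?_⟩
  · have hgg : g ≠ g⁻¹ := fun h => h2 (by nth_rewrite 2 [h]; simp)
    intro v w hvw
    rcases hmem v with rfl | rfl <;> rcases hmem w with rfl | rfl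
    · rfl
    · simp only [if_true, if_neg hne.symm] at hvw
      exact absurd hvw hgg
    · simp only [if_true, if_neg hne.symm] at hvw
      exact absurd hvw.symm hgg
    · rfl
  · intro v
    have hg1 : g ≠ 1 := by rintro rfl; exact hg A.one_mem
    by_cases hv : v = (QuotientGroup.mk (1:G) : G ⧸ A)
    · simp [hv, hg1]
    · simp [hv, hg1]
  · intro v
    rcases hmem v with rfl | rfl
    · simp only [if_true]
      have : g • (QuotientGroup.mk (1:G) : G ⧸ A) = (QuotientGroup.mk g : G ⧸ A) := by
        change (QuotientGroup.mk (g * 1) : G ⧸ A) = _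
        rw [mul_one]
      rw [this, if_neg hne.symm]
    · simp only [if_neg hne.symm]
      have : g⁻¹ • (QuotientGroup.mk g : G ⧸ A) = (QuotientGroup.mk (1:G) : G ⧸ A) := by
        change (QuotientGroup.mk (g⁻¹ * g) : G ⧸ A) = _
        rw [inv_mul_cancel]
      rw [this, if_pos rfl, inv_inv]
  · ext x
    simp only [Set.mem_range, Set.mem_insert_iff, Set.mem_singleton_iff]
    constructor
    · rintro ⟨v, rfl⟩
      by_cases hv : v = (QuotientGroup.mk (1:G) : G ⧸ A) <;> simp [hv]
    · rintro (rfl | rfl)
      · exact ⟨QuotientGroup.mk 1, by simp⟩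
      · exact ⟨QuotientGroup.mk g, by rw [if_neg hne.symm]⟩

/-- Reduction: it is enough to cover the elements of square different from one that lie in every
subgroup of index two. -/
theorem hasStarter_of_frattini [Finite G] (D : Set G) (hD : Cov D)
    (h : ∀ g : G, (∀ A : Subgroup G, A.index = 2 → g ∈ A) → g * g ≠ 1 → g ∈ D) :
    HasStarter G := by
  apply hasStarter_of_cov
  -- induct on the number of uncovered elements
  have key : ∀ n : ℕ, ∀ D : Set G, Cov D →
      (∀ g : G, (∀ A : Subgroup G, A.index = 2 → g ∈ A) → g * g ≠ 1 → g ∈ D) →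
      (Dᶜ : Set G).ncard ≤ n → Cov {g : G | g ≠ 1} := by
    intro n
    induction n with
    | zero =>
      intro D hD _ hn
      exfalso
      have : (Dᶜ : Set G) = ∅ := (Set.ncard_eq_zero (Set.toFinite _)).1 (Nat.le_zero.1 hn)
      have h1 : (1 : G) ∈ Dᶜ := hD.one_notMem
      rw [this] at h1
      exact h1
    | succ n ih =>
      intro D hD hf hn
      by_cases hall : D = {g : G | g ≠ 1}
      · rw [← hall]; exact hD
      · obtain ⟨x, hx1, hxD⟩ : ∃ x : G, x ≠ 1 ∧ x ∉ D := by
          by_contra hcon
          push Not at hcon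
          apply hall
          ext y
          constructor
          · intro hy h1
            rw [h1] at hy
            exact hD.one_notMem hy
          · exact hcon y
        have hxi : x⁻¹ ∉ D := fun h => hxD (by simpa using hD.inv_mem h)
        by_cases hsq : x * x = 1
        · have hd : Disjoint D {x} := Set.disjoint_singleton_right.2 hxD
          refine ih (D ∪ {x}) (hD.union (Cov.of_block (block_involution x hx1 hsq)) hd)
            (fun g h1 h2 => Or.inl (hf g h1 h2)) ?_
          have hlt : ((D ∪ {x})ᶜ : Set G).ncard < (Dᶜ : Set G).ncard := by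
            apply Set.ncard_lt_ncard _ (Set.toFinite _)
            refine ⟨Set.compl_subset_compl.2 Set.subset_union_left, fun hh => ?_⟩
            exact (hh hxD) (Or.inr rfl)
          omega
        · obtain ⟨A, hA, hxA⟩ : ∃ A : Subgroup G, A.index = 2 ∧ x ∉ A := by
            by_contra hcon
            push Not at hcon
            exact hxD (hf x hcon hsq)
          have hd : Disjoint D {x, x⁻¹} := by
            rw [Set.disjoint_right]
            rintro y (rfl | hy)
            · exact hxD
            · rw [Set.mem_singleton_iff.1 hy]; exact hxi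
          refine ih (D ∪ {x, x⁻¹}) (hD.union (Cov.of_block (block_pair A hA x hxA hsq)) hd)
            (fun g h1 h2 => Or.inl (hf g h1 h2)) ?_
          have hlt : ((D ∪ {x, x⁻¹})ᶜ : Set G).ncard < (Dᶜ : Set G).ncard := by
            apply Set.ncard_lt_ncard _ (Set.toFinite _)
            refine ⟨Set.compl_subset_compl.2 Set.subset_union_left, fun hh => ?_⟩
            exact (hh hxD) (Or.inr (Or.inl rfl))
          omega
  exact key _ D hD h le_rfl

/-- A block described through an arbitrary parametrisation of the left cosets. -/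
theorem Block.mk' {ι : Type*} {L : Subgroup G} (V : ι → G ⧸ L) (hV : Function.Bijective V)
    (lab : ι → G) (hinj : Function.Injective lab) (hne : ∀ i, lab i ≠ 1) (σ : ι → ι)
    (h1 : ∀ i, lab i • V i = V (σ i)) (h2 : ∀ i, lab (σ i) = (lab i)⁻¹) :
    Block L (Set.range lab) := by
  let e : ι ≃ G ⧸ L := Equiv.ofBijective V hV
  have he : ∀ i, e i = V i := fun i => rfl
  have he' : ∀ v, V (e.symm v) = v := fun v => by rw [← he]; exact e.apply_symm_apply v
  refine ⟨fun v => lab (e.symm v), fun v w h => e.symm.injective (hinj h), fun v => hne _, ?_, ?_⟩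
  · intro v
    change lab (e.symm (lab (e.symm v) • v)) = (lab (e.symm v))⁻¹
    rw [← h2]
    congr 1
    rw [Equiv.symm_apply_eq, he, ← h1, he']
  · ext x
    constructor
    · rintro ⟨v, rfl⟩
      exact ⟨_, rfl⟩
    · rintro ⟨i, rfl⟩
      exact ⟨e i, by simp⟩

end Pool.Agent.V8H30.ST
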