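import Pool.Agent.V8H30.ST.Step2

namespace Pool.Agent.V8H30.ST

open Classical

variable {G : Type*} [Group G]

theorem card_step [Finite G] {K K' : Subgroup G} {z : G} (hzK : z ∉ K)
    (mem : ∀ g, g ∈ K' ↔ g ∈ K ∨ z⁻¹ * g ∈ K) : Nat.card K' = 2 * Nat.card K := by
  have e : (K' : Set G) = (K : Set G) ∪ (fun g => z * g) '' (K : Set G) := by
    ext g
    simp only [SetLike.mem_coe, Set.mem_union, Set.mem_image]
    rw [mem]
    constructor
    · rintro (h | h)
      · exact Or.inl h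
      · exact Or.inr ⟨_, h, by group⟩
    · rintro (h | ⟨k, hk, rfl⟩)
      · exact Or.inl h
      · right; simpa using hk
  have hd : Disjoint (K : Set G) ((fun g => z * g) '' (K : Set G)) := by
    rw [Set.disjoint_left]
    rintro g hg ⟨k, hk, rfl⟩
    apply hzK
    have : z = z * k * k⁻¹ := by group
    rw [this]; exact K.mul_mem hg (K.inv_mem hk)
  have h1 := Set.ncard_union_eq hd (Set.toFinite _) (Set.toFinite _)
  rw [← e, Set.ncard_image_of_injective _ (mul_right_injective z)] at h1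
  have h2 : (K : Set G).ncard = Nat.card K := rfl
  have h3 : (K' : Set G).ncard = Nat.card K' := rfl
  rw [h2, h3] at h1
  omega

theorem ncard_coset [Finite G] (K : Subgroup G) (t : G) :
    {g : G | t⁻¹ * g ∈ K}.ncard = Nat.card K := by
  have e : {g : G | t⁻¹ * g ∈ K} = (fun g => t * g) '' (K : Set G) := by
    ext g
    simp only [Set.mem_image, SetLike.mem_coe]
    constructor
    · intro h; exact ⟨_, h, by group⟩
    · rintro ⟨k, hk, rfl⟩
      change t⁻¹ * (t * k) ∈ K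
      simpa using hk
  rw [e, Set.ncard_image_of_injective _ (mul_right_injective t)]
  rfl

theorem ncard_split [Finite G] (K : Subgroup G) (t : G) (D : Set G) :
    {g : G | t⁻¹ * g ∈ K ∧ g ∈ D}.ncard + {g : G | t⁻¹ * g ∈ K ∧ g ∉ D}.ncard = Nat.card K := by
  rw [← ncard_coset K t, ← Set.ncard_union_eq _ (Set.toFinite _) (Set.toFinite _)]
  · congr 1
    ext g
    constructor
    · rintro (h | h)
      · exact h.1
      · exact h.1
    · intro h
      by_cases hg : g ∈ D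
      · exact Or.inl ⟨h, hg⟩
      · exact Or.inr ⟨h, hg⟩
  · rw [Set.disjoint_left]
    rintro g h1 h2
    exact h2.2 h1.2

/-- The standing hypotheses of the non-cyclic case. -/
structure Hyp (A A₁ U : Subgroup G) (Tall : Set G) (E : Subgroup G) : Prop where
  hA : A.index = 2
  hA₁ : A₁.index = 2
  hne : A ≠ A₁
  hUA : U ≤ A
  hUA₁ : U ≤ A₁
  hUP : U ⊓ Phi G = ⊥
  tA : ∀ t ∈ Tall, t ∉ A
  tP : ∀ t ∈ Tall, ∀ k ∈ Phi G, t * k ∈ Tall
  tsq : ∀ t ∈ Tall, t * t ≠ 1
  tex : ∀ g, g ∉ A → ∃ t ∈ Tall, g⁻¹ * t ∈ Phi G ⊔ U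
  nE : E.Normal
  EP : E ≤ Phi G
  E4 : Nat.card E = 4
  E2 : ∀ e ∈ E, e * e = 1
  Ec : ∀ n ∈ Phi G, ∀ e ∈ E, e * n = n * e

theorem eq_of_le_index_two [Finite G] {A A₁ : Subgroup G} (hA : A.index = 2) (hA₁ : A₁.index = 2)
    (h : A₁ ≤ A) : A₁ = A := by
  by_contra hne
  have := Subgroup.index_strictAnti (lt_of_le_of_ne h hne)
  omega

theorem chain_cov [Finite G] (hG : IsPGroup 2 G) {A A₁ U : Subgroup G} {Tall : Set G}
    {E : Subgroup G} (H : Hyp A A₁ U Tall E) :
    ∃ D : Set G, Cov D ∧ ∀ n ∈ Phi G, n * n ≠ 1 → n ∈ D := by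
  have nE := H.nE
  obtain ⟨b₁, hb₁A₁, hb₁A⟩ : ∃ b ∈ A₁, b ∉ A := by
    by_contra hcon
    push Not at hcon
    exact H.hne (eq_of_le_index_two H.hA H.hA₁ hcon).symm
  obtain ⟨a, haA, haA₁⟩ : ∃ b ∈ A, b ∉ A₁ := by
    by_contra hcon
    push Not at hcon
    exact H.hne (eq_of_le_index_two H.hA₁ H.hA hcon)
  let b₂ := a * b₁
  have hb₂A : b₂ ∉ A := by
    change a * b₁ ∉ A
    rw [Subgroup.mul_mem_iff_of_index_two H.hA]
    simp [haA, hb₁A]
  have hb₂A₁ : b₂ ∉ A₁ := by
    change a * b₁ ∉ A₁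
    rw [Subgroup.mul_mem_iff_of_index_two H.hA₁]
    simp [haA₁, hb₁A₁]
  let TT : G → Set G := fun b => {t | t ∈ Tall ∧ b⁻¹ * t ∈ A ⊓ A₁}
  have hPN : Phi G ≤ A ⊓ A₁ := le_inf (Phi_le H.hA) (Phi_le H.hA₁)
  have TTA : ∀ b, ∀ t ∈ TT b, t ∉ A := fun b t ht => H.tA t ht.1
  have TTP : ∀ b, ∀ t ∈ TT b, ∀ k ∈ Phi G, t * k ∈ TT b := fun b t ht k hk =>
    ⟨H.tP t ht.1 k hk, by rw [← mul_assoc]; exact (A ⊓ A₁).mul_mem ht.2 (hPN hk)⟩
  have TTsq : ∀ b, ∀ t ∈ TT b, t * t ≠ 1 := fun b t ht => H.tsq t ht.1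
  have TTinv : ∀ b, ∀ t ∈ TT b, t⁻¹ ∈ TT b := by
    intro b t ht
    have : t⁻¹ = t * (t⁻¹ * t⁻¹) := by group
    rw [this]
    exact TTP b t ht _ (sq_mem_Phi _)
  have T12 : ∀ t ∈ TT b₁, t ∉ TT b₂ := by
    intro t h1 h2
    have h3 : b₁⁻¹ * t ∈ A₁ := h1.2.2
    have h4 : b₂⁻¹ * t ∈ A₁ := h2.2.2
    apply hb₂A₁
    have : b₂ = b₁ * (b₁⁻¹ * t) * (b₂⁻¹ * t)⁻¹ := by group
    rw [this]
    exact A₁.mul_mem (A₁.mul_mem hb₁A₁ h3) (A₁.inv_mem h4)
  -- the invariant
  let P : Subgroup G → Prop := fun K => ∃ D : Set G, Cov D ∧ (∀ n ∈ K, n * n ≠ 1 → n ∈ D) ∧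
    (∀ x ∈ D, (x ∈ K ∧ x * x ≠ 1) ∨ x ∈ TT b₁ ∨ x ∈ TT b₂) ∧ (K = E → D = ∅) ∧
    (K ≠ E → ∀ t ∈ TT b₂, {g : G | t⁻¹ * g ∈ K ∧ g ∈ D}.ncard + 8 ≤ Nat.card K)
  have key : ∀ n : ℕ, ∀ K : Subgroup G, K.index = n → K.Normal → E ≤ K → K ≤ Phi G → P K →
      P (Phi G) := by
    intro n
    induction n using Nat.strong_induction_on with
    | _ n ih =>
      intro K hKn nK hEK hKP hPK
      rcases eq_or_lt_of_le hKP with rfl | hlt
      · exact hPK
      obtain ⟨K', nK', hKK', hK'P, z, hz, hzK, hzz, hmem, hcen⟩ := exists_step hG K (Phi G) hlt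
      have hidx : K'.index < n := by
        rw [← hKn]
        exact Subgroup.index_strictAnti hKK'
      have hcardK' := card_step hzK hmem
      have hK'E : K' ≠ E := by
        rintro rfl
        exact absurd hKK' (not_lt_of_ge hEK)
      have SH : StepHyp A U K K' z := by
        refine ⟨H.hA, H.hUA, nK, nK', hK'P.trans (Phi_le H.hA), hz, hzK, hzz, hmem, hcen, ?_⟩
        intro x hx
        obtain ⟨hx1, hx2⟩ := Subgroup.mem_inf.1 hx
        rw [Subgroup.mem_sup_of_normal_left] at hx1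
        obtain ⟨k, hk, u, hu, rfl⟩ := hx1
        have h1 : u ∈ Phi G := by
          have : u = k⁻¹ * (k * u) := by group
          rw [this]
          exact (Phi G).mul_mem ((Phi G).inv_mem (hKP hk)) (hK'P hx2)
        have h2 : u ∈ U ⊓ Phi G := ⟨hu, h1⟩
        rw [H.hUP, Subgroup.mem_bot] at h2
        rw [h2, mul_one]; exact hk
      have getc : ∀ b, b ∉ A → ∃ c, GoodC A U (TT b) K c ∧
          ∀ x ∈ A, ∀ y ∈ A, x⁻¹ * y ∈ K' ⊔ U → c x = c y := by
        intro b hb
        obtain ⟨c', hc'⟩ := exists_goodC hG H.hA H.hA₁ H.hUA H.hUA₁ H.tP H.tex b hb K' nK' hK'P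
        exact hc'.lift hz hzK hmem (hK'P.trans (Phi_le H.hA)) H.hUA
          (fun t ht k hk => TTP b t ht k (hK'P hk))
      have hEc : ∀ n ∈ K', ∀ e ∈ E, e * n = n * e := fun n hn e he => H.Ec n (hK'P hn) e he
      have hK'T2 : ∀ x ∈ K', x ∉ TT b₂ := fun x hx h => TTA b₂ x h ((hK'P.trans (Phi_le H.hA)) hx)
      have hK'T1 : ∀ x ∈ K', x ∉ TT b₁ := fun x hx h => TTA b₁ x h ((hK'P.trans (Phi_le H.hA)) hx)
      refine ih _ hidx K' rfl nK' (hEK.trans hKK'.le) hK'P ?_
      obtain ⟨D, hD1, hD2, hD3, hD4, hD5⟩ := hPK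
      by_cases hKE : K = E
      · -- first step
        obtain ⟨c, hc, hcc⟩ := getc b₁ hb₁A
        have hK4 : Nat.card K = 4 := by rw [hKE]; exact H.E4
        obtain ⟨D', k1, k2, k3, -⟩ := step_cov SH hc hcc (TTA b₁) (TTsq b₁) (TTinv b₁)
          (fun t ht k hk => TTP b₁ t ht k (hKP hk)) ∅ (by simp) (by
            intro t _
            have := ncard_split K t ∅
            simp only [Set.mem_empty_iff_false, and_false, not_false_eq_true, and_true] at this ⊢
            have h0 : ({x : G | False} : Set G).ncard = 0 := by simp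
            omega) hEK H.E4 H.E2 hEc
        refine ⟨D', k1, ?_, ?_, fun h => absurd h hK'E, ?_⟩
        · intro n hn hnn
          by_cases hnK : n ∈ K
          · exact absurd (H.E2 n (hKE ▸ hnK)) hnn
          · exact k2 n hn hnK hnn
        · intro x hx
          rcases k3 x hx with h | h
          · exact Or.inl ⟨h.1, h.2.2⟩
          · exact Or.inr (Or.inl h.1)
        · intro _ t ht
          have : {g : G | t⁻¹ * g ∈ K' ∧ g ∈ D'} = ∅ := by
            ext g
            simp only [Set.mem_empty_iff_false, iff_false]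
            rintro ⟨h1, h2⟩
            have hgT : g ∈ TT b₂ := by
              have : g = t * (t⁻¹ * g) := by group
              rw [this]; exact TTP b₂ t ht _ (hK'P h1)
            rcases k3 g h2 with h | h
            · exact hK'T2 g h.1 hgT
            · exact T12 g h.1 hgT
          rw [this, Set.ncard_empty, hcardK', hK4]
      · -- later steps
        obtain ⟨c, hc, hcc⟩ := getc b₂ hb₂A
        have hcnt := hD5 hKE
        obtain ⟨D', k1, k2, k3, k4⟩ := step_cov SH hc hcc (TTA b₂) (TTsq b₂) (TTinv b₂)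
          (fun t ht k hk => TTP b₂ t ht k (hKP hk)) D (fun x hx => hD1.inv_mem hx) (by
            intro t ht
            have h1 := ncard_split K t D
            have h2 := hcnt t ht
            omega) hEK H.E4 H.E2 hEc
        have hdis : Disjoint D D' := by
          rw [Set.disjoint_left]
          intro x h1 h2
          rcases k3 x h2 with h | h
          · rcases hD3 x h1 with h' | h' | h'
            · exact h.2.1 h'.1
            · exact hK'T1 x h.1 h'
            · exact hK'T2 x h.1 h'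
          · exact h.2 h1
        refine ⟨D ∪ D', hD1.union k1 hdis, ?_, ?_, fun h => absurd h hK'E, ?_⟩
        · intro n hn hnn
          by_cases hnK : n ∈ K
          · exact Or.inl (hD2 n hnK hnn)
          · exact Or.inr (k2 n hn hnK hnn)
        · rintro x (hx | hx)
          · rcases hD3 x hx with h' | h' | h'
            · exact Or.inl ⟨hKK'.le h'.1, h'.2⟩
            · exact Or.inr (Or.inl h')
            · exact Or.inr (Or.inr h')
          · rcases k3 x hx with h | h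
            · exact Or.inl ⟨h.1, h.2.2⟩
            · exact Or.inr (Or.inr h.1)
        · intro _ t ht
          have htz : t * z ∈ TT b₂ := TTP b₂ t ht z (hK'P hz)
          have hsub : {g : G | t⁻¹ * g ∈ K' ∧ g ∈ D ∪ D'} ⊆
              ({g : G | t⁻¹ * g ∈ K ∧ g ∈ D} ∪ {g : G | t⁻¹ * g ∈ K ∧ g ∈ D'}) ∪
              ({g : G | (t * z)⁻¹ * g ∈ K ∧ g ∈ D} ∪ {g : G | (t * z)⁻¹ * g ∈ K ∧ g ∈ D'}) := by
            rintro g ⟨h1, h2⟩
            rcases (hmem _).1 h1 with h | h
            · left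
              rcases h2 with h2 | h2
              · exact Or.inl ⟨h, h2⟩
              · exact Or.inr ⟨h, h2⟩
            · right
              have h' : (t * z)⁻¹ * g ∈ K := by rw [mul_inv_rev, mul_assoc]; exact h
              rcases h2 with h2 | h2
              · exact Or.inl ⟨h', h2⟩
              · exact Or.inr ⟨h', h2⟩
          have h1 := Set.ncard_le_ncard hsub (Set.toFinite _)
          have h2 := Set.ncard_union_le
            ({g : G | t⁻¹ * g ∈ K ∧ g ∈ D} ∪ {g : G | t⁻¹ * g ∈ K ∧ g ∈ D'})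
            ({g : G | (t * z)⁻¹ * g ∈ K ∧ g ∈ D} ∪ {g : G | (t * z)⁻¹ * g ∈ K ∧ g ∈ D'})
          have h3 := Set.ncard_union_le {g : G | t⁻¹ * g ∈ K ∧ g ∈ D} {g : G | t⁻¹ * g ∈ K ∧ g ∈ D'}
          have h4 := Set.ncard_union_le {g : G | (t * z)⁻¹ * g ∈ K ∧ g ∈ D}
            {g : G | (t * z)⁻¹ * g ∈ K ∧ g ∈ D'}
          have c1 := hcnt t ht
          have c2 := hcnt _ htz
          have c3 := k4 t ht
          have c4 := k4 _ htz
          rw [hcardK']
          omega
  obtain ⟨D, hD1, hD2, -⟩ := key _ E rfl H.nE le_rfl H.EP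
    ⟨∅, Cov.empty, fun n hn hnn => absurd (H.E2 n hn) hnn, by simp, fun _ => rfl,
      fun h => absurd rfl h⟩
  exact ⟨D, hD1, hD2⟩

end Pool.Agent.V8H30.ST
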