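import Mathlib

namespace Pool.Agent.V8H30.ST

open Classical

variable {G : Type*} [Group G]

/-- The intersection of all subgroups of index two. -/
def Phi (G : Type*) [Group G] : Subgroup G := sInf {A : Subgroup G | A.index = 2}

theorem mem_Phi {g : G} : g ∈ Phi G ↔ ∀ A : Subgroup G, A.index = 2 → g ∈ A := by
  simp [Phi, Subgroup.mem_sInf]

theorem Phi_le {A : Subgroup G} (hA : A.index = 2) : Phi G ≤ A := fun _ hg => mem_Phi.1 hg A hA

theorem sq_mem_Phi (g : G) : g * g ∈ Phi G :=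
  mem_Phi.2 fun A hA => Subgroup.mul_self_mem_of_index_two hA g

theorem normal_of_sq {K : Subgroup G} (h : ∀ g : G, g * g ∈ K) : K.Normal := by
  constructor
  intro k hk g
  have : g * k * g⁻¹ = ((g * k) * (g * k)) * k⁻¹ * (g⁻¹ * g⁻¹) := by group
  rw [this]
  exact K.mul_mem (K.mul_mem (h _) (K.inv_mem hk)) (h _)

theorem comm_mem_of_sq {K : Subgroup G} (h : ∀ g : G, g * g ∈ K) (a b : G) :
    a * b * a⁻¹ * b⁻¹ ∈ K := by
  have hn := normal_of_sq h
  have : a * b * a⁻¹ * b⁻¹ = (a * b) * (a * b) * (b⁻¹ * (a⁻¹ * a⁻¹) * b⁻¹⁻¹) * (b⁻¹ * b⁻¹) := by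
    group
  rw [this]
  exact K.mul_mem (K.mul_mem (h _) (hn.conj_mem _ (h _) _)) (h _)

instance Phi_normal : (Phi G).Normal := normal_of_sq sq_mem_Phi

theorem sq_mem_of_Phi_le {K : Subgroup G} (h : Phi G ≤ K) (g : G) : g * g ∈ K := h (sq_mem_Phi g)

/-- A subgroup `L` between `K` and `R`, of relative index two, avoiding `x`. -/
theorem exists_half [Finite G] (R K : Subgroup G) (x : G) (hKR : K ≤ R)
    (hsq : ∀ y ∈ R, y * y ∈ K) (hxK : x ∉ K) :
    ∃ L : Subgroup G, K ≤ L ∧ L ≤ R ∧ x ∉ L ∧ ∀ y ∈ R, y ∈ L ∨ x⁻¹ * y ∈ L := by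
  obtain ⟨L, hL⟩ := Set.Finite.exists_maximal (s := {B : Subgroup G | K ≤ B ∧ B ≤ R ∧ x ∉ B})
    (Set.toFinite _) ⟨K, le_rfl, hKR, hxK⟩
  obtain ⟨⟨h1, h2, h3⟩, hmax⟩ := hL
  refine ⟨L, h1, h2, h3, ?_⟩
  intro y hy
  by_contra hcon
  push Not at hcon
  obtain ⟨hyL, hxy⟩ := hcon
  have hcj : ∀ u ∈ R, ∀ k ∈ L, u * k * u⁻¹ ∈ L := by
    intro u hu k hk
    have : u * k * u⁻¹ = ((u * k) * (u * k)) * k⁻¹ * (u⁻¹ * u⁻¹) := by group
    rw [this]
    exact L.mul_mem (L.mul_mem (h1 (hsq _ (R.mul_mem hu (h2 hk)))) (L.inv_mem hk))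
      (h1 (hsq _ (R.inv_mem hu)))
  let B : Subgroup G :=
    { carrier := {g | g ∈ L ∨ y⁻¹ * g ∈ L}
      mul_mem' := by
        rintro a b (ha | ha) (hb | hb)
        · exact Or.inl (L.mul_mem ha hb)
        · right
          have : y⁻¹ * (a * b) = (y⁻¹ * a * y⁻¹⁻¹) * (y⁻¹ * b) := by group
          rw [this]
          exact L.mul_mem (hcj _ (R.inv_mem hy) _ ha) hb
        · right
          have : y⁻¹ * (a * b) = (y⁻¹ * a) * b := by group
          rw [this]
          exact L.mul_mem ha hb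
        · left
          have : a * b = (y * (y⁻¹ * a) * y⁻¹) * (y * y) * (y⁻¹ * b) := by group
          rw [this]
          exact L.mul_mem (L.mul_mem (hcj _ hy _ ha) (h1 (hsq _ hy))) hb
      one_mem' := Or.inl L.one_mem
      inv_mem' := by
        rintro a (ha | ha)
        · exact Or.inl (L.inv_mem ha)
        · right
          have : y⁻¹ * a⁻¹ = (y⁻¹ * (y⁻¹ * a)⁻¹ * y⁻¹⁻¹) * (y⁻¹ * y⁻¹) := by group
          rw [this]
          exact L.mul_mem (hcj _ (R.inv_mem hy) _ (L.inv_mem ha)) (h1 (hsq _ (R.inv_mem hy))) }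
  have hLB : L ≤ B := fun g hg => Or.inl hg
  have hyB : y ∈ B := Or.inr (by simp)
  have hBR : B ≤ R := by
    rintro g (hg | hg)
    · exact h2 hg
    · have : g = y * (y⁻¹ * g) := by group
      rw [this]
      exact R.mul_mem hy (h2 hg)
  have hxB : x ∉ B := by
    rintro (h | h)
    · exact h3 h
    · apply hxy
      have : x⁻¹ * y = (y⁻¹ * x)⁻¹ := by group
      rw [this]
      exact L.inv_mem h
  exact hyL (hmax ⟨h1.trans hLB, hBR, hxB⟩ hLB hyB)

/-- Every proper subgroup of a finite 2-group lies in a subgroup of index two. -/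
theorem exists_index_two [Finite G] (hG : IsPGroup 2 G) (H : Subgroup G) (hH : H ≠ ⊤) :
    ∃ A : Subgroup G, A.index = 2 ∧ H ≤ A := by
  have : Fact (Nat.Prime 2) := ⟨Nat.prime_two⟩
  obtain ⟨N, hN⟩ := (IsPGroup.iff_card (p := 2)).1 hG
  obtain ⟨n, hn⟩ := (IsPGroup.iff_card (p := 2)).1 (hG.to_subgroup H)
  have hdvd : Nat.card H ∣ Nat.card G := Subgroup.card_subgroup_dvd_card H
  have hlt : Nat.card H < Nat.card G := by
    rcases lt_or_eq_of_le (Nat.le_of_dvd Nat.card_pos hdvd) with h | h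
    · exact h
    · exact absurd (Subgroup.eq_top_of_card_eq H h) hH
  rw [hN, hn] at hlt
  have hnN : n < N := (Nat.pow_lt_pow_iff_right (by norm_num)).1 hlt
  obtain ⟨K, hK, hHK⟩ := Sylow.exists_subgroup_card_pow_prime_le 2 (n := n) (m := N - 1)
    (by rw [hN]; exact pow_dvd_pow 2 (by omega)) H hn (by omega)
  refine ⟨K, ?_, hHK⟩
  have h1 := K.card_mul_index
  rw [hK, hN] at h1
  have h2 : 2 ^ N = 2 ^ (N - 1) * 2 := by rw [← pow_succ]; congr 1; omega
  rw [h2] at h1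
  exact Nat.eq_of_mul_eq_mul_left (by positivity) h1

/-- One step of a chief series. -/
theorem exists_step [Finite G] (hG : IsPGroup 2 G) (K M : Subgroup G) [hKn : K.Normal]
    [hMn : M.Normal] (h : K < M) :
    ∃ K' : Subgroup G, K'.Normal ∧ K < K' ∧ K' ≤ M ∧
      ∃ z ∈ K', z ∉ K ∧ z * z ∈ K ∧ (∀ g, g ∈ K' ↔ g ∈ K ∨ z⁻¹ * g ∈ K) ∧
        (∀ g, g⁻¹ * z⁻¹ * g * z ∈ K) := by
  have : Fact (Nat.Prime 2) := ⟨Nat.prime_two⟩
  -- the image of M in the quotient
  let Q := G ⧸ K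
  have hQ : IsPGroup 2 Q := hG.to_quotient K
  let Mb : Subgroup Q := M.map (QuotientGroup.mk' K)
  have hMbn : Mb.Normal := hMn.map _ (QuotientGroup.mk'_surjective K)
  have hMbne : Mb ≠ ⊥ := by
    intro hbot
    obtain ⟨m, hm, hmK⟩ := SetLike.exists_of_lt h
    have : QuotientGroup.mk' K m ∈ Mb := Subgroup.mem_map_of_mem _ hm
    rw [hbot, Subgroup.mem_bot] at this
    exact hmK ((QuotientGroup.eq_one_iff m).1 this)
  have hcard : 2 ∣ Nat.card Mb := by
    rcases (hQ.to_subgroup Mb).card_eq_or_dvd with h1 | h1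
    · exact absurd (Subgroup.card_eq_one.1 h1) hMbne
    · exact h1
  have hQc : IsPGroup 2 (ConjAct Q) := hQ.of_equiv ConjAct.toConjAct
  obtain ⟨b, hb, hb1⟩ := hQc.exists_fixed_point_of_prime_dvd_card_of_fixed_point Mb hcard
    (a := (1 : Mb)) (by
      intro g
      apply Subtype.ext
      simp [ConjAct.Subgroup.val_conj_smul])
  have hbc : ∀ q : Q, q * (b : Q) * q⁻¹ = b := by
    intro q
    have := hb (ConjAct.toConjAct q)
    have h2 := congrArg (Subtype.val) this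
    rw [ConjAct.Subgroup.val_conj_smul, ConjAct.toConjAct_smul] at h2
    exact h2
  -- make it of order two
  have hbQ : (b : Q) ≠ 1 := fun hh => hb1 (Subtype.ext hh.symm)
  obtain ⟨k, hk⟩ := (IsPGroup.iff_orderOf (p := 2)).1 hQ (b : Q)
  have hk0 : k ≠ 0 := by
    rintro rfl
    apply hbQ
    rw [pow_zero] at hk
    exact orderOf_eq_one_iff.1 hk
  let c : Q := (b : Q) ^ (2 ^ (k - 1))
  have hc2 : c * c = 1 := by
    change (b : Q) ^ (2 ^ (k - 1)) * (b : Q) ^ (2 ^ (k - 1)) = 1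
    rw [← pow_add, ← two_mul, ← pow_succ', Nat.sub_add_cancel (Nat.pos_of_ne_zero hk0), ← hk]
    exact pow_orderOf_eq_one _
  have hc1 : c ≠ 1 := by
    intro hh
    have := orderOf_dvd_of_pow_eq_one hh
    rw [hk] at this
    have := (Nat.pow_dvd_pow_iff_le_right (by norm_num)).1 this
    omega
  have hcM : c ∈ Mb := Mb.pow_mem b.2 _
  have hcc : ∀ q : Q, q * c * q⁻¹ = c := by
    intro q
    change q * (b : Q) ^ (2 ^ (k - 1)) * q⁻¹ = _
    rw [← conj_pow, hbc]
  obtain ⟨z, hzM, hzc⟩ := Subgroup.mem_map.1 hcM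
  have hzc' : (QuotientGroup.mk z : Q) = c := hzc
  have hzK : z ∉ K := fun hh => hc1 (by rw [← hzc']; exact (QuotientGroup.eq_one_iff z).2 hh)
  have hzz : z * z ∈ K := by
    rw [← QuotientGroup.eq_one_iff, QuotientGroup.mk_mul, hzc', hc2]
  have hzcomm : ∀ g, g⁻¹ * z⁻¹ * g * z ∈ K := by
    intro g
    rw [← QuotientGroup.eq_one_iff]
    simp only [QuotientGroup.mk_mul, QuotientGroup.mk_inv, hzc']
    have := hcc (QuotientGroup.mk g : Q)⁻¹
    rw [inv_inv] at this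
    have h3 : (QuotientGroup.mk g : Q)⁻¹ * c⁻¹ * (QuotientGroup.mk g : Q) = c⁻¹ := by
      calc (QuotientGroup.mk g : Q)⁻¹ * c⁻¹ * (QuotientGroup.mk g : Q)
          = ((QuotientGroup.mk g : Q)⁻¹ * c * (QuotientGroup.mk g : Q))⁻¹ := by group
        _ = c⁻¹ := by rw [this]
    rw [h3]; simp
  have hcj : ∀ u k, k ∈ K → u * k * u⁻¹ ∈ K := fun u k hk => hKn.conj_mem k hk u
  let K' : Subgroup G :=
    { carrier := {g | g ∈ K ∨ z⁻¹ * g ∈ K}
      mul_mem' := by
        rintro a b (ha | ha) (hb | hb)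
        · exact Or.inl (K.mul_mem ha hb)
        · right
          have : z⁻¹ * (a * b) = (z⁻¹ * a * z⁻¹⁻¹) * (z⁻¹ * b) := by group
          rw [this]
          exact K.mul_mem (hcj _ _ ha) hb
        · right
          have : z⁻¹ * (a * b) = (z⁻¹ * a) * b := by group
          rw [this]
          exact K.mul_mem ha hb
        · left
          have : a * b = (z * (z⁻¹ * a) * z⁻¹) * (z * z) * (z⁻¹ * b) := by group
          rw [this]
          exact K.mul_mem (K.mul_mem (hcj _ _ ha) hzz) hb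
      one_mem' := Or.inl K.one_mem
      inv_mem' := by
        rintro a (ha | ha)
        · exact Or.inl (K.inv_mem ha)
        · right
          have : z⁻¹ * a⁻¹ = (z⁻¹ * (z⁻¹ * a)⁻¹ * z⁻¹⁻¹) * (z * z)⁻¹ := by group
          rw [this]
          exact K.mul_mem (hcj _ _ (K.inv_mem ha)) (K.inv_mem hzz) }
  have hK'mem : ∀ g, g ∈ K' ↔ g ∈ K ∨ z⁻¹ * g ∈ K := fun g => Iff.rfl
  refine ⟨K', ?_, ?_, ?_, z, Or.inr (by simp), hzK, hzz, hK'mem, hzcomm⟩
  · constructor
    rintro a (ha | ha) g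
    · exact Or.inl (hcj _ _ ha)
    · right
      have : z⁻¹ * (g * a * g⁻¹) = (g * ((g⁻¹ * z⁻¹ * g * z) * (z⁻¹ * a)) * g⁻¹) := by group
      rw [this]
      exact hcj _ _ (K.mul_mem (hzcomm g) ha)
  · refine lt_of_le_of_ne (fun g hg => Or.inl hg) ?_
    intro hh
    apply hzK
    rw [hh]
    exact Or.inr (by simp)
  · rintro g (hg | hg)
    · exact h.le hg
    · have : g = z * (z⁻¹ * g) := by group
      rw [this]
      exact M.mul_mem hzM (h.le hg)

end Pool.Agent.V8H30.ST
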