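import Pool.Agent.V8H30.ST.Basic
import Pool.Agent.V8H30.ST.Grp

namespace Pool.Agent.V8H30.ST

open Classical

variable {G : Type*} [Group G]

theorem cyc_block {g : G} {r : ℤ} (hr : 1 ≤ r) (hord : ∀ i : ℤ, g ^ i = 1 ↔ 8 * r ∣ i)
    (L : Subgroup G) (hz : g ^ (4 * r) ∈ L) (hinj : ∀ i : ℤ, g ^ i ∈ L → 4 * r ∣ i)
    (hsurj : ∀ y : G, ∃ i : ℤ, (g ^ i)⁻¹ * y ∈ L) (v₁ v₂ : G)
    (h₁ : v₁ ∉ Subgroup.zpowers g) (h₂ : v₂ ∉ Subgroup.zpowers g)
    (hv : (v₂ = v₁⁻¹ ∧ v₁ * v₁ ≠ 1 ∧ g ^ r * v₁ * g ^ r ∈ L) ∨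
      (v₁ * v₁ = 1 ∧ v₂ * v₂ = 1 ∧ v₁ ≠ v₂ ∧ (g ^ r)⁻¹ * v₁ * g ^ r ∈ L ∧
        g ^ r * v₂ * (g ^ r)⁻¹ ∈ L)) :
    ∃ D : Set G, Cov D ∧ ∀ x ∈ Subgroup.zpowers (g * g), x * x ≠ 1 → x ∈ D := by
  let I := {k : ℤ // -(2 * r) ≤ k ∧ k < 2 * r}
  let e : ℤ → ℤ := fun k => if k = 0 then 2 * r else if k = -(2 * r) then -(2 * r) else -(2 * k)
  let labz : ℤ → G := fun k => if k = r then v₁ else if k = -r then v₂ else g ^ e k
  let lab : I → G := fun k => labz k.1
  let V : I → G ⧸ L := fun k => QuotientGroup.mk (g ^ k.1)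
  have hmkeq : ∀ i j : ℤ, 4 * r ∣ j - i → (QuotientGroup.mk (g ^ i) : G ⧸ L) = QuotientGroup.mk (g ^ j) := by
    intro i j hij
    rw [QuotientGroup.eq, ← zpow_neg, ← zpow_add]
    obtain ⟨q, hq⟩ := hij
    have : -i + j = 4 * r * q := by linarith
    rw [this, zpow_mul]
    exact Subgroup.zpow_mem _ hz _
  have hVbij : Function.Bijective V := by
    constructor
    · intro k l hkl
      have h1 : (QuotientGroup.mk (g ^ k.1) : G ⧸ L) = QuotientGroup.mk (g ^ l.1) := hkl
      rw [QuotientGroup.eq, ← zpow_neg, ← zpow_add] at h1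
      have h2 := hinj _ h1
      have hk := k.2
      have hl := l.2
      have h3 : -k.1 + l.1 = 0 := by
        apply Int.eq_zero_of_abs_lt_dvd h2
        rw [abs_lt]; constructor <;> linarith
      apply Subtype.ext
      linarith
    · intro w
      induction w using QuotientGroup.induction_on with
      | H y =>
        obtain ⟨i, hi⟩ := hsurj y
        let k : ℤ := (i + 2 * r) % (4 * r) - 2 * r
        have hk1 : 0 ≤ (i + 2 * r) % (4 * r) := Int.emod_nonneg _ (by linarith)
        have hk2 : (i + 2 * r) % (4 * r) < 4 * r := Int.emod_lt_of_pos _ (by linarith)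
        refine ⟨⟨k, by simp only [k]; linarith, by simp only [k]; linarith⟩, ?_⟩
        have h1 : (QuotientGroup.mk (g ^ k) : G ⧸ L) = QuotientGroup.mk (g ^ i) := by
          apply hmkeq
          refine ⟨(i + 2 * r) / (4 * r), ?_⟩
          have := Int.emod_add_mul_ediv (i + 2 * r) (4 * r)
          simp only [k]
          linarith
        change (QuotientGroup.mk (g ^ k) : G ⧸ L) = QuotientGroup.mk y
        rw [h1]
        exact QuotientGroup.eq.2 hi
  have hzpow : ∀ i j : ℤ, g ^ i = g ^ j → 8 * r ∣ i - j := by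
    intro i j h
    rw [← hord, zpow_sub, h, mul_inv_cancel]
  -- bounds for e
  have hebd : ∀ k : I, k.1 ≠ r → k.1 ≠ -r → -(4 * r) < e k.1 ∧ e k.1 < 4 * r := by
    intro k h1 h2
    have hk := k.2
    simp only [e]
    by_cases h3 : k.1 = 0
    · rw [if_pos h3]; constructor <;> linarith
    · rw [if_neg h3]
      by_cases h4 : k.1 = -(2 * r)
      · rw [if_pos h4]; constructor <;> linarith
      · rw [if_neg h4]
        have : -(2 * r) < k.1 := lt_of_le_of_ne hk.1 (Ne.symm h4)
        constructor <;> linarith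
  have heinj : ∀ k l : I, k.1 ≠ r → k.1 ≠ -r → l.1 ≠ r → l.1 ≠ -r → e k.1 = e l.1 → k.1 = l.1 := by
    intro k l a1 a2 a3 a4 h
    simp only [e] at h
    by_cases h3 : k.1 = 0 <;> by_cases h4 : l.1 = 0 <;> by_cases h5 : k.1 = -(2 * r) <;>
      by_cases h6 : l.1 = -(2 * r) <;> simp only [h3, h4, h5, h6, if_true, if_false] at h <;> omega
  have hene : ∀ k : I, k.1 ≠ r → k.1 ≠ -r → e k.1 ≠ 0 := by
    intro k a1 a2
    simp only [e]
    by_cases h3 : k.1 = 0
    · rw [if_pos h3]; omega
    · rw [if_neg h3]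
      by_cases h4 : k.1 = -(2 * r)
      · rw [if_pos h4]; omega
      · rw [if_neg h4]; omega
  have hlab0 : ∀ k : I, k.1 ≠ r → k.1 ≠ -r → lab k = g ^ e k.1 := by
    intro k a1 a2
    simp only [lab, labz, if_neg a1, if_neg a2]
  have hlabr : ∀ k : I, k.1 = r → lab k = v₁ := by
    intro k a1
    simp only [lab, labz, if_pos a1]
  have hlabr' : ∀ k : I, k.1 = -r → lab k = v₂ := by
    intro k a1
    have : k.1 ≠ r := by omega
    simp only [lab, labz, if_neg this, if_pos a1]
  have hv12 : v₁ ≠ v₂ := by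
    rcases hv with ⟨h1, h2, -⟩ | ⟨-, -, h, -⟩
    · intro h
      apply h2
      rw [h1] at h
      nth_rewrite 1 [h]
      simp
    · exact h
  have hzm : ∀ i : ℤ, g ^ i ∈ Subgroup.zpowers g := fun i => Subgroup.zpow_mem _
    (Subgroup.mem_zpowers g) i
  have hlabinj : Function.Injective lab := by
    intro k l h
    apply Subtype.ext
    by_cases a1 : k.1 = r
    · rw [hlabr k a1] at h
      by_cases b1 : l.1 = r
      · rw [a1, b1]
      · by_cases b2 : l.1 = -r
        · rw [hlabr' l b2] at h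
          exact absurd h hv12
        · rw [hlab0 l b1 b2] at h
          exact absurd (h ▸ hzm _) h₁
    · by_cases a2 : k.1 = -r
      · rw [hlabr' k a2] at h
        by_cases b1 : l.1 = r
        · rw [hlabr l b1] at h
          exact absurd h.symm hv12
        · by_cases b2 : l.1 = -r
          · rw [a2, b2]
          · rw [hlab0 l b1 b2] at h
            exact absurd (h ▸ hzm _) h₂
      · rw [hlab0 k a1 a2] at h
        by_cases b1 : l.1 = r
        · rw [hlabr l b1] at h
          exact absurd (h ▸ hzm _) h₁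
        · by_cases b2 : l.1 = -r
          · rw [hlabr' l b2] at h
            exact absurd (h ▸ hzm _) h₂
          · rw [hlab0 l b1 b2] at h
            have h1 := hzpow _ _ h
            have c1 := hebd k a1 a2
            have c2 := hebd l b1 b2
            have h3 : e k.1 - e l.1 = 0 := by
              apply Int.eq_zero_of_abs_lt_dvd h1
              rw [abs_lt]; constructor <;> linarith
            exact heinj k l a1 a2 b1 b2 (by linarith)
  have hlabne : ∀ k, lab k ≠ 1 := by
    intro k h
    by_cases a1 : k.1 = r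
    · rw [hlabr k a1] at h
      exact h₁ (h ▸ one_mem _)
    · by_cases a2 : k.1 = -r
      · rw [hlabr' k a2] at h
        exact h₂ (h ▸ one_mem _)
      · rw [hlab0 k a1 a2, hord] at h
        have c1 := hebd k a1 a2
        apply hene k a1 a2
        apply Int.eq_zero_of_abs_lt_dvd h
        rw [abs_lt]; constructor <;> linarith
  -- the matching
  let sw : Prop := v₂ = v₁⁻¹ ∧ v₁ * v₁ ≠ 1 ∧ g ^ r * v₁ * g ^ r ∈ L
  let sz : ℤ → ℤ := fun k => if k = 0 then -(2 * r) else if k = -(2 * r) then 0 else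
    if (k = r ∨ k = -r) ∧ ¬ sw then k else -k
  have hsz : ∀ k : I, -(2 * r) ≤ sz k.1 ∧ sz k.1 < 2 * r := by
    intro k
    have hk := k.2
    simp only [sz]
    by_cases h3 : k.1 = 0
    · rw [if_pos h3]; omega
    · rw [if_neg h3]
      by_cases h4 : k.1 = -(2 * r)
      · rw [if_pos h4]; omega
      · rw [if_neg h4]
        split_ifs
        · exact hk
        · omega
  let σ : I → I := fun k => ⟨sz k.1, hsz k⟩
  have hσ1 : ∀ k, lab k • V k = V (σ k) := by
    intro k
    have hk := k.2
    change (QuotientGroup.mk (lab k * g ^ k.1) : G ⧸ L) = QuotientGroup.mk (g ^ sz k.1)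
    by_cases a1 : k.1 = r
    · have n0 : k.1 ≠ 0 := by omega
      have n1 : k.1 ≠ -(2 * r) := by omega
      rw [hlabr k a1, a1]
      rcases hv with hsw | hlp
      · have : sz r = -r := by
          simp only [sz]
          rw [if_neg (by omega), if_neg (by omega), if_neg (by intro h; exact h.2 hsw)]
        rw [this, QuotientGroup.eq]
        have h5 : (v₁ * g ^ r)⁻¹ * g ^ (-r) = (g ^ r * v₁ * g ^ r)⁻¹ := by
          rw [zpow_neg]; group
        rw [h5]; exact L.inv_mem hsw.2.2
      · have hnsw : ¬ sw := fun h => h.2.1 hlp.1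
        have : sz r = r := by
          simp only [sz]
          rw [if_neg (by omega), if_neg (by omega), if_pos ⟨Or.inl trivial, hnsw⟩]
        rw [this, QuotientGroup.eq]
        have h5 : (v₁ * g ^ r)⁻¹ * g ^ r = ((g ^ r)⁻¹ * v₁ * g ^ r)⁻¹ := by group
        rw [h5]; exact L.inv_mem hlp.2.2.2.1
    · by_cases a2 : k.1 = -r
      · rw [hlabr' k a2, a2]
        rcases hv with hsw | hlp
        · have : sz (-r) = r := by
            simp only [sz]
            rw [if_neg (by omega), if_neg (by omega), if_neg (by intro h; exact h.2 hsw)]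
            ring
          rw [this, QuotientGroup.eq, hsw.1]
          have h5 : (v₁⁻¹ * g ^ (-r))⁻¹ * g ^ r = (g ^ r * v₁ * g ^ r) := by
            rw [zpow_neg]; group
          rw [h5]; exact hsw.2.2
        · have hnsw : ¬ sw := fun h => h.2.1 hlp.1
          have : sz (-r) = -r := by
            simp only [sz]
            rw [if_neg (by omega), if_neg (by omega), if_pos ⟨Or.inr trivial, hnsw⟩]
          rw [this, QuotientGroup.eq]
          have h5 : (v₂ * g ^ (-r))⁻¹ * g ^ (-r) = (g ^ r * v₂ * (g ^ r)⁻¹)⁻¹ := by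
            rw [zpow_neg]; group
          rw [h5]; exact L.inv_mem hlp.2.2.2.2
      · rw [hlab0 k a1 a2, ← zpow_add]
        apply hmkeq
        simp only [e, sz]
        by_cases h3 : k.1 = 0
        · rw [if_pos h3, if_pos h3, h3]
          exact ⟨-1, by ring⟩
        · rw [if_neg h3, if_neg h3]
          by_cases h4 : k.1 = -(2 * r)
          · rw [if_pos h4, if_pos h4, h4]
            exact ⟨1, by ring⟩
          · rw [if_neg h4, if_neg h4, if_neg (by rintro ⟨h | h, -⟩; exacts [a1 h, a2 h])]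
            exact ⟨0, by ring⟩
  have hσ2 : ∀ k, lab (σ k) = (lab k)⁻¹ := by
    intro k
    have hk := k.2
    by_cases a1 : k.1 = r
    · rcases hv with hsw | hlp
      · have : sz k.1 = -r := by
          simp only [sz, a1]
          rw [if_neg (by omega), if_neg (by omega), if_neg (by intro h; exact h.2 hsw)]
        rw [hlabr k a1, hlabr' (σ k) this, hsw.1]
      · have hnsw : ¬ sw := fun h => h.2.1 hlp.1
        have : sz k.1 = r := by
          simp only [sz, a1]
          rw [if_neg (by omega), if_neg (by omega), if_pos ⟨Or.inl trivial, hnsw⟩]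
        rw [hlabr k a1, hlabr (σ k) this]
        exact (inv_eq_of_mul_eq_one_left hlp.1).symm
    · by_cases a2 : k.1 = -r
      · rcases hv with hsw | hlp
        · have : sz k.1 = r := by
            simp only [sz, a2]
            rw [if_neg (by omega), if_neg (by omega), if_neg (by intro h; exact h.2 hsw)]
            ring
          rw [hlabr' k a2, hlabr (σ k) this, hsw.1, inv_inv]
        · have hnsw : ¬ sw := fun h => h.2.1 hlp.1
          have : sz k.1 = -r := by
            simp only [sz, a2]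
            rw [if_neg (by omega), if_neg (by omega), if_pos ⟨Or.inr trivial, hnsw⟩]
          rw [hlabr' k a2, hlabr' (σ k) this]
          exact (inv_eq_of_mul_eq_one_left hlp.2.1).symm
      · have hse : sz k.1 ≠ r ∧ sz k.1 ≠ -r ∧ e (sz k.1) = - e k.1 := by
          simp only [sz, e]
          by_cases h3 : k.1 = 0
          · rw [if_pos h3, if_pos h3]
            refine ⟨by omega, by omega, ?_⟩
            rw [if_neg (by omega), if_pos rfl]
          · rw [if_neg h3, if_neg h3]
            by_cases h4 : k.1 = -(2 * r)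
            · rw [if_pos h4, if_pos h4]
              refine ⟨by omega, by omega, ?_⟩
              rw [if_pos rfl]; ring
            · rw [if_neg h4, if_neg h4, if_neg (by rintro ⟨h | h, -⟩; exacts [a1 h, a2 h])]
              refine ⟨by omega, by omega, ?_⟩
              rw [if_neg (by omega), if_neg (by omega)]; ring
        rw [hlab0 k a1 a2, hlab0 (σ k) hse.1 hse.2.1]
        change g ^ e (sz k.1) = _
        rw [hse.2.2, zpow_neg]
  refine ⟨Set.range lab, Cov.of_block (Block.mk' V hVbij lab hlabinj hlabne σ hσ1 hσ2), ?_⟩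
  intro x hx hxx
  obtain ⟨a, rfl⟩ := Subgroup.mem_zpowers_iff.1 hx
  have ha : (g * g) ^ a = g ^ (2 * a) := by
    rw [(Commute.refl g).mul_zpow, ← zpow_add]; congr 1; ring
  rw [ha] at hxx ⊢
  rw [← zpow_add, Ne, hord] at hxx
  let k : ℤ := (-a + 2 * r) % (4 * r) - 2 * r
  have hk1 : 0 ≤ (-a + 2 * r) % (4 * r) := Int.emod_nonneg _ (by linarith)
  have hk2 : (-a + 2 * r) % (4 * r) < 4 * r := Int.emod_lt_of_pos _ (by linarith)
  have hkI : -(2 * r) ≤ k ∧ k < 2 * r := ⟨by simp only [k]; linarith, by simp only [k]; linarith⟩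
  obtain ⟨q, hq⟩ : ∃ q, -a = k + 4 * r * q := ⟨(-a + 2 * r) / (4 * r), by
    have := Int.emod_add_mul_ediv (-a + 2 * r) (4 * r)
    simp only [k]
    linarith⟩
  have hgeq : ∀ i : ℤ, 8 * r ∣ i - 2 * a → g ^ i = g ^ (2 * a) := by
    intro i hi
    have := (hord _).2 hi
    rw [zpow_sub] at this
    exact mul_inv_eq_one.1 this
  by_cases c0 : k = 0
  · exfalso; apply hxx
    exact ⟨-(2 * q), by linear_combination (-4) * hq + (-4) * c0⟩
  by_cases c1 : k = -(2 * r)
  · exfalso; apply hxx
    exact ⟨1 - 2 * q, by linear_combination (-4) * hq + (-4) * c1⟩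
  by_cases c2 : k = r
  · refine ⟨⟨-(2 * r), by linarith, by linarith⟩, ?_⟩
    rw [hlab0 _ (by simp only; omega) (by simp only; omega)]
    apply hgeq
    simp only [e]
    rw [if_neg (by omega), if_pos trivial]
    exact ⟨q, by linear_combination 2 * hq + 2 * c2⟩
  by_cases c3 : k = -r
  · refine ⟨⟨0, by linarith, by linarith⟩, ?_⟩
    rw [hlab0 _ (by simp only; omega) (by simp only; omega)]
    apply hgeq
    simp only [e]
    rw [if_pos trivial]
    exact ⟨q, by linear_combination 2 * hq + 2 * c3⟩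
  · refine ⟨⟨k, hkI⟩, ?_⟩
    rw [hlab0 ⟨k, hkI⟩ c2 c3]
    apply hgeq
    simp only [e]
    rw [if_neg c0, if_neg c1]
    exact ⟨q, by linear_combination 2 * hq⟩

end Pool.Agent.V8H30.ST
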