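import Mathlib

/-!
Definitions for starters in finite groups of even order (Buratti), written multiplicatively.
The group `G` acts on itself by right multiplication.  An edge `[x, y]` of the complete graph on
`G` is given by an ordered pair `(x, y)` with `x ≠ y`; the order only serves to name the vertex
`x` that represents the edge when it is short.
-/

namespace Pool.Agent.V8H30.ST

open Classical

variable {G : Type*} [Group G]

/-- `g` fixes the edge `[x, y]`: the unordered pairs `{x g, y g}` and `{x, y}` coincide. -/
def Fixes (g : G) (e : G × G) : Prop := s(e.1 * g, e.2 * g) = s(e.1, e.2)

/-- An edge is short when some involution of `G` fixes it. -/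
def IsShort (e : G × G) : Prop := ∃ g : G, orderOf g = 2 ∧ Fixes g e

/-- The multiset of differences of an edge: `{x y⁻¹, y x⁻¹}` for a long edge, `{x y⁻¹}` for a
short edge. -/
noncomputable def diff (e : G × G) : Multiset G :=
  if IsShort e then {e.1 * e.2⁻¹} else {e.1 * e.2⁻¹, e.2 * e.1⁻¹}

/-- The multiset of representing vertices of an edge: `{x, y}` for a long edge, `{x}` for a
short edge. -/
noncomputable def ends (e : G × G) : Multiset G :=
  if IsShort e then {e.1} else {e.1, e.2}

/-- A multiset contains exactly one element of each left coset of `H`. -/
def IsLeftTransversal (H : Subgroup G) (T : Multiset G) : Prop :=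
  ∀ g : G, Multiset.card (T.filter (fun t => g⁻¹ * t ∈ H)) = 1

/-- A starter in `G`: a finite family of finite sets of edges, whose differences together give
each non-identity element of `G` exactly once (and never the identity), and such that the
representing vertices of each member form a left transversal of a subgroup containing every
involution that fixes a short edge of the member. -/
structure IsStarter (F : List (Finset (G × G))) : Prop where
  edge : ∀ S ∈ F, ∀ e ∈ S, e.1 ≠ e.2
  differences : ∀ g : G,
    Multiset.count g (F.map (fun S => ∑ e ∈ S, diff e)).sum = if g = 1 then 0 else 1
  transversal : ∀ S ∈ F, ∃ H : Subgroup G,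
    IsLeftTransversal H (∑ e ∈ S, ends e) ∧
      ∀ e ∈ S, ∀ g : G, orderOf g = 2 → Fixes g e → g ∈ H

/-- The group `G` admits a starter. -/
def HasStarter (G : Type*) [Group G] : Prop := ∃ F : List (Finset (G × G)), IsStarter F

end Pool.Agent.V8H30.ST
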