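import Pool.Agent.V8H30.ST.Grp

namespace Pool.Agent.V8H30.ST

open Classical

variable {G : Type*} [Group G]

theorem Phi_comm {x x' : G} (h : ∀ g, g * x * g⁻¹ = x ∨ g * x * g⁻¹ = x') :
    ∀ n ∈ Phi G, n * x * n⁻¹ = x := by
  intro n hn
  by_contra hne
  have hnx : n * x * n⁻¹ = x' := (h n).resolve_left hne
  have hxx' : x' ≠ x := fun e => hne (hnx.trans e)
  let C : Subgroup G :=
    { carrier := {g | g * x * g⁻¹ = x}
      mul_mem' := by
        intro a b ha hb
        change (a * b) * x * (a * b)⁻¹ = x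
        have : (a * b) * x * (a * b)⁻¹ = a * (b * x * b⁻¹) * a⁻¹ := by group
        rw [this, hb, ha]
      one_mem' := by simp
      inv_mem' := by
        intro a ha
        change a⁻¹ * x * a⁻¹⁻¹ = x
        have ha' : a * x * a⁻¹ = x := ha
        calc a⁻¹ * x * a⁻¹⁻¹ = a⁻¹ * (a * x * a⁻¹) * a := by rw [ha']; group
          _ = x := by group }
  have hC : ∀ g, g ∈ C ↔ g * x * g⁻¹ = x := fun g => Iff.rfl
  have hidx : C.index = 2 := by
    rw [Subgroup.index_eq_two_iff]
    refine ⟨n, fun b => ?_⟩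
    have e : (b * n) * x * (b * n)⁻¹ = b * x' * b⁻¹ := by
      rw [← hnx]; group
    by_cases hb : b ∈ C
    · right
      refine ⟨hb, fun hh => ?_⟩
      rw [hC, e] at hh
      rw [hC] at hb
      apply hxx'
      have := hh.trans hb.symm
      exact mul_left_cancel (mul_right_cancel this)
    · left
      refine ⟨?_, hb⟩
      rw [hC]
      have hb' : b * x * b⁻¹ = x' := (h b).resolve_left hb
      rcases h (b * n) with h1 | h1
      · exact h1
      · exfalso
        rw [e] at h1
        exact hxx' (mul_left_cancel (mul_right_cancel (h1.trans hb'.symm)))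
  exact hne (Phi_le hidx hn)

theorem conj_zpow' (y f : G) (ν i : ℤ) (h : y⁻¹ * f * y = f ^ ν) :
    y⁻¹ * f ^ i * y = f ^ (ν * i) := by
  have : y⁻¹ * f ^ i * y = (y⁻¹ * f * y) ^ i := by
    have := conj_zpow (i := i) (a := y⁻¹) (b := f)
    rw [inv_inv] at this
    exact this.symm
  rw [this, h, zpow_mul]

theorem exists_E [Finite G] (hG : IsPGroup 2 G) (hnc : ¬ IsCyclic (Phi G)) :
    ∃ E : Subgroup G, E.Normal ∧ E ≤ Phi G ∧ Nat.card E = 4 ∧ (∀ e ∈ E, e * e = 1) ∧
      ∀ n ∈ Phi G, ∀ e ∈ E, e * n = n * e := by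
  have : Fact (Nat.Prime 2) := ⟨Nat.prime_two⟩
  obtain ⟨F, hF⟩ := Set.Finite.exists_maximal
    (s := {F : Subgroup G | F.Normal ∧ F ≤ Phi G ∧ ∃ f, F = Subgroup.zpowers f})
    (Set.toFinite _) ⟨⊥, Subgroup.normal_bot, bot_le, 1, by simp⟩
  obtain ⟨⟨nF, hFP, f, rfl⟩, hmax⟩ := hF
  have hlt : Subgroup.zpowers f < Phi G := by
    refine lt_of_le_of_ne hFP ?_
    intro h
    apply hnc
    rw [← h]
    infer_instance
  obtain ⟨F', nF', hFF', hF'P, y, hy, hyF, hyy, hmem, -⟩ := exists_step hG _ _ hlt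
  have hnotcyc : ∀ x, F' ≠ Subgroup.zpowers x := by
    intro x hx
    have := hmax ⟨nF', hF'P, x, hx⟩ hFF'.le
    exact absurd hFF' (not_lt_of_ge this)
  obtain ⟨k, hk⟩ := (IsPGroup.iff_orderOf (p := 2)).1 hG f
  have hfm : f ∈ Subgroup.zpowers f := Subgroup.mem_zpowers f
  have hzp : ∀ i : ℤ, f ^ i ∈ Subgroup.zpowers f := fun i => Subgroup.zpow_mem _ hfm i
  have hord : ∀ i : ℤ, f ^ i = 1 ↔ (2 : ℤ) ^ k ∣ i := by
    intro i
    rw [← orderOf_dvd_iff_zpow_eq_one, hk]; push_cast; rfl
  have hk1 : 1 ≤ k := by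
    by_contra hk0
    have hk0' : k = 0 := by omega
    rw [hk0', pow_zero] at hk
    have hf1 : f = 1 := orderOf_eq_one_iff.1 hk
    apply hnotcyc y
    ext x
    rw [hmem, hf1]
    simp only [Subgroup.zpowers_one_eq_bot, Subgroup.mem_bot]
    constructor
    · rintro (rfl | h)
      · exact one_mem _
      · have : x = y := by rw [← mul_one y, ← h]; group
        rw [this]; exact Subgroup.mem_zpowers y
    · rintro ⟨i, rfl⟩
      have hyy1 : y * y = 1 := by
        rw [hf1] at hyy
        simpa using hyy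
      simp only
      rcases Int.even_or_odd i with ⟨j, hj⟩ | ⟨j, hj⟩
      · left
        rw [hj, zpow_add, ← (Commute.refl y).mul_zpow j, hyy1, one_zpow]
      · right
        rw [hj, zpow_add, two_mul, zpow_add, ← (Commute.refl y).mul_zpow j, hyy1, one_zpow]; simp
  have hpow2 : ∀ j : ℤ, (2 : ℤ) ^ k ∣ 2 * j → (2 : ℤ) ^ (k - 1) ∣ j := by
    intro j hj
    have e : (2 : ℤ) ^ k = 2 * 2 ^ (k - 1) := by rw [← pow_succ']; congr 1; omega
    rw [e] at hj
    exact Int.dvd_of_mul_dvd_mul_left (by norm_num) hj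
  let z : G := f ^ ((2 : ℤ) ^ (k - 1))
  have hzz : z * z = 1 := by
    change f ^ ((2 : ℤ) ^ (k - 1)) * f ^ ((2 : ℤ) ^ (k - 1)) = 1
    rw [← zpow_add, hord]
    have e : (2 : ℤ) ^ k = 2 ^ (k - 1) + 2 ^ (k - 1) := by
      rw [← two_mul, ← pow_succ']; congr 1; omega
    rw [e]
  have hz1 : z ≠ 1 := by
    intro h
    rw [hord] at h
    have h2 := Int.le_of_dvd (by positivity) h
    have e : (2 : ℤ) ^ k = 2 ^ (k - 1) + 2 ^ (k - 1) := by
      rw [← two_mul, ← pow_succ']; congr 1; omega
    have h3 : (0 : ℤ) < 2 ^ (k - 1) := by positivity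
    omega
  have htwo : ∀ j : ℤ, f ^ (2 * j) = 1 → f ^ j = 1 ∨ f ^ j = z := by
    intro j hj
    rw [hord] at hj
    obtain ⟨q, hq⟩ := hpow2 j hj
    have h1 : f ^ j = z ^ q := by rw [hq, zpow_mul]
    rw [h1]
    rcases Int.even_or_odd q with ⟨r, hr⟩ | ⟨r, hr⟩
    · left
      rw [hr, zpow_add, ← (Commute.refl z).mul_zpow r, hzz, one_zpow]
    · right
      rw [hr, zpow_add, two_mul, zpow_add, ← (Commute.refl z).mul_zpow r, hzz, one_zpow]; simp
  have hzcen : ∀ g, g * z * g⁻¹ = z := by
    intro g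
    have h1 : g * z * g⁻¹ ∈ Subgroup.zpowers f := nF.conj_mem _ (hzp _) g
    obtain ⟨j, hj⟩ := Subgroup.mem_zpowers_iff.1 h1
    have h2 : f ^ (2 * j) = 1 := by
      rw [two_mul, zpow_add, hj]
      have : g * z * g⁻¹ * (g * z * g⁻¹) = g * (z * z) * g⁻¹ := by group
      rw [this, hzz]; group
    rcases htwo j h2 with h3 | h3
    · exfalso
      rw [hj] at h3
      apply hz1
      calc z = g⁻¹ * (g * z * g⁻¹) * g := by group
        _ = 1 := by rw [h3]; group
    · rw [← hj, h3]
  have hzc : ∀ g, g * z = z * g := by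
    intro g
    have := hzcen g
    calc g * z = (g * z * g⁻¹) * g := by group
      _ = z * g := by rw [this]
  -- exponents of the action of elements of Phi
  have hν : ∀ u ∈ Phi G, ∃ ν : ℤ, u⁻¹ * f * u = f ^ ν ∧ ∃ ν' : ℤ, ν + 1 = 2 * ν' ∧
      IsCoprime ν' (2 ^ k) := by
    intro u hu
    have h1 : u⁻¹ * f * u ∈ Subgroup.zpowers f := by
      have := nF.conj_mem _ hfm u⁻¹
      rwa [inv_inv] at this
    obtain ⟨ν, hν⟩ := Subgroup.mem_zpowers_iff.1 h1
    by_cases hk2 : k = 1
    · refine ⟨1, ?_, 1, by norm_num, isCoprime_one_left⟩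
      have h2 : u⁻¹ * z * u = z := by
        have := hzcen u⁻¹
        rwa [inv_inv] at this
      have h3 : z = f := by
        change f ^ ((2 : ℤ) ^ (k - 1)) = f
        rw [hk2]; simp
      rw [h3] at h2
      rw [h2, zpow_one]
    · have hk2' : 2 ≤ k := by omega
      have e4 : (2 : ℤ) ^ k = 2 ^ (k - 2) * 4 := by
        have : (4 : ℤ) = 2 ^ 2 := by norm_num
        rw [this, ← pow_add]; congr 1; omega
      have e2 : (2 : ℤ) ^ (k - 1) = 2 ^ (k - 2) * 2 := by
        rw [← pow_succ]; congr 1; omega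
      let n0 : G := f ^ ((2 : ℤ) ^ (k - 2))
      have hn0 : ∀ g, g * n0 * g⁻¹ = n0 ∨ g * n0 * g⁻¹ = n0⁻¹ := by
        intro g
        have h2 : g * f * g⁻¹ ∈ Subgroup.zpowers f := nF.conj_mem _ hfm g
        obtain ⟨μ, hμ⟩ := Subgroup.mem_zpowers_iff.1 h2
        have h3 : ∀ i : ℤ, g * f ^ i * g⁻¹ = f ^ (μ * i) := by
          intro i
          rw [← conj_zpow, ← hμ, zpow_mul]
        have hodd : Odd μ := by
          rw [← Int.not_even_iff_odd]
          rintro ⟨t, ht⟩
          have h4 : g * z * g⁻¹ = f ^ (μ * 2 ^ (k - 1)) := h3 _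
          rw [hzcen] at h4
          apply hz1
          rw [h4, hord]
          refine ⟨t, ?_⟩
          rw [ht, e4, e2]; ring
        have h5 : g * n0 * g⁻¹ = f ^ (μ * 2 ^ (k - 2)) := h3 _
        obtain ⟨t, ht⟩ := hodd
        rcases Int.even_or_odd t with ⟨s, hs⟩ | ⟨s, hs⟩
        · left
          rw [h5]
          change f ^ (μ * 2 ^ (k - 2)) = f ^ ((2 : ℤ) ^ (k - 2))
          rw [zpow_eq_zpow_iff_modEq, hk, Int.modEq_iff_dvd]
          push_cast
          refine ⟨-s, ?_⟩
          rw [ht, hs, e4]; ring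
        · right
          rw [h5]
          change f ^ (μ * 2 ^ (k - 2)) = (f ^ ((2 : ℤ) ^ (k - 2)))⁻¹
          rw [← zpow_neg, zpow_eq_zpow_iff_modEq, hk, Int.modEq_iff_dvd]
          push_cast
          refine ⟨-s - 1, ?_⟩
          rw [ht, hs, e4]; ring
      have h6 := Phi_comm hn0 u⁻¹ ((Phi G).inv_mem hu)
      rw [inv_inv] at h6
      have h7 := conj_zpow' u f ν ((2 : ℤ) ^ (k - 2)) hν.symm
      have h8 : f ^ (ν * 2 ^ (k - 2)) = f ^ ((2 : ℤ) ^ (k - 2)) := by rw [← h7]; exact h6
      rw [zpow_eq_zpow_iff_modEq, hk, Int.modEq_iff_dvd] at h8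
      push_cast at h8
      obtain ⟨q, hq⟩ := h8
      have h9 : 1 - ν = 4 * q := by
        have hp : (0 : ℤ) < 2 ^ (k - 2) := by positivity
        rw [e4] at hq
        have : (2 : ℤ) ^ (k - 2) * (1 - ν) = 2 ^ (k - 2) * (4 * q) := by linear_combination hq
        exact mul_left_cancel₀ hp.ne' this
      refine ⟨ν, hν.symm, 1 - 2 * q, by linarith, ?_⟩
      apply IsCoprime.pow_right
      rw [Int.isCoprime_two_right]
      exact ⟨-q, by ring⟩
  obtain ⟨a, ha⟩ := Subgroup.mem_zpowers_iff.1 hyy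
  have haeven : Even a := by
    rw [← Int.not_odd_iff_even]
    intro hodd
    have hco : IsCoprime a ((2 : ℤ) ^ k) := by
      apply IsCoprime.pow_right
      rw [Int.isCoprime_two_right]
      exact hodd
    obtain ⟨u, v, huv⟩ := hco
    have hfy : f ∈ Subgroup.zpowers y := by
      have : f = (y * y) ^ u := by
        rw [← ha, ← zpow_mul]
        conv_lhs => rw [← zpow_one f]
        rw [zpow_eq_zpow_iff_modEq, hk, Int.modEq_iff_dvd]
        push_cast
        exact ⟨-v, by linear_combination huv⟩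
      rw [this]
      exact Subgroup.zpow_mem _ (Subgroup.mul_mem _ (Subgroup.mem_zpowers y)
        (Subgroup.mem_zpowers y)) _
    have hle : Subgroup.zpowers f ≤ Subgroup.zpowers y := by
      rw [Subgroup.zpowers_le]; exact hfy
    apply hnotcyc y
    apply le_antisymm
    · intro x hx
      rcases (hmem x).1 hx with h | h
      · exact hle h
      · have : x = y * (y⁻¹ * x) := by group
        rw [this]
        exact Subgroup.mul_mem _ (Subgroup.mem_zpowers y) (hle h)
    · rw [Subgroup.zpowers_le]; exact hy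
  obtain ⟨a', ha'⟩ := haeven
  obtain ⟨ν, hν1, ν', hν2, u, v, huv⟩ := hν y (hF'P hy)
  let e : G := y * f ^ (-(a' * u))
  have hee : e * e = 1 := by
    have h1 : e * e = (y * y) * (y⁻¹ * f ^ (-(a' * u)) * y) * f ^ (-(a' * u)) := by
      simp only [e]; group
    rw [h1, conj_zpow' y f ν _ hν1, ← ha, ← zpow_add, ← zpow_add, hord]
    refine ⟨2 * a' * v, ?_⟩
    rw [ha']
    linear_combination (-(a' * u)) * hν2 - 2 * a' * huv
  have heF' : e ∈ F' := F'.mul_mem hy (hFF'.le (hzp _))
  have heF : e ∉ Subgroup.zpowers f := by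
    intro h
    apply hyF
    have : y = e * (f ^ (-(a' * u)))⁻¹ := by simp only [e]; group
    rw [this]
    exact Subgroup.mul_mem _ h (Subgroup.inv_mem _ (hzp _))
  have hmem' : ∀ x ∈ F', x ∈ Subgroup.zpowers f ∨ e⁻¹ * x ∈ Subgroup.zpowers f := by
    intro x hx
    rcases (hmem x).1 hx with h | h
    · exact Or.inl h
    · right
      have : e⁻¹ * x = (f ^ (-(a' * u)))⁻¹ * (y⁻¹ * x) := by simp only [e]; group
      rw [this]
      exact Subgroup.mul_mem _ (Subgroup.inv_mem _ (hzp _)) h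
  have hchar : ∀ x ∈ F', x * x = 1 → x = 1 ∨ x = z ∨ x = e ∨ x = e * z := by
    intro x hx hxx
    rcases hmem' x hx with h | h
    · obtain ⟨j, rfl⟩ := Subgroup.mem_zpowers_iff.1 h
      rw [← zpow_add, ← two_mul] at hxx
      rcases htwo j hxx with h1 | h1
      · exact Or.inl h1
      · exact Or.inr (Or.inl h1)
    · obtain ⟨j, hj⟩ := Subgroup.mem_zpowers_iff.1 h
      have hx2 : x = e * f ^ j := by rw [hj]; group
      obtain ⟨μ, hμ1, μ', hμ2, hμ3⟩ := hν e (hF'P heF')
      have h1 : f ^ (μ * j + j) = 1 := by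
        have h2 : x * x = (e * e) * (e⁻¹ * f ^ j * e) * f ^ j := by rw [hx2]; group
        rw [h2, hee, one_mul, conj_zpow' e f μ j hμ1, ← zpow_add] at hxx
        exact hxx
      rw [hord] at h1
      have h3 : (2 : ℤ) ^ k ∣ μ' * (2 * j) := by
        have : μ' * (2 * j) = μ * j + j := by linear_combination (-j) * hμ2
        rw [this]; exact h1
      have h4 : (2 : ℤ) ^ k ∣ 2 * j := hμ3.symm.dvd_of_dvd_mul_left h3
      rcases htwo j ((hord _).2 h4) with h5 | h5
      · right; right; left; rw [hx2, h5, mul_one]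
      · right; right; right; rw [hx2, h5]
  have hzF' : z ∈ F' := hFF'.le (hzp _)
  have hcomm : ∀ x y, x ∈ F' → x * x = 1 → y ∈ F' → y * y = 1 → x * y = y * x := by
    intro x y hx hxx hy hyy
    rcases hchar x hx hxx with rfl | rfl | rfl | rfl
    · simp
    · exact (hzc y).symm
    · rcases hchar y hy hyy with rfl | rfl | rfl | rfl
      · simp
      · exact hzc _
      · rfl
      · rw [mul_assoc e z e, ← hzc e]
    · rcases hchar y hy hyy with rfl | rfl | rfl | rfl
      · simp
      · exact hzc _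
      · rw [mul_assoc e z e, ← hzc e]
      · rfl
  let E : Subgroup G :=
    { carrier := {x | x ∈ F' ∧ x * x = 1}
      mul_mem' := by
        rintro x y ⟨h1, h2⟩ ⟨h3, h4⟩
        refine ⟨F'.mul_mem h1 h3, ?_⟩
        have : x * y * (x * y) = x * (y * x) * y := by group
        rw [this, ← hcomm x y h1 h2 h3 h4]
        have : x * (x * y) * y = (x * x) * (y * y) := by group
        rw [this, h2, h4, one_mul]
      one_mem' := ⟨F'.one_mem, one_mul 1⟩
      inv_mem' := by
        rintro x ⟨h1, h2⟩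
        refine ⟨F'.inv_mem h1, ?_⟩
        rw [← mul_inv_rev, h2, inv_one] }
  have hEmem : ∀ x, x ∈ E ↔ x ∈ F' ∧ x * x = 1 := fun x => Iff.rfl
  have he1 : e ≠ 1 := fun h => heF (h ▸ one_mem _)
  have hez : e ≠ z := fun h => heF (h ▸ hzp _)
  have hezF : e * z ∉ Subgroup.zpowers f := by
    intro h
    apply heF
    have : e = e * z * z⁻¹ := by group
    rw [this]
    exact Subgroup.mul_mem _ h (Subgroup.inv_mem _ (hzp _))
  have heze : e * z ≠ e := fun h => hz1 (mul_eq_left.1 h)
  refine ⟨E, ?_, fun x hx => hF'P hx.1, ?_, fun x hx => hx.2, ?_⟩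
  · constructor
    rintro x ⟨h1, h2⟩ g
    refine ⟨nF'.conj_mem _ h1 g, ?_⟩
    have : g * x * g⁻¹ * (g * x * g⁻¹) = g * (x * x) * g⁻¹ := by group
    rw [this, h2]; group
  · have hs : (E : Set G) = (({1, z, e, e * z} : Finset G) : Set G) := by
      ext x
      simp only [SetLike.mem_coe, hEmem, Finset.coe_insert, Finset.coe_singleton,
        Set.mem_insert_iff, Set.mem_singleton_iff]
      constructor
      · rintro ⟨h1, h2⟩; exact hchar x h1 h2
      · rintro (rfl | rfl | rfl | rfl)
        · exact ⟨F'.one_mem, one_mul 1⟩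
        · exact ⟨hzF', hzz⟩
        · exact ⟨heF', hee⟩
        · refine ⟨F'.mul_mem heF' hzF', ?_⟩
          have : e * z * (e * z) = e * (z * e) * z := by group
          rw [this, ← hzc e]
          have : e * (e * z) * z = (e * e) * (z * z) := by group
          rw [this, hee, hzz, one_mul]
    have h1 : Nat.card E = (E : Set G).ncard := rfl
    rw [h1, hs, Set.ncard_coe_finset]
    rw [Finset.card_insert_of_notMem, Finset.card_insert_of_notMem, Finset.card_insert_of_notMem,
      Finset.card_singleton]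
    · simp only [Finset.mem_singleton]; exact heze.symm
    · simp only [Finset.mem_insert, Finset.mem_singleton, not_or]
      exact ⟨hez.symm, fun h => hezF (h ▸ hzp _)⟩
    · simp only [Finset.mem_insert, Finset.mem_singleton, not_or]
      exact ⟨hz1.symm, he1.symm, fun h => hezF (h ▸ one_mem _)⟩
  · have hce : ∀ n ∈ Phi G, e * n = n * e := by
      intro n hn
      have h1 : ∀ g, g * e * g⁻¹ = e ∨ g * e * g⁻¹ = e * z := by
        intro g
        have h2 : g * e * g⁻¹ ∈ F' := nF'.conj_mem _ heF' g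
        have h3 : g * e * g⁻¹ * (g * e * g⁻¹) = 1 := by
          have : g * e * g⁻¹ * (g * e * g⁻¹) = g * (e * e) * g⁻¹ := by group
          rw [this, hee]; group
        rcases hchar _ h2 h3 with h4 | h4 | h4 | h4
        · exfalso; apply he1
          calc e = g⁻¹ * (g * e * g⁻¹) * g := by group
            _ = 1 := by rw [h4]; group
        · exfalso; apply hez
          calc e = g⁻¹ * (g * e * g⁻¹) * g := by group
            _ = g⁻¹ * (z * g) := by rw [h4]; group
            _ = z := by rw [← hzc]; group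
        · exact Or.inl h4
        · exact Or.inr h4
      have h2 := Phi_comm h1 n hn
      calc e * n = (n * e * n⁻¹) * n := by rw [h2]
        _ = n * e := by group
    intro n hn x hx
    rcases hchar x hx.1 hx.2 with rfl | rfl | rfl | rfl
    · simp
    · exact (hzc n).symm
    · exact hce n hn
    · calc e * z * n = e * (z * n) := by group
        _ = e * (n * z) := by rw [hzc]
        _ = (e * n) * z := by group
        _ = (n * e) * z := by rw [hce n hn]
        _ = n * (e * z) := by group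

end Pool.Agent.V8H30.ST
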