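import Pool.Agent.V8H30.ST.Grp

namespace Pool.Agent.V8H30.ST

open Classical

variable {G : Type*} [Group G]

/-- A class function: `x ↦ c x K` on the left cosets of `K ⊔ U` inside `A`, with values in `T`,
such that `x ↦ c x • x` is injective and every class is taken at most twice. -/
structure GoodC (A U : Subgroup G) (T : Set G) (K : Subgroup G) (c : G → G) : Prop where
  memT : ∀ x ∈ A, c x ∈ T
  wd : ∀ x ∈ A, ∀ y ∈ A, x⁻¹ * y ∈ K ⊔ U → (c x)⁻¹ * c y ∈ K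
  inj : ∀ x ∈ A, ∀ y ∈ A, (c x * x)⁻¹ * (c y * y) ∈ K ⊔ U → x⁻¹ * y ∈ K ⊔ U
  two : ∀ x ∈ A, ∀ y ∈ A, ∀ w ∈ A, (c x)⁻¹ * c y ∈ K → (c x)⁻¹ * c w ∈ K →
    x⁻¹ * y ∈ K ⊔ U ∨ x⁻¹ * w ∈ K ⊔ U ∨ y⁻¹ * w ∈ K ⊔ U

theorem mem_sup_step {U K K' : Subgroup G} [K.Normal] [K'.Normal] {z : G}
    (hK' : ∀ g, g ∈ K' ↔ g ∈ K ∨ z⁻¹ * g ∈ K) {h : G} (hh : h ∈ K' ⊔ U) :
    h ∈ K ⊔ U ∨ z⁻¹ * h ∈ K ⊔ U := by
  rw [Subgroup.mem_sup_of_normal_left] at hh
  obtain ⟨k, hk, u, hu, rfl⟩ := hh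
  rcases (hK' k).1 hk with h1 | h1
  · left; exact Subgroup.mul_mem_sup h1 hu
  · right
    rw [← mul_assoc]
    exact Subgroup.mul_mem_sup h1 hu

/-- The lifting step. -/
theorem GoodC.lift {A U K K' : Subgroup G} [hKn : K.Normal] [hKn' : K'.Normal] {T : Set G}
    {c' : G → G} (hc : GoodC A U T K' c') {z : G} (hz : z ∈ K') (hzK : z ∉ K)
    (hK' : ∀ g, g ∈ K' ↔ g ∈ K ∨ z⁻¹ * g ∈ K) (hK'A : K' ≤ A) (hUA : U ≤ A)
    (hT : ∀ t ∈ T, ∀ k ∈ K', t * k ∈ T) :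
    ∃ c : G → G, GoodC A U T K c ∧ ∀ x ∈ A, ∀ y ∈ A, x⁻¹ * y ∈ K' ⊔ U → c x = c y := by
  have hKK' : K ≤ K' := fun g hg => (hK' g).2 (Or.inl hg)
  have hLA : K' ⊔ U ≤ A := sup_le hK'A hUA
  let q : G → G ⧸ (K' ⊔ U) := fun x => QuotientGroup.mk x
  have hq : ∀ x y, q x = q y ↔ x⁻¹ * y ∈ K' ⊔ U := fun x y => QuotientGroup.eq
  let r : G → G := fun x => (q x).out
  have hr : ∀ x, ∃ h ∈ K' ⊔ U, r x = x * h := by
    intro x
    obtain ⟨h, hh⟩ := QuotientGroup.mk_out_eq_mul (K' ⊔ U) x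
    exact ⟨h, h.2, hh⟩
  have hrA : ∀ x ∈ A, r x ∈ A := by
    intro x hx
    obtain ⟨h, hh, e⟩ := hr x
    rw [e]; exact A.mul_mem hx (hLA hh)
  have hqr : ∀ x, q (r x) = q x := by
    intro x
    change (QuotientGroup.mk ((q x).out) : G ⧸ (K' ⊔ U)) = q x
    simp
  let d : G → G := fun x => c' (r x)
  let κ : G → G ⧸ K' := fun x => QuotientGroup.mk (d x)
  have hκ : ∀ x y, κ x = κ y ↔ (d x)⁻¹ * d y ∈ K' := fun x y => QuotientGroup.eq
  have hdq : ∀ x y, q x = q y → d x = d y := by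
    intro x y h
    change c' ((q x).out) = c' ((q y).out)
    rw [h]
  let P : G ⧸ K' → Prop := fun k => ∃ x ∈ A, κ x = k
  let ch : G ⧸ K' → G := fun k => if h : P k then h.choose else 1
  have hch : ∀ x ∈ A, ch (κ x) ∈ A ∧ κ (ch (κ x)) = κ x := by
    intro x hx
    have h : P (κ x) := ⟨x, hx, rfl⟩
    have h2 : ch (κ x) = h.choose := dif_pos h
    rw [h2]
    exact h.choose_spec
  let s : G → Prop := fun x => q x = q (ch (κ x))
  let ρ : G → G := fun x => (κ x).out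
  have hρ : ∀ x, ∃ k ∈ K', ρ x = d x * k := by
    intro x
    obtain ⟨h, hh⟩ := QuotientGroup.mk_out_eq_mul K' (d x)
    exact ⟨h, h.2, hh⟩
  let c : G → G := fun x => if s x then ρ x else ρ x * z
  have hcd : ∀ x, ∃ k ∈ K', c x = d x * k := by
    intro x
    obtain ⟨k, hk, e⟩ := hρ x
    by_cases h : s x
    · exact ⟨k, hk, by simp only [c, if_pos h, e]⟩
    · exact ⟨k * z, K'.mul_mem hk hz, by simp only [c, if_neg h, e, mul_assoc]⟩
  have hcq : ∀ x y, q x = q y → c x = c y := by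
    intro x y h
    have h1 := hdq x y h
    have h2 : κ x = κ y := by simp only [κ, h1]
    simp only [c, s, ρ, h2, h]
  have hf3 : ∀ x y, (c x)⁻¹ * c y ∈ K → κ x = κ y ∧ (s x ↔ s y) := by
    intro x y h
    have hk : κ x = κ y := by
      rw [hκ]
      obtain ⟨k, hk, e⟩ := hcd x
      obtain ⟨k', hk', e'⟩ := hcd y
      rw [e, e'] at h
      have : (d x)⁻¹ * d y = k * ((d x * k)⁻¹ * (d y * k')) * k'⁻¹ := by group
      rw [this]
      exact K'.mul_mem (K'.mul_mem hk (hKK' h)) (K'.inv_mem hk')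
    refine ⟨hk, ?_⟩
    have hρe : ρ x = ρ y := by simp only [ρ, hk]
    by_cases hx : s x <;> by_cases hy : s y
    · simp [hx, hy]
    · exfalso
      simp only [c, if_pos hx, if_neg hy, hρe] at h
      apply hzK
      simpa using h
    · exfalso
      simp only [c, if_pos hy, if_neg hx, hρe] at h
      apply hzK
      have : z = ((ρ y * z)⁻¹ * ρ y)⁻¹ := by group
      rw [this]; exact K.inv_mem h
    · simp [hx, hy]
  have hf4 : ∀ x ∈ A, ∀ y ∈ A, κ x = κ y → (s x ↔ s y) → q x = q y := by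
    intro x hx y hy hk hs
    by_cases h : s x
    · have h' := hs.1 h
      change q x = q (ch (κ x)) at h
      change q y = q (ch (κ y)) at h'
      rw [h, h', hk]
    · have h' : ¬ s y := fun hh => h (hs.2 hh)
      by_contra hne
      obtain ⟨hw, hwk⟩ := hch x hx
      have k1 : (c' (r x))⁻¹ * c' (r y) ∈ K' := (hκ x y).1 hk
      have k2 : (c' (r x))⁻¹ * c' (r (ch (κ x))) ∈ K' := (hκ _ _).1 hwk.symm
      have t1 : ∀ a b, (r a)⁻¹ * r b ∈ K' ⊔ U → q a = q b := by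
        intro a b hab
        rw [← hqr a, ← hqr b]
        exact (hq _ _).2 hab
      rcases hc.two _ (hrA x hx) _ (hrA y hy) _ (hrA _ hw) k1 k2 with h1 | h1 | h1
      · exact hne (t1 _ _ h1)
      · exact h (t1 _ _ h1)
      · apply h'
        change q y = q (ch (κ y))
        rw [← hk]
        exact t1 _ _ h1
  have hKU : K ⊔ U ≤ K' ⊔ U := sup_le_sup_right hKK' U
  refine ⟨c, ⟨?_, ?_, ?_, ?_⟩, ?_⟩
  · intro x hx
    obtain ⟨k, hk, e⟩ := hcd x
    rw [e]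
    exact hT _ (hc.memT _ (hrA x hx)) _ hk
  · intro x _ y _ h
    rw [hcq x y ((hq x y).2 (hKU h))]
    simpa using K.one_mem
  · intro x hx y hy h
    have hqq : q x = q y := by
      have h0 : ∀ x, (c x * x)⁻¹ * (d x * r x) ∈ K' ⊔ U := by
        intro x
        obtain ⟨k, hk, e⟩ := hcd x
        obtain ⟨l, hl, e'⟩ := hr x
        rw [e, e']
        have : (d x * k * x)⁻¹ * (d x * (x * l)) = (x⁻¹ * k⁻¹ * x⁻¹⁻¹) * l := by group
        rw [this]
        exact (K' ⊔ U).mul_mem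
          ((le_sup_left : K' ≤ K' ⊔ U) (hKn'.conj_mem _ (K'.inv_mem hk) _)) hl
      have h1 : (d x * r x)⁻¹ * (d y * r y) ∈ K' ⊔ U := by
        have : (d x * r x)⁻¹ * (d y * r y) = ((c x * x)⁻¹ * (d x * r x))⁻¹ *
            ((c x * x)⁻¹ * (c y * y)) * ((c y * y)⁻¹ * (d y * r y)) := by group
        rw [this]
        exact (K' ⊔ U).mul_mem ((K' ⊔ U).mul_mem ((K' ⊔ U).inv_mem (h0 x)) (hKU h)) (h0 y)
      have h2 := hc.inj _ (hrA x hx) _ (hrA y hy) h1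
      rw [← hqr x, ← hqr y]
      exact (hq _ _).2 h2
    rw [hcq x y hqq] at h
    have : x⁻¹ * y = (c y * x)⁻¹ * (c y * y) := by group
    rw [this]; exact h
  · intro x hx y hy w hw h1 h2
    obtain ⟨a1, a2⟩ := hf3 _ _ h1
    obtain ⟨b1, b2⟩ := hf3 _ _ h2
    have e1 := (hq _ _).1 (hf4 x hx y hy a1 a2)
    have e2 := (hq _ _).1 (hf4 x hx w hw b1 b2)
    rcases mem_sup_step hK' e1 with g1 | g1
    · exact Or.inl g1
    · rcases mem_sup_step hK' e2 with g2 | g2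
      · exact Or.inr (Or.inl g2)
      · right; right
        have : y⁻¹ * w = (z⁻¹ * (x⁻¹ * y))⁻¹ * (z⁻¹ * (x⁻¹ * w)) := by group
        rw [this]
        exact (K ⊔ U).mul_mem ((K ⊔ U).inv_mem g1) g2
  · intro x _ y _ h
    exact hcq x y ((hq x y).2 h)

/-- Descending along a chief series. -/
theorem GoodC.down [Finite G] (hG : IsPGroup 2 G) {A U M : Subgroup G} (hM : M.Normal)
    {T : Set G} {c₀ : G → G} (hc : GoodC A U T M c₀) (hMA : M ≤ A) (hUA : U ≤ A)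
    (hT : ∀ t ∈ T, ∀ k ∈ M, t * k ∈ T) :
    ∀ n : ℕ, ∀ K : Subgroup G, K.index = n → K.Normal → K ≤ M → ∃ c, GoodC A U T K c := by
  intro n
  induction n using Nat.strong_induction_on with
  | _ n ih =>
    intro K hn hK hKM
    rcases eq_or_lt_of_le hKM with rfl | hlt
    · exact ⟨c₀, hc⟩
    · obtain ⟨K', hK'n, hKK', hK'M, z, hz, hzK, -, hmem, -⟩ := exists_step hG K M hlt
      have hidx : K'.index < n := by
        rw [← hn]
        exact Subgroup.index_strictAnti hKK'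
      obtain ⟨c', hc'⟩ := ih _ hidx K' rfl hK'n hK'M
      obtain ⟨c, h1, -⟩ := hc'.lift hz hzK hmem (hK'M.trans hMA) hUA
        (fun t ht k hk => hT t ht k (hK'M hk))
      exact ⟨c, h1⟩

end Pool.Agent.V8H30.ST
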