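import Pool.Agent.V8H30.ST.Good

namespace Pool.Agent.V8H30.ST

open Classical

variable {G : Type*} [Group G]

theorem index_two_three {A : Subgroup G} (hA : A.index = 2) (x y w : G) :
    x⁻¹ * y ∈ A ∨ x⁻¹ * w ∈ A ∨ y⁻¹ * w ∈ A := by
  simp only [Subgroup.mul_mem_iff_of_index_two hA, inv_mem_iff]
  by_cases h1 : x ∈ A <;> by_cases h2 : y ∈ A <;> by_cases h3 : w ∈ A <;> simp [h1, h2, h3]

/-- Class functions with values in a prescribed part of the admissible types. -/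
theorem exists_goodC [Finite G] (hG : IsPGroup 2 G) {A A₁ U : Subgroup G} (hA : A.index = 2)
    (hA₁ : A₁.index = 2) (hUA : U ≤ A) (hUA₁ : U ≤ A₁) {Tall : Set G}
    (hT1 : ∀ t ∈ Tall, ∀ k ∈ Phi G, t * k ∈ Tall)
    (hT2 : ∀ g, g ∉ A → ∃ t ∈ Tall, g⁻¹ * t ∈ Phi G ⊔ U) (b : G) (hb : b ∉ A)
    (K : Subgroup G) (hK : K.Normal) (hKP : K ≤ Phi G) :
    ∃ c, GoodC A U {t | t ∈ Tall ∧ b⁻¹ * t ∈ A ⊓ A₁} K c := by
  have hPN : Phi G ≤ A ⊓ A₁ := le_inf (Phi_le hA) (Phi_le hA₁)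
  have hUN : U ≤ A ⊓ A₁ := le_inf hUA hUA₁
  have hNn : (A ⊓ A₁).Normal := normal_of_sq (sq_mem_of_Phi_le hPN)
  -- phase one
  have base : GoodC A U {t | b⁻¹ * t ∈ A ⊓ A₁} (A ⊓ A₁) (fun _ => b) := by
    have e : (A ⊓ A₁) ⊔ U = A ⊓ A₁ := sup_eq_left.2 hUN
    refine ⟨?_, ?_, ?_, ?_⟩
    · intro x _; simp [one_mem]
    · intro x _ y _ _; simp [one_mem]
    · intro x _ y _ h
      have : x⁻¹ * y = (b * x)⁻¹ * (b * y) := by group
      rw [this]; exact h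
    · intro x hx y hy w hw _ _
      rw [e]
      rcases index_two_three hA₁ x y w with h | h | h
      · exact Or.inl ⟨A.mul_mem (A.inv_mem hx) hy, h⟩
      · exact Or.inr (Or.inl ⟨A.mul_mem (A.inv_mem hx) hw, h⟩)
      · exact Or.inr (Or.inr ⟨A.mul_mem (A.inv_mem hy) hw, h⟩)
  have hPUn : (Phi G ⊔ U).Normal := normal_of_sq (sq_mem_of_Phi_le le_sup_left)
  have hPUN : Phi G ⊔ U ≤ A ⊓ A₁ := sup_le hPN hUN
  obtain ⟨c, hc⟩ := base.down hG hNn inf_le_left hUA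
    (fun t ht k hk => by
      change b⁻¹ * (t * k) ∈ A ⊓ A₁
      rw [← mul_assoc]; exact (A ⊓ A₁).mul_mem ht hk) _ (Phi G ⊔ U) rfl hPUn hPUN
  -- conversion
  let q : G → G ⧸ (Phi G ⊔ U) := fun x => QuotientGroup.mk x
  let P : G ⧸ (Phi G ⊔ U) → Prop := fun k => ∃ t ∈ Tall, q t = k
  let τ : G → G := fun x => if h : P (q x) then h.choose else 1
  have hτ : ∀ x, x ∉ A → τ x ∈ Tall ∧ q (τ x) = q x := by
    intro x hx
    obtain ⟨t, ht, hxt⟩ := hT2 x hx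
    have h : P (q x) := ⟨t, ht, (QuotientGroup.eq.2 hxt).symm⟩
    have h2 : τ x = h.choose := dif_pos h
    rw [h2]
    exact h.choose_spec
  have hτq : ∀ x y, q x = q y → τ x = τ y := by
    intro x y h
    simp only [τ, h]
  have hcA : ∀ x ∈ A, c x ∉ A := by
    intro x hx hcx
    have h1 : b⁻¹ * c x ∈ A ⊓ A₁ := hc.memT x hx
    apply hb
    have : b = c x * (b⁻¹ * c x)⁻¹ := by group
    rw [this]; exact A.mul_mem hcx (A.inv_mem h1.1)
  have e : Phi G ⊔ U ⊔ U = Phi G ⊔ U := by rw [sup_assoc, sup_idem]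
  have key : ∀ x ∈ A, (c x)⁻¹ * τ (c x) ∈ Phi G ⊔ U := fun x hx =>
    QuotientGroup.eq.1 (hτ _ (hcA x hx)).2.symm
  have conv : GoodC A U {t | t ∈ Tall ∧ b⁻¹ * t ∈ A ⊓ A₁} (Phi G) (fun x => τ (c x)) := by
    refine ⟨?_, ?_, ?_, ?_⟩
    · intro x hx
      refine ⟨(hτ _ (hcA x hx)).1, ?_⟩
      have h1 : b⁻¹ * c x ∈ A ⊓ A₁ := hc.memT x hx
      have : b⁻¹ * τ (c x) = (b⁻¹ * c x) * ((c x)⁻¹ * τ (c x)) := by group
      rw [this]
      exact (A ⊓ A₁).mul_mem h1 (hPUN (key x hx))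
    · intro x hx y hy h
      have h1 : (c x)⁻¹ * c y ∈ Phi G ⊔ U := hc.wd x hx y hy (by rw [e]; exact h)
      have h2 : τ (c x) = τ (c y) := hτq _ _ (QuotientGroup.eq.2 h1)
      simp only [h2]
      simp [one_mem]
    · intro x hx y hy h
      have h1 : (c x * x)⁻¹ * (c y * y) ∈ Phi G ⊔ U := by
        have : (c x * x)⁻¹ * (c y * y) =
            (x⁻¹ * ((c x)⁻¹ * τ (c x)) * x⁻¹⁻¹) * ((τ (c x) * x)⁻¹ * (τ (c y) * y)) *
              (y⁻¹ * ((c y)⁻¹ * τ (c y))⁻¹ * y⁻¹⁻¹) := by group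
        rw [this]
        exact (Phi G ⊔ U).mul_mem ((Phi G ⊔ U).mul_mem (hPUn.conj_mem _ (key x hx) _) h)
          (hPUn.conj_mem _ ((Phi G ⊔ U).inv_mem (key y hy)) _)
      have h2 := hc.inj x hx y hy (by rw [e]; exact h1)
      rw [e] at h2; exact h2
    · intro x hx y hy w hw h1 h2
      have t : ∀ y ∈ A, (τ (c x))⁻¹ * τ (c y) ∈ Phi G → (c x)⁻¹ * c y ∈ Phi G ⊔ U := by
        intro y hy h
        have : (c x)⁻¹ * c y = ((c x)⁻¹ * τ (c x)) * ((τ (c x))⁻¹ * τ (c y)) *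
            ((c y)⁻¹ * τ (c y))⁻¹ := by group
        rw [this]
        exact (Phi G ⊔ U).mul_mem ((Phi G ⊔ U).mul_mem (key x hx) (le_sup_left (a := Phi G) h))
          ((Phi G ⊔ U).inv_mem (key y hy))
      have h3 := hc.two x hx y hy w hw (t y hy h1) (t w hw h2)
      rw [e] at h3; exact h3
  -- phase two
  exact conv.down hG Phi_normal (Phi_le hA) hUA
    (fun t ht k hk => ⟨hT1 t ht.1 k hk, by
      rw [← mul_assoc]; exact (A ⊓ A₁).mul_mem ht.2 (hPN hk)⟩) _ K rfl hK hKP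

end Pool.Agent.V8H30.ST
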