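import Pool.Agent.V8H30.ST.Basic
import Pool.Agent.V8H30.ST.Good2

namespace Pool.Agent.V8H30.ST

open Classical

variable {G : Type*} [Group G]

theorem card_le_two_of {X : Type*} (S : Finset X)
    (h : ∀ x ∈ S, ∀ y ∈ S, ∀ w ∈ S, x = y ∨ x = w ∨ y = w) : S.card ≤ 2 := by
  by_contra hcon
  push Not at hcon
  obtain ⟨a, ha, b, hb, c, hc, h1, h2, h3⟩ := Finset.two_lt_card.1 hcon
  rcases h a ha b hb c hc with h | h | h
  · exact h1 h
  · exact h2 h
  · exact h3 h

/-- Sequential choice of distinct labels. -/
theorem greedy [Finite G] {X : Type*} [Finite X] {K : Subgroup G} [K.Normal] (D : Set G)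
    (κ : X → G ⧸ K) (h2 : ∀ x y w, κ x = κ y → κ x = κ w → x = y ∨ x = w ∨ y = w)
    (h4 : ∀ x, 4 ≤ {g : G | (QuotientGroup.mk g : G ⧸ K) = κ x ∧ g ∉ D}.ncard)
    (hsq : ∀ x, ∀ g : G, (QuotientGroup.mk g : G ⧸ K) = κ x → g * g ≠ 1) :
    ∃ f : X → G, (∀ x, (QuotientGroup.mk (f x) : G ⧸ K) = κ x ∧ f x ∉ D) ∧
      Function.Injective f ∧ ∀ x y, f x ≠ (f y)⁻¹ := by
  have : Fintype X := Fintype.ofFinite X
  have key : ∀ S : Finset X, ∃ f : X → G, (∀ x ∈ S, (QuotientGroup.mk (f x) : G ⧸ K) = κ x ∧ f x ∉ D) ∧
      (∀ x ∈ S, ∀ y ∈ S, x ≠ y → f x ≠ f y ∧ f x ≠ (f y)⁻¹) := by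
    intro S
    induction S using Finset.induction_on with
    | empty => exact ⟨fun _ => 1, by simp, by simp⟩
    | insert a S ha ih =>
      obtain ⟨f, hf1, hf2⟩ := ih
      let S1 : Finset X := S.filter (fun x => κ x = κ a)
      let S2 : Finset X := S.filter (fun x => (κ x)⁻¹ = κ a)
      let F : Finset G := S1.image f ∪ S2.image (fun x => (f x)⁻¹)
      have c1 : S1.card ≤ 1 := by
        rw [Finset.card_le_one]
        intro x hx y hy
        simp only [S1, Finset.mem_filter] at hx hy
        rcases h2 a x y hx.2.symm hy.2.symm with h | h | h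
        · exact absurd (h ▸ hx.1) ha
        · exact absurd (h ▸ hy.1) ha
        · exact h
      have c2 : S2.card ≤ 2 := by
        apply card_le_two_of
        intro x hx y hy w hw
        simp only [S2, Finset.mem_filter] at hx hy hw
        exact h2 x y w (inv_injective (hx.2.trans hy.2.symm)) (inv_injective (hx.2.trans hw.2.symm))
      have cF : F.card ≤ 3 := by
        calc F.card ≤ (S1.image f).card + (S2.image (fun x => (f x)⁻¹)).card :=
              Finset.card_union_le _ _
          _ ≤ S1.card + S2.card := Nat.add_le_add Finset.card_image_le Finset.card_image_le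
          _ ≤ 3 := by omega
      obtain ⟨h, hh, hhF⟩ : ∃ h ∈ {g : G | (QuotientGroup.mk g : G ⧸ K) = κ a ∧ g ∉ D}, h ∉ (F : Set G) := by
        by_contra hcon
        push Not at hcon
        have h1 := Set.ncard_le_ncard (s := {g : G | (QuotientGroup.mk g : G ⧸ K) = κ a ∧ g ∉ D})
          (t := (F : Set G)) hcon (Set.toFinite _)
        rw [Set.ncard_coe_finset] at h1
        have := h4 a
        omega
      refine ⟨Function.update f a h, ?_, ?_⟩
      · intro x hx
        rcases Finset.mem_insert.1 hx with rfl | hx
        · simpa using hh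
        · have hxa : x ≠ a := fun e => ha (e ▸ hx)
          rw [Function.update_of_ne hxa]
          exact hf1 x hx
      · have hnew : ∀ x ∈ S, h ≠ f x ∧ h ≠ (f x)⁻¹ := by
          intro x hx
          constructor
          · rintro rfl
            apply hhF
            simp only [F, Finset.coe_union, Finset.coe_image, Set.mem_union]
            left
            refine ⟨x, ?_, rfl⟩
            simp only [S1, Finset.coe_filter, Set.mem_ofPred_eq]
            exact ⟨hx, (hf1 x hx).1.symm.trans hh.1⟩
          · rintro rfl
            apply hhF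
            simp only [F, Finset.coe_union, Finset.coe_image, Set.mem_union]
            right
            refine ⟨x, ?_, rfl⟩
            simp only [S2, Finset.coe_filter, Set.mem_ofPred_eq]
            refine ⟨hx, ?_⟩
            rw [← hh.1, ← (hf1 x hx).1]
            rfl
        intro x hx0 y hy0 hxy
        rcases Finset.mem_insert.1 hx0 with hxe | hx
        · rcases Finset.mem_insert.1 hy0 with hye | hy
          · exact absurd (hxe.trans hye.symm) hxy
          · have hya : y ≠ a := fun e => ha (e ▸ hy)
            rw [hxe, Function.update_self, Function.update_of_ne hya]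
            exact hnew y hy
        · have hxa : x ≠ a := fun e => ha (e ▸ hx)
          rcases Finset.mem_insert.1 hy0 with hye | hy
          · rw [hye, Function.update_self, Function.update_of_ne hxa]
            refine ⟨(hnew x hx).1.symm, fun e => (hnew x hx).2 ?_⟩
            rw [e, inv_inv]
          · have hya : y ≠ a := fun e => ha (e ▸ hy)
            rw [Function.update_of_ne hxa, Function.update_of_ne hya]
            exact hf2 x hx y hy hxy
  obtain ⟨f, hf1, hf2⟩ := key Finset.univ
  refine ⟨f, fun x => hf1 x (Finset.mem_univ _), ?_, ?_⟩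
  · intro x y hxy
    by_contra hne
    exact (hf2 x (Finset.mem_univ _) y (Finset.mem_univ _) hne).1 hxy
  · intro x y hxy
    by_cases hne : x = y
    · subst hne
      apply hsq x (f x) (hf1 x (Finset.mem_univ _)).1
      nth_rewrite 2 [hxy]
      simp
    · exact (hf2 x (Finset.mem_univ _) y (Finset.mem_univ _) hne).2 hxy

end Pool.Agent.V8H30.ST
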