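import Pool.Agent.V8H30.ST.Chain
import Pool.Agent.V8H30.ST.ExE

namespace Pool.Agent.V8H30.ST

open Classical

variable {G : Type*} [Group G]

theorem isCyclic_Phi_of_le {R : Subgroup G} (hR : IsCyclic R) (h : Phi G ≤ R) :
    IsCyclic (Phi G) := by
  have := Subgroup.isCyclic_of_le h
  exact this

/-- If `u`, `v` are involutions generating `G`, every subgroup of index two contains ... -/
theorem dihedral_Phi {u v : G} (hu : u * u = 1) (hv : v * v = 1)
    (hgen : Subgroup.closure {u, v} = ⊤) : IsCyclic (Phi G) := by
  let R : Subgroup G := Subgroup.zpowers (u * v)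
  have hui : u⁻¹ = u := inv_eq_of_mul_eq_one_left hu
  have hvi : v⁻¹ = v := inv_eq_of_mul_eq_one_left hv
  have hconj : ∀ x ∈ R, u * x * u⁻¹ ∈ R := by
    intro x hx
    obtain ⟨i, rfl⟩ := Subgroup.mem_zpowers_iff.1 hx
    rw [← conj_zpow]
    have : u * (u * v) * u⁻¹ = (u * v)⁻¹ := by
      rw [mul_inv_rev, hui, hvi]
      calc u * (u * v) * u = (u * u) * (v * u) := by group
        _ = v * u := by rw [hu, one_mul]
    rw [this]
    exact Subgroup.zpow_mem _ (Subgroup.inv_mem _ (Subgroup.mem_zpowers _)) _
  let B : Subgroup G :=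
    { carrier := {g | g ∈ R ∨ u⁻¹ * g ∈ R}
      mul_mem' := by
        rintro a b (ha | ha) (hb | hb)
        · exact Or.inl (R.mul_mem ha hb)
        · right
          have : u⁻¹ * (a * b) = (u * a * u⁻¹) * (u⁻¹ * b) := by
            rw [hui]
            calc u * (a * b) = u * a * (u * u) * b := by rw [hu]; group
              _ = u * a * u * (u * b) := by group
          rw [this]
          exact R.mul_mem (hconj _ ha) hb
        · right
          rw [← mul_assoc]
          exact R.mul_mem ha hb
        · left
          have : a * b = (u * (u⁻¹ * a) * u⁻¹) * (u⁻¹ * b) := by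
            rw [hui]
            calc a * b = (u * u) * a * (u * u) * b := by rw [hu]; group
              _ = u * (u * a) * u * (u * b) := by group
          rw [this]
          exact R.mul_mem (hconj _ ha) hb
      one_mem' := Or.inl R.one_mem
      inv_mem' := by
        rintro a (ha | ha)
        · exact Or.inl (R.inv_mem ha)
        · right
          have : u⁻¹ * a⁻¹ = u * (u⁻¹ * a)⁻¹ * u⁻¹ := by
            rw [hui, mul_inv_rev, hui]
            calc u * a⁻¹ = u * a⁻¹ * (u * u) := by rw [hu]; group
              _ = u * (a⁻¹ * u) * u := by group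
          rw [this]
          exact hconj _ (R.inv_mem ha) }
  have hB : B = ⊤ := by
    rw [eq_top_iff, ← hgen, Subgroup.closure_le]
    rintro x (rfl | hx)
    · right; rw [inv_mul_cancel]; exact R.one_mem
    · rw [Set.mem_singleton_iff] at hx
      right
      rw [hx, hui]; exact Subgroup.mem_zpowers _
  have hall : ∀ g : G, g ∈ R ∨ u⁻¹ * g ∈ R := fun g => by
    have : g ∈ B := by rw [hB]; trivial
    exact this
  have hle : Phi G ≤ R := by
    by_cases huR : u ∈ R
    · intro g _
      rcases hall g with h | h
      · exact h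
      · have : g = u * (u⁻¹ * g) := by group
        rw [this]; exact R.mul_mem huR h
    · apply Phi_le
      rw [Subgroup.index_eq_two_iff']
      refine ⟨u⁻¹, fun b => ?_⟩
      by_cases hb : b ∈ R
      · right
        refine ⟨hb, fun h => huR ?_⟩
        have : u = b * (u⁻¹ * b)⁻¹ := by group
        rw [this]; exact R.mul_mem hb (R.inv_mem h)
      · left; exact ⟨(hall b).resolve_left hb, hb⟩
  exact isCyclic_Phi_of_le inferInstance hle

theorem noncyclic_case [Finite G] (hG : IsPGroup 2 G) (hnc : ¬ IsCyclic (Phi G)) :
    ∃ D : Set G, Cov D ∧ ∀ n ∈ Phi G, n * n ≠ 1 → n ∈ D := by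
  obtain ⟨E, nE, hEP, hE4, hE2, hEc⟩ := exists_E hG hnc
  let S : Subgroup G := Subgroup.closure {x : G | x * x = 1} ⊔ Phi G
  have hinv : ∀ x : G, x * x = 1 → x ∈ S := fun x hx =>
    (le_sup_left : _ ≤ S) (Subgroup.subset_closure hx)
  by_cases hS : S = ⊤
  · -- Case II
    have hgen : Subgroup.closure {x : G | x * x = 1} = ⊤ := by
      by_contra hne
      obtain ⟨A, hA, hle⟩ := exists_index_two hG _ hne
      have h1 : S ≤ A := sup_le hle (Phi_le hA)
      rw [hS, top_le_iff] at h1
      rw [h1] at hA
      simp at hA
    -- a maximal normal subgroup below Phi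
    have hPbot : Phi G ≠ ⊥ := by
      intro h
      apply hnc
      rw [h]; infer_instance
    obtain ⟨K₁, hK₁⟩ := Set.Finite.exists_maximal
      (s := {F : Subgroup G | F.Normal ∧ F < Phi G}) (Set.toFinite _)
      ⟨⊥, Subgroup.normal_bot, bot_lt_iff_ne_bot.2 hPbot⟩
    obtain ⟨⟨nK₁, hK₁P⟩, hmax⟩ := hK₁
    obtain ⟨K', nK', hK₁K', hK'P, z, hz, hzK, hzz, hmem, hcen⟩ := exists_step hG K₁ (Phi G) hK₁P
    have hK' : K' = Phi G := by
      by_contra hne
      have := hmax ⟨nK', lt_of_le_of_ne hK'P hne⟩ hK₁K'.le
      exact absurd hK₁K' (not_lt_of_ge this)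
    rw [hK'] at hmem hz
    let Q := G ⧸ K₁
    let π : G →* Q := QuotientGroup.mk' K₁
    have hπ : ∀ x, π x = 1 ↔ x ∈ K₁ := fun x => QuotientGroup.eq_one_iff x
    let ζ : Q := π z
    have hζ1 : ζ ≠ 1 := fun h => hzK ((hπ z).1 h)
    have hζ2 : ζ * ζ = 1 := by
      change π z * π z = 1
      rw [← map_mul, hπ]; exact hzz
    have hζc : ∀ g, ζ * π g = π g * ζ := by
      intro g
      have h1 := (hπ _).2 (hcen g)
      simp only [map_mul, map_inv] at h1
      have h2 : π z * π g = π g * π z := by
        calc π z * π g = π z * π g * ((π g)⁻¹ * (π z)⁻¹ * π g * π z) := by rw [h1, mul_one]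
          _ = π g * π z := by group
      exact h2
    have hπP : ∀ n ∈ Phi G, π n = 1 ∨ π n = ζ := by
      intro n hn
      rcases (hmem n).1 hn with h | h
      · exact Or.inl ((hπ n).2 h)
      · right
        have h1 := (hπ _).2 h
        rw [map_mul, map_inv] at h1
        exact (inv_mul_eq_one.1 h1).symm
    have hcm : ∀ a b, π a * π b = π b * π a ∨ π a * π b = ζ * (π b * π a) := by
      intro a b
      have h1 := comm_mem_of_sq (K := Phi G) sq_mem_Phi a b
      rcases hπP _ h1 with h | h
      · left
        simp only [map_mul, map_inv] at h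
        calc π a * π b = (π a * π b * (π a)⁻¹ * (π b)⁻¹) * (π b * π a) := by group
          _ = π b * π a := by rw [h, one_mul]
      · right
        simp only [map_mul, map_inv] at h
        calc π a * π b = (π a * π b * (π a)⁻¹ * (π b)⁻¹) * (π b * π a) := by group
          _ = ζ * (π b * π a) := by rw [h]
    -- a non-central involution
    obtain ⟨u, hu, g₀, hg₀⟩ : ∃ u : G, u * u = 1 ∧ ∃ g, π u * π g ≠ π g * π u := by
      by_contra hcon
      push Not at hcon
      have hall : ∀ x : G, (∀ g, π x * π g = π g * π x) ∧ π x * π x = 1 := by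
        intro x
        have hx : x ∈ Subgroup.closure {x : G | x * x = 1} := by rw [hgen]; trivial
        induction hx using Subgroup.closure_induction with
        | mem y hy =>
          refine ⟨hcon y hy, ?_⟩
          rw [← map_mul, hy, map_one]
        | one => simp
        | mul a b _ _ ha hb =>
          refine ⟨fun g => ?_, ?_⟩
          · rw [map_mul, mul_assoc, hb.1 g, ← mul_assoc, ha.1 g, mul_assoc]
          · rw [map_mul]
            calc π a * π b * (π a * π b) = π a * (π b * π a) * π b := by group
              _ = π a * (π a * π b) * π b := by rw [hb.1 a]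
              _ = (π a * π a) * (π b * π b) := by group
              _ = 1 := by rw [ha.2, hb.2, one_mul]
        | inv a _ ha =>
          refine ⟨fun g => ?_, ?_⟩
          · rw [map_inv]
            calc (π a)⁻¹ * π g = (π a)⁻¹ * (π g * π a) * (π a)⁻¹ := by group
              _ = (π a)⁻¹ * (π a * π g) * (π a)⁻¹ := by rw [ha.1 g]
              _ = π g * (π a)⁻¹ := by group
          · rw [map_inv, ← mul_inv_rev, ha.2, inv_one]
      obtain ⟨L, -, -, hzL, hL⟩ := exists_half ⊤ K₁ z le_top (fun y _ => by
        have := (hall y).2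
        rw [← map_mul, hπ] at this; exact this) hzK
      have hLi : L.index = 2 := by
        rw [Subgroup.index_eq_two_iff']
        refine ⟨z⁻¹, fun b => ?_⟩
        by_cases hb : b ∈ L
        · right
          refine ⟨hb, fun h => hzL ?_⟩
          have : z = b * (z⁻¹ * b)⁻¹ := by group
          rw [this]; exact L.mul_mem hb (L.inv_mem h)
        · left; exact ⟨(hL b trivial).resolve_left hb, hb⟩
      exact hzL (Phi_le hLi hz)
    let A : Subgroup G :=
      { carrier := {g | π u * π g = π g * π u}
        mul_mem' := by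
          intro a b ha hb
          have ha' : π u * π a = π a * π u := ha
          have hb' : π u * π b = π b * π u := hb
          change π u * π (a * b) = π (a * b) * π u
          rw [map_mul, ← mul_assoc, ha', mul_assoc, hb', mul_assoc]
        one_mem' := by
          change π u * π 1 = π 1 * π u
          simp
        inv_mem' := by
          intro a ha
          have ha' : π u * π a = π a * π u := ha
          change π u * π a⁻¹ = π a⁻¹ * π u
          rw [map_inv]
          calc π u * (π a)⁻¹ = (π a)⁻¹ * (π a * π u) * (π a)⁻¹ := by group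
            _ = (π a)⁻¹ * (π u * π a) * (π a)⁻¹ := by rw [ha']
            _ = (π a)⁻¹ * π u := by group }
    have hAmem : ∀ g, g ∈ A ↔ π u * π g = π g * π u := fun g => Iff.rfl
    have hAn : ∀ g, g ∉ A → π u * π g = ζ * (π g * π u) := fun g hg =>
      (hcm u g).resolve_left hg
    have hAi : A.index = 2 := by
      rw [Subgroup.index_eq_two_iff]
      refine ⟨g₀, fun b => ?_⟩
      by_cases hb : b ∈ A
      · right
        refine ⟨hb, fun h => hg₀ ?_⟩
        rw [← hAmem]
        have : g₀ = b⁻¹ * (b * g₀) := by group
        rw [this]; exact A.mul_mem (A.inv_mem hb) h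
      · left
        refine ⟨?_, hb⟩
        rw [hAmem, map_mul]
        have h1 := hAn b hb
        have h2 := hAn g₀ hg₀
        calc π u * (π b * π g₀) = (π u * π b) * π g₀ := by group
          _ = ζ * (π b * π u) * π g₀ := by rw [h1]
          _ = ζ * π b * (π u * π g₀) := by group
          _ = ζ * π b * (ζ * (π g₀ * π u)) := by rw [h2]
          _ = (ζ * (π b * ζ)) * (π g₀ * π u) := by group
          _ = (ζ * (ζ * π b)) * (π g₀ * π u) := by rw [hζc b]
          _ = (ζ * ζ) * (π b * π g₀ * π u) := by group
          _ = π b * π g₀ * π u := by rw [hζ2, one_mul]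
    have huA : u ∈ A := by rw [hAmem]
    have hUmem : ∀ x ∈ Subgroup.zpowers u, x = 1 ∨ x = u := by
      intro x hx
      obtain ⟨i, rfl⟩ := Subgroup.mem_zpowers_iff.1 hx
      rcases Int.even_or_odd i with ⟨j, hj⟩ | ⟨j, hj⟩
      · left; rw [hj, zpow_add, ← (Commute.refl u).mul_zpow j, hu, one_zpow]
      · right
        rw [hj, zpow_add, two_mul, zpow_add, ← (Commute.refl u).mul_zpow j, hu, one_zpow]; simp
    have huP : u ∉ Phi G := by
      intro h
      apply hg₀
      rcases hπP u h with h1 | h1
      · rw [h1, one_mul, mul_one]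
      · rw [h1, hζc]
    obtain ⟨v, hv, hvA⟩ : ∃ v : G, v * v = 1 ∧ v ∉ A := by
      by_contra hcon
      push Not at hcon
      have h1 : Subgroup.closure {x : G | x * x = 1} ≤ A := by
        rw [Subgroup.closure_le]; exact hcon
      rw [hgen, top_le_iff] at h1
      rw [h1] at hAi
      simp at hAi
    have hne : Subgroup.closure {u, v} ≠ ⊤ := fun h => hnc (dihedral_Phi hu hv h)
    obtain ⟨A₁, hA₁, hle⟩ := exists_index_two hG _ hne
    have huA₁ : u ∈ A₁ := hle (Subgroup.subset_closure (by simp))
    have hvA₁ : v ∈ A₁ := hle (Subgroup.subset_closure (by simp))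
    have H : Hyp A A₁ (Subgroup.zpowers u) {g | g ∉ A ∧ π g * π g ≠ 1} E := by
      refine ⟨hAi, hA₁, ?_, ?_, ?_, ?_, fun t ht => ht.1, ?_, ?_, ?_, nE, hEP, hE4, hE2, hEc⟩
      · intro h
        rw [h] at hvA
        exact hvA hvA₁
      · rw [Subgroup.zpowers_le]; exact huA
      · rw [Subgroup.zpowers_le]; exact huA₁
      · rw [eq_bot_iff]
        intro x hx
        obtain ⟨h1, h2⟩ := Subgroup.mem_inf.1 hx
        rw [Subgroup.mem_bot]
        rcases hUmem x h1 with h | h
        · exact h
        · exact absurd (h ▸ h2) huP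
      · rintro t ⟨ht1, ht2⟩ k hk
        refine ⟨fun htk => ht1 ?_, ?_⟩
        · have : t = t * k * k⁻¹ := by group
          rw [this]; exact A.mul_mem htk (A.inv_mem (Phi_le hAi hk))
        · rw [map_mul]
          rcases hπP k hk with h | h
          · rw [h, mul_one]; exact ht2
          · rw [h]
            have : π t * ζ * (π t * ζ) = π t * π t := by
              calc π t * ζ * (π t * ζ) = π t * (ζ * π t) * ζ := by group
                _ = π t * (π t * ζ) * ζ := by rw [hζc]
                _ = π t * π t * (ζ * ζ) := by group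
                _ = π t * π t := by rw [hζ2, mul_one]
            rw [this]; exact ht2
      · rintro t ⟨-, ht2⟩ h
        apply ht2
        rw [← map_mul, h, map_one]
      · intro g hg
        by_cases h : π g * π g = 1
        · refine ⟨u * g, ⟨?_, ?_⟩, ?_⟩
          · rw [Subgroup.mul_mem_iff_of_index_two hAi]
            simp [huA, hg]
          · rw [map_mul]
            have h1 := hAn g hg
            have hu' : π u * π u = 1 := by rw [← map_mul, hu, map_one]
            have : π u * π g * (π u * π g) = ζ := by
              calc π u * π g * (π u * π g) = ζ * (π g * π u) * (π u * π g) := by rw [h1]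
                _ = ζ * (π g * (π u * π u) * π g) := by group
                _ = ζ := by rw [hu', mul_one, h, mul_one]
            rw [this]; exact hζ1
          · have h1 : g⁻¹ * (u * g) = (g⁻¹ * u * g⁻¹⁻¹ * u⁻¹) * u := by group
            rw [h1]
            exact Subgroup.mul_mem_sup (comm_mem_of_sq sq_mem_Phi _ _) (Subgroup.mem_zpowers u)
        · exact ⟨g, ⟨hg, h⟩, by simp [one_mem]⟩
    exact chain_cov hG H
  · -- Case I
    obtain ⟨A, hA, hSA⟩ := exists_index_two hG S hS
    obtain ⟨A₁, hA₁, hne⟩ : ∃ A₁ : Subgroup G, A₁.index = 2 ∧ A ≠ A₁ := by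
      by_contra hcon
      push Not at hcon
      obtain ⟨g, hg⟩ : ∃ g, g ∉ A := by
        by_contra hcon'
        push Not at hcon'
        have : A = ⊤ := by ext x; simp [hcon' x]
        rw [this] at hA
        simp at hA
      have htop : Subgroup.zpowers g = ⊤ := by
        by_contra hne
        obtain ⟨B, hB, hle⟩ := exists_index_two hG _ hne
        rw [← hcon B hB] at hle
        exact hg (hle (Subgroup.mem_zpowers g))
      exact hnc (isCyclic_Phi_of_le (R := Subgroup.zpowers g) inferInstance (by rw [htop]; exact le_top))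
    have H : Hyp A A₁ ⊥ {t | t ∉ A} E := by
      refine ⟨hA, hA₁, hne, bot_le, bot_le, by simp, fun t ht => ht, ?_, ?_, ?_, nE, hEP, hE4,
        hE2, hEc⟩
      · intro t ht k hk htk
        apply ht
        have : t = t * k * k⁻¹ := by group
        rw [this]; exact A.mul_mem htk (A.inv_mem (Phi_le hA hk))
      · intro t ht h
        exact ht (hSA (hinv t h))
      · intro g hg
        exact ⟨g, hg, by simp [one_mem]⟩
    exact chain_cov hG H

end Pool.Agent.V8H30.ST
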