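import Pool.Agent.V8H30.ST.Greedy

namespace Pool.Agent.V8H30.ST

open Classical

variable {G : Type*} [Group G]

/-- Hypotheses for one step of the chief series. -/
structure StepHyp (A U K K' : Subgroup G) (z : G) : Prop where
  hA : A.index = 2
  hUA : U ≤ A
  nK : K.Normal
  nK' : K'.Normal
  hK'A : K' ≤ A
  hz : z ∈ K'
  hzK : z ∉ K
  hzz : z * z ∈ K
  mem : ∀ g, g ∈ K' ↔ g ∈ K ∨ z⁻¹ * g ∈ K
  cen : ∀ g, g⁻¹ * z⁻¹ * g * z ∈ K
  free : (K ⊔ U) ⊓ K' ≤ K

theorem act_eq {K L : Subgroup G} (hK : K.Normal) (hKL : K ≤ L) {a b : G} (h : a⁻¹ * b ∈ K)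
    (w : G ⧸ L) : a • w = b • w := by
  induction w using QuotientGroup.induction_on with
  | H x =>
    change (QuotientGroup.mk (a * x) : G ⧸ L) = QuotientGroup.mk (b * x)
    rw [QuotientGroup.eq]
    apply hKL
    have : (a * x)⁻¹ * (b * x) = x⁻¹ * (a⁻¹ * b) * x⁻¹⁻¹ := by group
    rw [this]
    exact hK.conj_mem _ h _

theorem out_mem_iff {A L : Subgroup G} (hL : L ≤ A) (x : G) :
    (QuotientGroup.mk x : G ⧸ L).out ∈ A ↔ x ∈ A := by
  obtain ⟨h, hh⟩ := QuotientGroup.mk_out_eq_mul L x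
  rw [hh]
  constructor
  · intro hm
    have : x = x * h * (h : G)⁻¹ := by group
    rw [this]; exact A.mul_mem hm (A.inv_mem (hL h.2))
  · intro hm; exact A.mul_mem hm (hL h.2)

theorem smul_out {L : Subgroup G} (a : G) (w : G ⧸ L) :
    a • w = (QuotientGroup.mk (a * w.out) : G ⧸ L) := by
  conv_lhs => rw [← QuotientGroup.out_eq' w]
  rfl

theorem smul_out_mem_iff {A L : Subgroup G} (hA : A.index = 2) (hL : L ≤ A) (a : G) (w : G ⧸ L) :
    (a • w).out ∈ A ↔ (a ∈ A ↔ w.out ∈ A) := by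
  rw [smul_out, out_mem_iff hL, Subgroup.mul_mem_iff_of_index_two hA]

theorem block_step [Finite G] {A U K K' : Subgroup G} {z : G} (H : StepHyp A U K K' z)
    {T : Set G} {c : G → G} (hc : GoodC A U T K c)
    (hcc : ∀ x ∈ A, ∀ y ∈ A, x⁻¹ * y ∈ K' ⊔ U → c x = c y) (hTA : ∀ t ∈ T, t ∉ A)
    (g : {v : G ⧸ (K ⊔ U) // v.out ∈ A} → G) (hg1 : ∀ v, (c v.1.out)⁻¹ * g v ∈ K)
    (hgT : ∀ v, g v ∈ T) (hginj : Function.Injective g) (hginv : ∀ v w, g v ≠ (g w)⁻¹) :
    ∃ R : Finset {v : G ⧸ (K ⊔ U) // v.out ∈ A}, 0 < R.card ∧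
      ∀ (Q : Finset G) (R' : Finset {v : G ⧸ (K ⊔ U) // v.out ∈ A}), R' ⊆ R →
        Q.card = 2 * R'.card → (∀ n ∈ Q, n ∈ K' ∧ n ∉ K ∧ n⁻¹ ∉ Q) →
        ∃ D'' : Set G, Block (K ⊔ U) D'' ∧ (∀ x ∈ Q, x ∈ D'' ∧ x⁻¹ ∈ D'') ∧
          ∀ x ∈ D'', x ∈ Q ∨ x⁻¹ ∈ Q ∨ (R' ≠ R ∧ ∃ v, x = g v ∨ x = (g v)⁻¹) := by
  have nK := H.nK
  have nK' := H.nK'
  have hKK' : K ≤ K' := fun x hx => (H.mem x).2 (Or.inl hx)
  have hKL : K ≤ K ⊔ U := le_sup_left
  have hLA : K ⊔ U ≤ A := sup_le (hKK'.trans H.hK'A) H.hUA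
  let L := K ⊔ U
  let X := {v : G ⧸ (K ⊔ U) // v.out ∈ A}
  have : Fintype X := Fintype.ofFinite X
  have hzA : z ∈ A := H.hK'A H.hz
  -- action of elements of K' outside K
  have hact : ∀ n, n ∈ K' → n ∉ K → ∀ w : G ⧸ L, n • w = z • w := by
    intro n hn hnK w
    have h1 : z⁻¹ * n ∈ K := by
      rcases (H.mem n).1 hn with h | h
      · exact absurd h hnK
      · exact h
    exact (act_eq nK hKL h1 w).symm
  have hzz : ∀ w : G ⧸ L, z • z • w = w := by
    intro w
    rw [smul_smul]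
    have h1 : (1 : G)⁻¹ * (z * z) ∈ K := by simpa using H.hzz
    rw [← act_eq nK hKL h1 w, one_smul]
  have hzne : ∀ w : G ⧸ L, z • w ≠ w := by
    intro w hw
    induction w using QuotientGroup.induction_on with
    | H x =>
      change (QuotientGroup.mk (z * x) : G ⧸ L) = QuotientGroup.mk x at hw
      have h1 : x⁻¹ * (z * x) ∈ L := QuotientGroup.eq.1 hw.symm
      have h2 : x⁻¹ * (z * x) ∈ K' := by
        have := nK'.conj_mem _ H.hz x⁻¹
        simpa [mul_assoc] using this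
      have h3 : x⁻¹ * (z * x) ∈ K := H.free ⟨h1, h2⟩
      apply H.hzK
      have h4 := nK.conj_mem _ h3 x
      have h5 : x * (x⁻¹ * (z * x)) * x⁻¹ = z := by group
      rwa [h5] at h4
  let ζ : X → X := fun v => ⟨z • v.1, (smul_out_mem_iff H.hA hLA z v.1).2
    (iff_of_true hzA v.2)⟩
  have hζζ : ∀ v, ζ (ζ v) = v := fun v => Subtype.ext (hzz v.1)
  have hζne : ∀ v, ζ v ≠ v := fun v hv => hzne v.1 (congrArg Subtype.val hv)
  obtain ⟨R, hR0⟩ := exists_section ζ hζζ
  have hR : ∀ v, v ∈ R ↔ ζ v ∉ R := fun v => (hR0 v).2 (hζne v)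
  -- the vertices
  let V : X × Bool → G ⧸ L := fun i => if i.2 then g i.1 • i.1.1 else i.1.1
  have hVf : ∀ v, V (v, false) = v.1 := fun v => rfl
  have hVt : ∀ v, V (v, true) = g v • v.1 := fun v => rfl
  have hgA : ∀ v, g v ∉ A := fun v => hTA _ (hgT v)
  have hVtA : ∀ v : X, (g v • v.1).out ∉ A := by
    intro v hv
    rw [smul_out_mem_iff H.hA hLA] at hv
    exact hgA v (hv.2 v.2)
  have hgc : ∀ (v : X) (w : G ⧸ L), g v • w = c v.1.out • w := fun v w =>
    (act_eq nK hKL (hg1 v) w).symm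
  have hgvinj : ∀ v w : X, g v • v.1 = g w • w.1 → v = w := by
    intro v w h
    rw [hgc, hgc, smul_out, smul_out (c w.1.out), QuotientGroup.eq] at h
    have h1 := hc.inj _ v.2 _ w.2 h
    apply Subtype.ext
    rw [← QuotientGroup.out_eq' v.1, ← QuotientGroup.out_eq' w.1]
    exact QuotientGroup.eq.2 h1
  have hVinj : Function.Injective V := by
    rintro ⟨v, b⟩ ⟨w, b'⟩ h
    cases b <;> cases b'
    · rw [hVf, hVf] at h
      rw [Subtype.ext h]
    · rw [hVf, hVt] at h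
      exact absurd (h ▸ v.2) (hVtA w)
    · rw [hVf, hVt] at h
      exact absurd (h ▸ w.2) (hVtA v)
    · rw [hVt, hVt] at h
      rw [hgvinj v w h]
  obtain ⟨b, hb⟩ : ∃ b, b ∉ A := by
    by_contra hcon
    push Not at hcon
    have : A = ⊤ := by ext x; simp [hcon x]
    have h2 := H.hA
    rw [this] at h2
    simp at h2
  have hVsurj : Function.Surjective V := by
    intro w
    by_cases hw : w.out ∈ A
    · exact ⟨(⟨w, hw⟩, false), rfl⟩
    · -- use the injective self-map v ↦ b • g v • v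
      let f : X → X := fun v => ⟨b • (g v • v.1), (smul_out_mem_iff H.hA hLA _ _).2
        (iff_of_false hb (hVtA v))⟩
      have hf : Function.Injective f := by
        intro v v' h
        have h1 : b • (g v • v.1) = b • (g v' • v'.1) := congrArg Subtype.val h
        exact hgvinj _ _ (MulAction.injective b h1)
      have hfs : Function.Surjective f := Finite.surjective_of_injective hf
      obtain ⟨v, hv⟩ := hfs ⟨b • w, (smul_out_mem_iff H.hA hLA _ _).2 (iff_of_false hb hw)⟩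
      have h1 : b • (g v • v.1) = b • w := congrArg Subtype.val hv
      exact ⟨(v, true), MulAction.injective b h1⟩
  have hVbij : Function.Bijective V := ⟨hVinj, hVsurj⟩
  -- z moves V (v, b) to V (ζ v, b)
  have hcζ : ∀ v : X, c (ζ v).1.out = c v.1.out := by
    intro v
    refine (hcc _ v.2 _ (ζ v).2 ?_).symm
    have h1 : (QuotientGroup.mk (z * v.1.out) : G ⧸ L) = (ζ v).1 := (smul_out z v.1).symm
    obtain ⟨l, hl⟩ := QuotientGroup.mk_out_eq_mul L (z * v.1.out)
    rw [h1] at hl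
    rw [hl]
    have h2 : v.1.out⁻¹ * (z * v.1.out * l) = (v.1.out⁻¹ * z * v.1.out⁻¹⁻¹) * l := by group
    rw [h2]
    exact (K' ⊔ U).mul_mem ((le_sup_left : K' ≤ K' ⊔ U) (nK'.conj_mem _ H.hz _))
      ((sup_le_sup_right hKK' U : K ⊔ U ≤ K' ⊔ U) l.2)
  have hcomm : ∀ (a : G) (w : G ⧸ L), a • z • w = z • a • w := by
    intro a w
    rw [smul_smul, smul_smul]
    refine (act_eq nK hKL ?_ w).symm
    have := H.cen a
    have h2 : (z * a)⁻¹ * (a * z) = a⁻¹ * z⁻¹ * a * z := by group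
    rw [h2]; exact this
  have hzV : ∀ i : X × Bool, z • V i = V (ζ i.1, i.2) := by
    rintro ⟨v, b⟩
    cases b
    · rfl
    · rw [hVt, hVt, hgc, hgc (ζ v), hcζ]
      change z • c v.1.out • v.1 = c v.1.out • z • v.1
      rw [hcomm]
  refine ⟨R, ?_, ?_⟩
  · rw [Finset.card_pos]
    have hv1 : ((QuotientGroup.mk 1 : G ⧸ L)).out ∈ A := (out_mem_iff hLA 1).2 A.one_mem
    let v0 : X := ⟨_, hv1⟩
    by_cases h : v0 ∈ R
    · exact ⟨v0, h⟩
    · refine ⟨ζ v0, ?_⟩
      by_contra h2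
      exact h ((hR v0).2 h2)
  · intro Q R' hR' hcard hQ
    have hR'ζ : ∀ v ∈ R', ζ v ∉ R' := fun v hv h => (hR v).1 (hR' hv) (hR' h)
    have hcard' : (R' ×ˢ (Finset.univ : Finset Bool)).card = Q.card := by
      rw [Finset.card_product, hcard]; simp [mul_comm]
    let eq : (R' ×ˢ (Finset.univ : Finset Bool) : Finset (X × Bool)) ≃ Q :=
      Finset.equivOfCardEq hcard'
    let e : X × Bool → G := fun i => if h : i ∈ R' ×ˢ (Finset.univ : Finset Bool) then
      (eq ⟨i, h⟩ : G) else 1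
    have hmemR : ∀ i : X × Bool, i ∈ R' ×ˢ (Finset.univ : Finset Bool) ↔ i.1 ∈ R' := by
      intro i; simp
    have heQ : ∀ i : X × Bool, i.1 ∈ R' → e i ∈ Q := by
      intro i hi
      have h := (hmemR i).2 hi
      simp only [e, dif_pos h]
      exact (eq ⟨i, h⟩).2
    have heinj : ∀ i j : X × Bool, i.1 ∈ R' → j.1 ∈ R' → e i = e j → i = j := by
      intro i j hi hj h
      have h1 := (hmemR i).2 hi
      have h2 := (hmemR j).2 hj
      simp only [e, dif_pos h1, dif_pos h2] at h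
      have := eq.injective (Subtype.ext h)
      exact congrArg Subtype.val this
    have hesurj : ∀ n ∈ Q, ∃ i : X × Bool, i.1 ∈ R' ∧ e i = n := by
      intro n hn
      obtain ⟨⟨i, hi⟩, hi2⟩ := eq.surjective ⟨n, hn⟩
      refine ⟨i, (hmemR i).1 hi, ?_⟩
      simp only [e, dif_pos hi, hi2]
    let lab : X × Bool → G := fun i =>
      if i.1 ∈ R' then e i else if ζ i.1 ∈ R' then (e (ζ i.1, i.2))⁻¹ else
        if i.2 then (g i.1)⁻¹ else g i.1
    let σ : X × Bool → X × Bool := fun i =>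
      if i.1 ∈ R' ∨ ζ i.1 ∈ R' then (ζ i.1, i.2) else (i.1, !i.2)
    have lab1 : ∀ i : X × Bool, i.1 ∈ R' → lab i = e i := fun i hi => if_pos hi
    have lab2 : ∀ i : X × Bool, ζ i.1 ∈ R' → lab i = (e (ζ i.1, i.2))⁻¹ := by
      intro i hi
      have : i.1 ∉ R' := fun h => hR'ζ _ h hi
      simp only [lab, if_neg this, if_pos hi]
    have lab3 : ∀ i : X × Bool, i.1 ∉ R' → ζ i.1 ∉ R' →
        lab i = if i.2 then (g i.1)⁻¹ else g i.1 := by
      intro i h1 h2
      simp only [lab, if_neg h1, if_neg h2]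
    have labK : ∀ i : X × Bool, (i.1 ∈ R' ∨ ζ i.1 ∈ R') →
        lab i ∈ K' ∧ lab i ∉ K ∧ (lab i ∈ Q ↔ i.1 ∈ R') ∧ ((lab i)⁻¹ ∈ Q ↔ ζ i.1 ∈ R') := by
      intro i hi
      rcases hi with hi | hi
      · rw [lab1 i hi]
        have h := hQ _ (heQ i hi)
        refine ⟨h.1, h.2.1, iff_of_true (heQ i hi) hi, iff_of_false h.2.2 (hR'ζ _ hi)⟩
      · rw [lab2 i hi]
        have h := hQ _ (heQ (ζ i.1, i.2) hi)
        refine ⟨K'.inv_mem h.1, fun hh => h.2.1 (by simpa using K.inv_mem hh),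
          iff_of_false h.2.2 (fun hh => hR'ζ _ hh hi), iff_of_true ?_ hi⟩
        rw [inv_inv]; exact heQ (ζ i.1, i.2) hi
    have labT : ∀ i : X × Bool, i.1 ∉ R' → ζ i.1 ∉ R' → lab i ∉ A := by
      intro i h1 h2
      rw [lab3 i h1 h2]
      by_cases hb : i.2 <;> simp [hb, hgA]
    have labinj : Function.Injective lab := by
      intro i j hij
      by_cases hi : i.1 ∈ R' ∨ ζ i.1 ∈ R'
      · have hj : j.1 ∈ R' ∨ ζ j.1 ∈ R' := by
          by_contra hcon
          push Not at hcon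
          exact labT j hcon.1 hcon.2 (hij ▸ H.hK'A (labK i hi).1)
        have ki := labK i hi
        have kj := labK j hj
        rcases hi with hi | hi
        · have hj' : j.1 ∈ R' := kj.2.2.1.1 (hij ▸ ki.2.2.1.2 hi)
          rw [lab1 i hi, lab1 j hj'] at hij
          exact heinj i j hi hj' hij
        · have hj' : ζ j.1 ∈ R' := kj.2.2.2.1 (hij ▸ ki.2.2.2.2 hi)
          rw [lab2 i hi, lab2 j hj'] at hij
          have := heinj (ζ i.1, i.2) (ζ j.1, j.2) hi hj' (inv_injective hij)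
          obtain ⟨h1, h2⟩ := Prod.mk.inj this
          have h3 : i.1 = j.1 := by rw [← hζζ i.1, h1, hζζ]
          exact Prod.ext h3 h2
      · push Not at hi
        have hj : j.1 ∉ R' ∧ ζ j.1 ∉ R' := by
          by_contra hcon
          have hj : j.1 ∈ R' ∨ ζ j.1 ∈ R' := by tauto
          exact labT i hi.1 hi.2 (hij ▸ H.hK'A (labK j hj).1)
        rw [lab3 i hi.1 hi.2, lab3 j hj.1 hj.2] at hij
        obtain ⟨v, b⟩ := i
        obtain ⟨w, b'⟩ := j
        cases b <;> cases b' <;> simp only [if_true, Bool.false_eq_true, if_false] at hij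
        · rw [hginj hij]
        · exact absurd hij (hginv v w)
        · exact absurd hij.symm (hginv w v)
        · rw [hginj (inv_injective hij)]
    have labne : ∀ i, lab i ≠ 1 := by
      intro i h
      by_cases hi : i.1 ∈ R' ∨ ζ i.1 ∈ R'
      · exact (labK i hi).2.1 (h ▸ K.one_mem)
      · push Not at hi
        exact labT i hi.1 hi.2 (h ▸ A.one_mem)
    have hσ1 : ∀ i, lab i • V i = V (σ i) := by
      intro i
      by_cases hi : i.1 ∈ R' ∨ ζ i.1 ∈ R'
      · simp only [σ, if_pos hi]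
        rw [hact _ (labK i hi).1 (labK i hi).2.1, hzV]
      · simp only [σ, if_neg hi]
        push Not at hi
        rw [lab3 i hi.1 hi.2]
        obtain ⟨v, b⟩ := i
        cases b
        · rfl
        · simp only [if_true, hVt, Bool.not_true, hVf, inv_smul_smul]
    have hσ2 : ∀ i, lab (σ i) = (lab i)⁻¹ := by
      intro i
      by_cases hi : i.1 ∈ R' ∨ ζ i.1 ∈ R'
      · have e1 : σ i = (ζ i.1, i.2) := if_pos hi
        rw [e1]
        rcases hi with hi | hi
        · rw [lab1 i hi]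
          have h2 : ζ (ζ i.1, i.2).1 ∈ R' := by
            change ζ (ζ i.1) ∈ R'
            rw [hζζ]; exact hi
          rw [lab2 _ h2]
          simp only [hζζ]
        · rw [lab2 i hi, inv_inv, lab1 (ζ i.1, i.2) hi]
      · have e1 : σ i = (i.1, !i.2) := if_neg hi
        rw [e1]
        push Not at hi
        rw [lab3 i hi.1 hi.2, lab3 (i.1, !i.2) hi.1 hi.2]
        obtain ⟨v, b⟩ := i
        cases b <;> simp
    refine ⟨Set.range lab, Block.mk' V hVbij lab labinj labne σ hσ1 hσ2, ?_, ?_⟩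
    · intro x hx
      obtain ⟨i, hi, rfl⟩ := hesurj x hx
      refine ⟨⟨i, lab1 i hi⟩, ⟨σ i, ?_⟩⟩
      rw [hσ2, lab1 i hi]
    · rintro x ⟨i, rfl⟩
      by_cases hi : i.1 ∈ R'
      · left; rw [lab1 i hi]; exact heQ i hi
      · by_cases hi2 : ζ i.1 ∈ R'
        · right; left
          exact (labK i (Or.inr hi2)).2.2.2.2 hi2
        · right; right
          refine ⟨?_, i.1, ?_⟩
          · rintro rfl
            exact hi ((hR i.1).2 hi2)
          · rw [lab3 i hi hi2]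
            by_cases hb : i.2 <;> simp [hb]

end Pool.Agent.V8H30.ST
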