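import Pool.Agent.V8H30.ST.Step

namespace Pool.Agent.V8H30.ST

open Classical

variable {G : Type*} [Group G]

theorem cov_half [Finite G] {A U K K' : Subgroup G} {z : G} (H : StepHyp A U K K' z)
    {T : Set G} {c : G → G} (hc : GoodC A U T K c)
    (hcc : ∀ x ∈ A, ∀ y ∈ A, x⁻¹ * y ∈ K' ⊔ U → c x = c y) (hTA : ∀ t ∈ T, t ∉ A)
    (g : {v : G ⧸ (K ⊔ U) // v.out ∈ A} → G) (hg1 : ∀ v, (c v.1.out)⁻¹ * g v ∈ K)
    (hgT : ∀ v, g v ∈ T) (hginj : Function.Injective g) (hginv : ∀ v w, g v ≠ (g w)⁻¹) :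
    ∀ (n : ℕ) (Q : Finset G), Q.card = 2 * n → (∀ m ∈ Q, m ∈ K' ∧ m ∉ K ∧ m⁻¹ ∉ Q) →
      ∃ D'' : Set G, Cov D'' ∧ (∀ x ∈ Q, x ∈ D'' ∧ x⁻¹ ∈ D'') ∧
        ∀ x ∈ D'', x ∈ Q ∨ x⁻¹ ∈ Q ∨ ∃ v, x = g v ∨ x = (g v)⁻¹ := by
  obtain ⟨R, hRpos, hR⟩ := block_step H hc hcc hTA g hg1 hgT hginj hginv
  intro n
  induction n using Nat.strong_induction_on with
  | _ n ih =>
    intro Q hQc hQ
    by_cases hn : n ≤ R.card
    · obtain ⟨R', hR'R, hR'c⟩ := Finset.exists_subset_card_eq hn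
      obtain ⟨D, h1, h2, h3⟩ := hR Q R' hR'R (by rw [hQc, hR'c]) hQ
      refine ⟨D, Cov.of_block h1, h2, fun x hx => ?_⟩
      rcases h3 x hx with h | h | h
      · exact Or.inl h
      · exact Or.inr (Or.inl h)
      · exact Or.inr (Or.inr h.2)
    · push Not at hn
      obtain ⟨Q₁, hQ₁Q, hQ₁c⟩ := Finset.exists_subset_card_eq (s := Q) (n := 2 * R.card)
        (by rw [hQc]; omega)
      obtain ⟨D₁, h1, h2, h3⟩ := hR Q₁ R (Finset.Subset.refl R) hQ₁c
        (fun m hm => ⟨(hQ m (hQ₁Q hm)).1, (hQ m (hQ₁Q hm)).2.1,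
          fun hh => (hQ m (hQ₁Q hm)).2.2 (hQ₁Q hh)⟩)
      obtain ⟨D₂, k1, k2, k3⟩ := ih (n - R.card) (by omega) (Q \ Q₁)
        (by rw [Finset.card_sdiff_of_subset hQ₁Q, hQc, hQ₁c]; omega)
        (fun m hm => by
          have hm' := (Finset.mem_sdiff.1 hm).1
          exact ⟨(hQ m hm').1, (hQ m hm').2.1,
            fun hh => (hQ m hm').2.2 (Finset.mem_sdiff.1 hh).1⟩)
      have h3' : ∀ x ∈ D₁, x ∈ Q₁ ∨ x⁻¹ ∈ Q₁ := by
        intro x hx
        rcases h3 x hx with h | h | h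
        · exact Or.inl h
        · exact Or.inr h
        · exact absurd rfl h.1
      have hTQ : ∀ v, ∀ x, (x = g v ∨ x = (g v)⁻¹) → x ∉ K' := by
        intro v x hx hxK
        have h5 : x ∈ A := H.hK'A hxK
        rcases hx with rfl | rfl
        · exact hTA _ (hgT v) h5
        · exact hTA _ (hgT v) (by simpa using A.inv_mem h5)
      have hdis : Disjoint D₁ D₂ := by
        rw [Set.disjoint_left]
        intro x hx1 hx2
        rcases h3' x hx1 with a | a <;> rcases k3 x hx2 with b | b | ⟨v, b⟩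
        · exact (Finset.mem_sdiff.1 b).2 a
        · exact (hQ x (hQ₁Q a)).2.2 (Finset.mem_sdiff.1 b).1
        · exact hTQ v x b (hQ x (hQ₁Q a)).1
        · have b' := (Finset.mem_sdiff.1 b).1
          exact (hQ x b').2.2 (hQ₁Q a)
        · exact (Finset.mem_sdiff.1 b).2 a
        · exact hTQ v x b (by simpa using K'.inv_mem (hQ _ (hQ₁Q a)).1)
      refine ⟨D₁ ∪ D₂, (Cov.of_block h1).union k1 hdis, ?_, ?_⟩
      · intro x hx
        by_cases hx1 : x ∈ Q₁
        · exact ⟨Or.inl (h2 x hx1).1, Or.inl (h2 x hx1).2⟩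
        · have := k2 x (Finset.mem_sdiff.2 ⟨hx, hx1⟩)
          exact ⟨Or.inr this.1, Or.inr this.2⟩
      · rintro x (hx | hx)
        · rcases h3' x hx with h | h
          · exact Or.inl (hQ₁Q h)
          · exact Or.inr (Or.inl (hQ₁Q h))
        · rcases k3 x hx with h | h | h
          · exact Or.inl (Finset.mem_sdiff.1 h).1
          · exact Or.inr (Or.inl (Finset.mem_sdiff.1 h).1)
          · exact Or.inr (Or.inr h)

/-- The non-involutions of `K' \ K` split into an even number of inverse pairs. -/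
theorem exists_half_set [Finite G] {K K' E : Subgroup G} (hEK : E ≤ K) (hKK' : K ≤ K')
    (hE4 : Nat.card E = 4) (hE2 : ∀ e ∈ E, e * e = 1) (hEc : ∀ n ∈ K', ∀ e ∈ E, e * n = n * e) :
    ∃ (n : ℕ) (Q : Finset G), Q.card = 2 * n ∧ (∀ m ∈ Q, m ∈ K' ∧ m ∉ K ∧ m⁻¹ ∉ Q) ∧
      (∀ m ∈ Q, m * m ≠ 1) ∧ ∀ m ∈ K', m ∉ K → m * m ≠ 1 → m ∈ Q ∨ m⁻¹ ∈ Q := by
  let P := {m : G // m ∈ K' ∧ m ∉ K ∧ m * m ≠ 1}
  have : Fintype P := Fintype.ofFinite P
  let act : MulAction E P :=
    { smul := fun e m => ⟨e * m.1, K'.mul_mem (hKK' (hEK e.2)) m.2.1, fun h => m.2.2.1 (by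
        have : m.1 = (e : G)⁻¹ * (e * m.1) := by group
        rw [this]; exact K.mul_mem (K.inv_mem (hEK e.2)) h), fun h => m.2.2.2 (by
        have h1 : (e : G) * m.1 * (e * m.1) = ((e : G) * e) * (m.1 * m.1) := by
          calc (e : G) * m.1 * (e * m.1) = e * (m.1 * e) * m.1 := by group
            _ = e * (e * m.1) * m.1 := by rw [hEc m.1 m.2.1 e e.2]
            _ = ((e : G) * e) * (m.1 * m.1) := by group
        rw [h1, hE2 e e.2, one_mul] at h
        exact h)⟩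
      one_smul := fun m => Subtype.ext (one_mul _)
      mul_smul := fun a b m => Subtype.ext (mul_assoc _ _ _) }
  have hfree : ∀ m : P, MulAction.stabilizer E m = ⊥ := by
    intro m
    rw [eq_bot_iff]
    intro e he
    have h1 : e • m = m := he
    have h2 : (e : G) * m.1 = m.1 := congrArg Subtype.val h1
    rw [Subgroup.mem_bot]
    exact Subtype.ext (mul_eq_right.1 h2)
  have hcard : 4 ∣ Nat.card P := by
    have e := MulAction.selfEquivOrbitsQuotientProd hfree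
    have h1 := Nat.card_congr e
    rw [Nat.card_prod, hE4] at h1
    exact ⟨_, by rw [h1, mul_comm]⟩
  let σ : P → P := fun m => ⟨m.1⁻¹, K'.inv_mem m.2.1, fun h => m.2.2.1 (by simpa using K.inv_mem h),
    fun h => m.2.2.2 (by
      have : m.1 * m.1 = (m.1⁻¹ * m.1⁻¹)⁻¹ := by rw [mul_inv_rev, inv_inv]
      rw [this, h, inv_one])⟩
  have hσ : ∀ m, σ (σ m) = m := fun m => Subtype.ext (inv_inv _)
  have hσne : ∀ m, σ m ≠ m := by
    intro m h
    have h1 : m.1⁻¹ = m.1 := congrArg Subtype.val h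
    apply m.2.2.2
    nth_rewrite 1 [← h1]
    simp
  obtain ⟨R, hR0⟩ := exists_section σ hσ
  have hR : ∀ v, v ∈ R ↔ σ v ∉ R := fun v => (hR0 v).2 (hσne v)
  have hRc : 2 * R.card = Fintype.card P := by
    have h1 : Rᶜ.card = R.card := by
      apply Finset.card_bij (fun a _ => σ a)
      · intro a ha
        by_contra h
        exact (Finset.mem_compl.1 ha) ((hR a).2 h)
      · intro a _ b _ h
        rw [← hσ a, h, hσ]
      · intro b hb
        refine ⟨σ b, ?_, hσ b⟩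
        exact Finset.mem_compl.2 ((hR b).1 hb)
    have h2 := Finset.card_add_card_compl R
    omega
  rw [Nat.card_eq_fintype_card, ← hRc] at hcard
  obtain ⟨k, hk⟩ := hcard
  refine ⟨k, R.map (Function.Embedding.subtype _), ?_, ?_, ?_, ?_⟩
  · rw [Finset.card_map]; omega
  · intro m hm
    obtain ⟨v, hv, rfl⟩ := Finset.mem_map.1 hm
    refine ⟨v.2.1, v.2.2.1, ?_⟩
    intro h
    obtain ⟨w, hw, hwv⟩ := Finset.mem_map.1 h
    have : w = σ v := Subtype.ext hwv
    exact (hR v).1 hv (this ▸ hw)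
  · intro m hm
    obtain ⟨v, hv, rfl⟩ := Finset.mem_map.1 hm
    exact v.2.2.2
  · intro m h1 h2 h3
    by_cases h : (⟨m, h1, h2, h3⟩ : P) ∈ R
    · left; exact Finset.mem_map.2 ⟨_, h, rfl⟩
    · right
      have : σ ⟨m, h1, h2, h3⟩ ∈ R := by
        by_contra hh
        exact h ((hR _).2 hh)
      exact Finset.mem_map.2 ⟨_, this, rfl⟩

/-- One full step. -/
theorem step_cov [Finite G] {A U K K' : Subgroup G} {z : G} (H : StepHyp A U K K' z)
    {T : Set G} {c : G → G} (hc : GoodC A U T K c)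
    (hcc : ∀ x ∈ A, ∀ y ∈ A, x⁻¹ * y ∈ K' ⊔ U → c x = c y) (hTA : ∀ t ∈ T, t ∉ A)
    (hTsq : ∀ t ∈ T, t * t ≠ 1) (hTinv : ∀ t ∈ T, t⁻¹ ∈ T) (hTK : ∀ t ∈ T, ∀ k ∈ K, t * k ∈ T)
    (D : Set G) (hDinv : ∀ x ∈ D, x⁻¹ ∈ D)
    (hD4 : ∀ t ∈ T, 4 ≤ {g : G | t⁻¹ * g ∈ K ∧ g ∉ D}.ncard)
    {E : Subgroup G} (hEK : E ≤ K)
    (hE4 : Nat.card E = 4) (hE2 : ∀ e ∈ E, e * e = 1) (hEc : ∀ n ∈ K', ∀ e ∈ E, e * n = n * e) :
    ∃ D' : Set G, Cov D' ∧ (∀ n ∈ K', n ∉ K → n * n ≠ 1 → n ∈ D') ∧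
      (∀ x ∈ D', (x ∈ K' ∧ x ∉ K ∧ x * x ≠ 1) ∨ (x ∈ T ∧ x ∉ D)) ∧
      ∀ t ∈ T, {g : G | t⁻¹ * g ∈ K ∧ g ∈ D'}.ncard ≤ 4 := by
  have nK := H.nK
  have hKK' : K ≤ K' := fun x hx => (H.mem x).2 (Or.inl hx)
  let X := {v : G ⧸ (K ⊔ U) // v.out ∈ A}
  have : Fintype X := Fintype.ofFinite X
  let κ : X → G ⧸ K := fun v => QuotientGroup.mk (c v.1.out)
  have hXeq : ∀ x y : X, x.1.out⁻¹ * y.1.out ∈ K ⊔ U → x = y := by
    intro x y h
    apply Subtype.ext
    rw [← QuotientGroup.out_eq' x.1, ← QuotientGroup.out_eq' y.1]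
    exact QuotientGroup.eq.2 h
  have h2 : ∀ x y w, κ x = κ y → κ x = κ w → x = y ∨ x = w ∨ y = w := by
    intro x y w h1 h2
    rcases hc.two _ x.2 _ y.2 _ w.2 (QuotientGroup.eq.1 h1) (QuotientGroup.eq.1 h2) with h | h | h
    · exact Or.inl (hXeq _ _ h)
    · exact Or.inr (Or.inl (hXeq _ _ h))
    · exact Or.inr (Or.inr (hXeq _ _ h))
  have hkap : ∀ (x : X) (g : G), (QuotientGroup.mk g : G ⧸ K) = κ x ↔ (c x.1.out)⁻¹ * g ∈ K := by
    intro x g
    rw [eq_comm]
    exact QuotientGroup.eq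
  obtain ⟨g, hg1, hginj, hginv⟩ := greedy D κ h2 (by
      intro x
      have := hD4 _ (hc.memT _ x.2)
      have e : {g : G | (QuotientGroup.mk g : G ⧸ K) = κ x ∧ g ∉ D} =
          {g : G | (c x.1.out)⁻¹ * g ∈ K ∧ g ∉ D} := by
        ext g; exact and_congr_left' (hkap x g)
      rw [e]; exact this) (by
      intro x g hg
      have h1 := (hkap x g).1 hg
      apply hTsq
      have : g = c x.1.out * ((c x.1.out)⁻¹ * g) := by group
      rw [this]
      exact hTK _ (hc.memT _ x.2) _ h1)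
  have hg1' : ∀ v : X, (c v.1.out)⁻¹ * g v ∈ K := fun v => (hkap v _).1 (hg1 v).1
  have hgT : ∀ v, g v ∈ T := by
    intro v
    have : g v = c v.1.out * ((c v.1.out)⁻¹ * g v) := by group
    rw [this]
    exact hTK _ (hc.memT _ v.2) _ (hg1' v)
  obtain ⟨n, Q, hQc, hQ, hQsq, hQall⟩ := exists_half_set hEK hKK' hE4 hE2 hEc
  obtain ⟨D', k1, k2, k3⟩ := cov_half H hc hcc hTA g hg1' hgT hginj hginv n Q hQc hQ
  refine ⟨D', k1, ?_, ?_, ?_⟩
  · intro m h1 h2 h3
    rcases hQall m h1 h2 h3 with h | h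
    · exact (k2 m h).1
    · have := (k2 _ h).2
      rwa [inv_inv] at this
  · intro x hx
    rcases k3 x hx with h | h | ⟨v, h | h⟩
    · exact Or.inl ⟨(hQ x h).1, (hQ x h).2.1, hQsq x h⟩
    · left
      refine ⟨by simpa using K'.inv_mem (hQ _ h).1,
        fun hh => (hQ _ h).2.1 (K.inv_mem hh), fun hh => hQsq _ h ?_⟩
      have : x⁻¹ * x⁻¹ = (x * x)⁻¹ := by group
      rw [this, hh, inv_one]
    · right
      rw [h]; exact ⟨hgT v, (hg1 v).2⟩
    · right
      rw [h]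
      exact ⟨hTinv _ (hgT v), fun hh => (hg1 v).2 (by simpa using hDinv _ hh)⟩
  · intro t ht
    let S1 : Finset X := Finset.univ.filter (fun x => κ x = QuotientGroup.mk t)
    let S2 : Finset X := Finset.univ.filter (fun x => (κ x)⁻¹ = QuotientGroup.mk t)
    have c1 : S1.card ≤ 2 := by
      apply card_le_two_of
      intro x hx y hy w hw
      simp only [S1, Finset.mem_filter, Finset.mem_univ, true_and] at hx hy hw
      exact h2 x y w (hx.trans hy.symm) (hx.trans hw.symm)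
    have c2 : S2.card ≤ 2 := by
      apply card_le_two_of
      intro x hx y hy w hw
      simp only [S2, Finset.mem_filter, Finset.mem_univ, true_and] at hx hy hw
      exact h2 x y w (inv_injective (hx.trans hy.symm)) (inv_injective (hx.trans hw.symm))
    let F : Finset G := S1.image g ∪ S2.image (fun x => (g x)⁻¹)
    have cF : F.card ≤ 4 := by
      calc F.card ≤ (S1.image g).card + (S2.image (fun x => (g x)⁻¹)).card :=
            Finset.card_union_le _ _
        _ ≤ S1.card + S2.card := Nat.add_le_add Finset.card_image_le Finset.card_image_le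
        _ ≤ 4 := by omega
    have hsub : {x : G | t⁻¹ * x ∈ K ∧ x ∈ D'} ⊆ (F : Set G) := by
      rintro x ⟨hx1, hx2⟩
      have hxT : x ∈ T := by
        have : x = t * (t⁻¹ * x) := by group
        rw [this]; exact hTK t ht _ hx1
      have hxA := hTA x hxT
      have hmk : (QuotientGroup.mk x : G ⧸ K) = QuotientGroup.mk t := (QuotientGroup.eq.2 hx1).symm
      rcases k3 x hx2 with h | h | ⟨v, h | h⟩
      · exact absurd (H.hK'A (hQ x h).1) hxA
      · exact absurd (H.hK'A (by simpa using K'.inv_mem (hQ _ h).1)) hxA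
      · simp only [F, Finset.coe_union, Finset.coe_image, Set.mem_union]
        left
        refine ⟨v, ?_, h.symm⟩
        simp only [S1, Finset.coe_filter, Finset.mem_univ, true_and]
        change κ v = QuotientGroup.mk t
        rw [← hmk, h]
        exact (hg1 v).1.symm
      · simp only [F, Finset.coe_union, Finset.coe_image, Set.mem_union]
        right
        refine ⟨v, ?_, h.symm⟩
        simp only [S2, Finset.coe_filter, Finset.mem_univ, true_and]
        change (κ v)⁻¹ = QuotientGroup.mk t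
        rw [← hmk, h, ← (hg1 v).1]
        rfl
    have := Set.ncard_le_ncard hsub (Set.toFinite _)
    rw [Set.ncard_coe_finset] at this
    omega

end Pool.Agent.V8H30.ST
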